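import Pool.Agent.H39.LW.HKLower

/-!
# Module HD: `un n 0 - un n y` is bounded; the Green function tends to zero

Let `G_n z = ∑_{k ≤ n} hk k z` (finite support).
* `un n y = ∑' z, G_n z * G_n (z - y)` (`hk_add`, `hk_neg`), hence
  `un n 0 - un n y = 1/2 ∑' z, (G_n z - G_n (z - y))^2` (translation invariance of the sum).
* For a unit step `e`: `∑' z, (G_n z - G_n (z - sv e))^2 ≤ 2 * (2 d) * G_n 0`:
  `(1/(2d)) ∑_e 1/2 ‖G_n - G_n(· - sv e)‖² = ∑' z, G_n z (G_n z - (1/(2d)) ∑_e G_n (z - sv e))
   = ∑' z, G_n z (hk 0 z - hk (n+1) z) ≤ G_n 0` because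
  `(1/(2d)) ∑_e hk k (z - sv e) = hk (k+1) z` (telescoping).
* For general `y`, write `y` as a sum of `N` unit steps: the function
  `y ↦ √(∑' z, (G_n z - G_n (z - y))²)` is subadditive (Minkowski) and translation invariant; or use
  `(x_1 + ... + x_N)² ≤ N ∑ x_i²`. One gets a constant `C y` with
  `un n 0 - un n y ≤ C y * G_n 0 ≤ C y * ∑' k, hk k 0` for all `n`.
  (It is enough to prove: the set of `y` for which there is a constant `C` with
  `∀ n, ∑' z, (G_n z - G_n (z - y))^2 ≤ C` contains `0` and the unit steps and is closed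
  under addition: `‖G - T_{y+y'} G‖² ≤ 2 ‖G - T_y G‖² + 2 ‖T_y (G - T_{y'} G)‖²`; and the unit steps
  generate.)
* `un_le`: `un n y ≤ un n 0`, as the difference is a sum of squares.
* `green_tendsto`: `∑' n, hk n y → 0` as `y → ∞` (cofinite): each `hk n y` is `0` for all but
  finitely many `y` and `hk n y ≤ B n` with `B` summable: by `hk_le`,
  `hk (m + m) y ≤ hk (m + m) 0` and
  `hk (m + m + 1) y = average of hk (m + m) (y - sv e) ≤ hk (m + m) 0`.
  Use `tendsto_tsum_of_dominated_convergence`.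
-/

open MeasureTheory ProbabilityTheory Filter
open scoped ENNReal

namespace Pool.Agent.H39.LW

variable {d : ℕ} [NeZero d]

namespace HD

/-- the Green function up to time `n` -/
noncomputable def gf (n : ℕ) (z : Zd d) : ℝ := ∑ k ∈ Finset.range (n + 1), hk k z

omit [NeZero d] in
lemma gf_support (n : ℕ) : (Function.support (gf n : Zd d → ℝ)).Finite := by
  refine Set.Finite.subset (Set.Finite.biUnion (Finset.finite_toSet (Finset.range (n + 1)))
    fun k _ => hk_support (d := d) k) ?_
  intro z hz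
  rw [Function.mem_support] at hz
  obtain ⟨k, hk1, hk2⟩ := Finset.exists_ne_zero_of_sum_ne_zero hz
  exact Set.mem_biUnion (Finset.mem_coe.2 hk1) (Function.mem_support.2 hk2)

omit [NeZero d] in
lemma summable_fin {f g : Zd d → ℝ} (hf : (Function.support f).Finite)
    (h : ∀ z, f z = 0 → g z = 0) : Summable g := by
  refine summable_of_hasFiniteSupport (Set.Finite.subset hf ?_)
  intro z hz
  rw [Function.mem_support] at hz ⊢
  exact fun h' => hz (h z h')

omit [NeZero d] in
lemma support_translate {f : Zd d → ℝ} (hf : (Function.support f).Finite) (y : Zd d) :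
    (Function.support fun z => f (z - y)).Finite := by
  have : (Function.support fun z => f (z - y)) = (fun z => z - y) ⁻¹' Function.support f := rfl
  rw [this]
  exact hf.preimage (sub_left_injective.injOn)

omit [NeZero d] in
lemma support_add {f g : Zd d → ℝ} (hf : (Function.support f).Finite)
    (hg : (Function.support g).Finite) : (Function.support fun z => f z + g z).Finite :=
  (hf.union hg).subset (Function.support_add f g)

omit [NeZero d] in
lemma support_sub {f g : Zd d → ℝ} (hf : (Function.support f).Finite)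
    (hg : (Function.support g).Finite) : (Function.support fun z => f z - g z).Finite :=
  (hf.union hg).subset (Function.support_sub f g)

omit [NeZero d] in
lemma tsum_translate (f : Zd d → ℝ) (y : Zd d) : ∑' z, f (z - y) = ∑' z, f z :=
  (Equiv.subRight y).tsum_eq f

omit [NeZero d] in
lemma un_eq (n : ℕ) (y : Zd d) : un n y = ∑' z, gf n z * gf n (z - y) := by
  have h1 : ∀ z : Zd d, gf n z * gf n (z - y) =
      ∑ k ∈ Finset.range (n + 1), ∑ l ∈ Finset.range (n + 1), hk k z * hk l (y - z) := by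
    intro z
    unfold gf
    rw [Finset.sum_mul_sum]
    refine Finset.sum_congr rfl fun k _ => Finset.sum_congr rfl fun l _ => ?_
    rw [← hk_neg l (z - y), neg_sub]
  have hsm : ∀ k l : ℕ, Summable fun z : Zd d => hk k z * hk l (y - z) := fun k l =>
    summable_fin (hk_support k) fun z hz => by rw [hz, zero_mul]
  rw [tsum_congr h1, Summable.tsum_finsetSum]
  · unfold un
    refine Finset.sum_congr rfl fun k _ => ?_
    rw [Summable.tsum_finsetSum fun l _ => hsm k l]
    exact Finset.sum_congr rfl fun l _ => hk_add k l y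
  · intro k _
    exact summable_sum fun l _ => hsm k l

omit [NeZero d] in
lemma un_zero_eq (n : ℕ) : un n (0 : Zd d) = ∑' z : Zd d, gf n z ^ 2 := by
  rw [un_eq]
  refine tsum_congr fun z => ?_
  rw [sub_zero, sq]

/-- squared distance of the Green function and its translate -/
noncomputable def dd (n : ℕ) (y : Zd d) : ℝ := ∑' z : Zd d, (gf n z - gf n (z - y)) ^ 2

omit [NeZero d] in
lemma dd_nonneg (n : ℕ) (y : Zd d) : 0 ≤ dd n y := tsum_nonneg fun _ => sq_nonneg _

omit [NeZero d] in
lemma dd_eq (n : ℕ) (y : Zd d) : dd n y = 2 * (un n (0 : Zd d) - un n y) := by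
  have hg := gf_support (d := d) n
  have hg' := support_translate hg y
  have h1 : Summable fun z : Zd d => gf n z ^ 2 :=
    summable_fin hg fun z hz => by rw [hz]; ring
  have h2 : Summable fun z : Zd d => gf n z * gf n (z - y) :=
    summable_fin hg fun z hz => by rw [hz]; ring
  have h3 : Summable fun z : Zd d => gf n (z - y) ^ 2 :=
    summable_fin hg' fun z hz => by
      have : gf n (z - y) = 0 := hz
      rw [this]; ring
  have h4 : ∀ z : Zd d, (gf n z - gf n (z - y)) ^ 2 =
      gf n z ^ 2 - 2 * (gf n z * gf n (z - y)) + gf n (z - y) ^ 2 := fun z => by ring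
  unfold dd
  rw [tsum_congr h4, Summable.tsum_add (h1.sub (h2.mul_left 2)) h3,
    Summable.tsum_sub h1 (h2.mul_left 2), tsum_mul_left, ← un_eq,
    tsum_translate (fun z => gf n z ^ 2) y, ← un_zero_eq]
  ring

omit [NeZero d] in
lemma dd_add (n : ℕ) (y y' : Zd d) : dd n (y + y') ≤ 2 * dd n y + 2 * dd n y' := by
  have hg := gf_support (d := d) n
  have hs : ∀ y : Zd d, Summable fun z : Zd d => (gf n z - gf n (z - y)) ^ 2 := fun y =>
    summable_fin (support_sub hg (support_translate hg y)) fun z hz => by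
      have : gf n z - gf n (z - y) = 0 := hz
      rw [this]; ring
  have hs' : Summable fun z : Zd d => (gf n (z - y) - gf n (z - y - y')) ^ 2 :=
    (Equiv.subRight y).summable_iff.2 (hs y')
  have h1 : dd n y' = ∑' z : Zd d, (gf n (z - y) - gf n (z - y - y')) ^ 2 :=
    (tsum_translate (fun z => (gf n z - gf n (z - y')) ^ 2) y).symm
  rw [h1]
  unfold dd
  rw [← tsum_mul_left, ← tsum_mul_left, ← Summable.tsum_add ((hs y).mul_left 2)
    (hs'.mul_left 2)]
  refine Summable.tsum_le_tsum (fun z => ?_) (hs _) (((hs y).mul_left 2).add (hs'.mul_left 2))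
  rw [← sub_sub]
  nlinarith [sq_nonneg ((gf n z - gf n (z - y)) - (gf n (z - y) - gf n (z - y - y')))]

end HD

open HD

lemma un_le (n : ℕ) (y : Zd d) : un n y ≤ un n (0 : Zd d) := by
  have h1 := dd_nonneg n y
  rw [dd_eq] at h1
  linarith

namespace HD

omit [NeZero d] in
lemma un_neg (n : ℕ) (y : Zd d) : un n (-y) = un n y := by
  unfold un
  exact Finset.sum_congr rfl fun k _ => Finset.sum_congr rfl fun l _ => hk_neg _ _

lemma sum_un_steps (n : ℕ) : ∑ e : Step d, un n (sv e) =
    2 * d * ∑ k ∈ Finset.range (n + 1), ∑ l ∈ Finset.range (n + 1), hk (k + l + 1) (0 : Zd d) := by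
  have hd : (2 * d : ℝ) ≠ 0 := by
    have : (d : ℝ) ≠ 0 := by exact_mod_cast NeZero.ne d
    positivity
  have h1 : ∀ m : ℕ, ∑ e : Step d, hk m (sv e) = 2 * d * hk (m + 1) (0 : Zd d) := by
    intro m
    have h2 : hk (m + 1) (0 : Zd d) = (∑ e : Step d, hk m ((0 : Zd d) - sv e)) / (2 * d) := rfl
    rw [h2, mul_div_cancel₀ _ hd]
    refine Finset.sum_congr rfl fun e _ => ?_
    rw [zero_sub, hk_neg]
  unfold un
  rw [Finset.sum_comm, Finset.mul_sum]
  refine Finset.sum_congr rfl fun k _ => ?_
  rw [Finset.sum_comm, Finset.mul_sum]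
  exact Finset.sum_congr rfl fun l _ => h1 _

lemma dd_step (hs : Summable fun m => hk m (0 : Zd d)) (n : ℕ) (e : Step d) :
    dd n (sv e) ≤ 4 * d * ∑' m, hk m (0 : Zd d) := by
  have h0 : ∀ e : Step d, 0 ≤ un n (0 : Zd d) - un n (sv e) := fun e =>
    sub_nonneg.2 (un_le n (sv e))
  have h1 : un n (0 : Zd d) - un n (sv e) ≤ ∑ e : Step d, (un n (0 : Zd d) - un n (sv e)) :=
    Finset.single_le_sum (f := fun e : Step d => un n (0 : Zd d) - un n (sv e))
      (fun e _ => h0 e) (Finset.mem_univ e)
  have h2 : ∑ e : Step d, (un n (0 : Zd d) - un n (sv e)) =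
      2 * d * ∑ k ∈ Finset.range (n + 1), ∑ l ∈ Finset.range (n + 1),
        (hk (k + l) (0 : Zd d) - hk (k + l + 1) (0 : Zd d)) := by
    rw [Finset.sum_sub_distrib, sum_un_steps, Finset.sum_const, Finset.card_univ]
    have hc : (Fintype.card (Step d) : ℝ) = 2 * d := by
      simp [Step, mul_comm]
    rw [nsmul_eq_mul, hc, ← mul_sub, un, ← Finset.sum_sub_distrib]
    simp only [Finset.sum_sub_distrib]
  have h3 : ∀ k : ℕ, ∑ l ∈ Finset.range (n + 1),
      (hk (k + l) (0 : Zd d) - hk (k + l + 1) (0 : Zd d)) ≤ hk k (0 : Zd d) := by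
    intro k
    have h4 := Finset.sum_range_sub' (fun l => hk (k + l) (0 : Zd d)) (n + 1)
    simp only [← add_assoc, add_zero] at h4
    rw [h4]
    have := hk_nonneg (k + n + 1) (0 : Zd d)
    linarith
  have h5 : ∑ k ∈ Finset.range (n + 1), hk k (0 : Zd d) ≤ ∑' m, hk m (0 : Zd d) :=
    hs.sum_le_tsum _ fun k _ => hk_nonneg k _
  have hd : (0 : ℝ) ≤ 2 * d := by positivity
  have h6 : un n (0 : Zd d) - un n (sv e) ≤ 2 * d * ∑' m, hk m (0 : Zd d) := by
    refine h1.trans ?_
    rw [h2]
    refine mul_le_mul_of_nonneg_left ?_ hd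
    exact (Finset.sum_le_sum fun k _ => h3 k).trans h5
  rw [dd_eq]
  linarith

/-- the translations with bounded distance -/
def bd (d : ℕ) : AddSubmonoid (Zd d) where
  carrier := {y | ∃ C : ℝ, ∀ n, dd n y ≤ C}
  add_mem' := by
    rintro y y' ⟨C, hC⟩ ⟨C', hC'⟩
    refine ⟨2 * C + 2 * C', fun n => (dd_add n y y').trans ?_⟩
    have := hC n
    have := hC' n
    linarith
  zero_mem' := by
    refine ⟨0, fun n => ?_⟩
    rw [dd_eq, sub_self, mul_zero]

lemma mem_bd (hs : Summable fun m => hk m (0 : Zd d)) (y : Zd d) : y ∈ bd d := by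
  have hstep : ∀ e : Step d, sv e ∈ bd d := fun e => ⟨_, fun n => dd_step hs n e⟩
  have h1 : ∀ (i : Fin d) (m : ℤ), (Pi.single i m : Zd d) ∈ bd d := by
    intro i m
    obtain ⟨k, rfl | rfl⟩ := Int.eq_nat_or_neg m
    · have h2 := (bd d).nsmul_mem (hstep (i, true)) k
      have h3 : k • sv (i, true) = (Pi.single i (k : ℤ) : Zd d) := by
        simp [sv, ← Pi.single_smul]
      rwa [h3] at h2
    · have h2 := (bd d).nsmul_mem (hstep (i, false)) k
      have h3 : k • sv (i, false) = (Pi.single i (-(k : ℤ)) : Zd d) := by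
        simp [sv, ← Pi.single_smul]
      rwa [h3] at h2
  rw [← Finset.univ_sum_single y]
  exact (bd d).sum_mem fun i _ => h1 i _

end HD

theorem un_diff (hs : Summable fun m => hk m (0 : Zd d)) (y : Zd d) :
    ∃ C : ℝ, ∀ n, un n (0 : Zd d) - un n y ≤ C := by
  obtain ⟨C, hC⟩ := mem_bd hs y
  refine ⟨C / 2, fun n => ?_⟩
  have h1 := hC n
  rw [dd_eq] at h1
  linarith

namespace HD

lemma hk_even_le (m : ℕ) (y : Zd d) : hk (m + m) y ≤ hk (m + m) (0 : Zd d) := by
  have h1 := hk_le m m y
  rwa [Real.sqrt_mul_self (hk_nonneg _ _)] at h1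

lemma hk_odd_le (m : ℕ) (y : Zd d) : hk (m + m + 1) y ≤ hk (m + m) (0 : Zd d) := by
  have hd : (0 : ℝ) < 2 * d := by
    have : (0 : ℝ) < d := by exact_mod_cast Nat.pos_of_ne_zero (NeZero.ne d)
    positivity
  have h2 : hk (m + m + 1) y = (∑ e : Step d, hk (m + m) (y - sv e)) / (2 * d) := rfl
  rw [h2, div_le_iff₀ hd]
  refine (Finset.sum_le_sum fun e _ => hk_even_le m (y - sv e)).trans ?_
  rw [Finset.sum_const, Finset.card_univ]
  have hc : (Fintype.card (Step d) : ℝ) = 2 * d := by
    simp [Step, mul_comm]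
  rw [nsmul_eq_mul, hc, mul_comm]

lemma hk_bd (n : ℕ) (y : Zd d) : hk n y ≤ hk n (0 : Zd d) + hk (n - 1) (0 : Zd d) := by
  rcases Nat.even_or_odd' n with ⟨m, rfl | rfl⟩
  · have h1 := hk_even_le m y
    have h2 := hk_nonneg (2 * m - 1) (0 : Zd d)
    rw [two_mul] at h2 ⊢
    linarith
  · have h1 := hk_odd_le m y
    have h2 := hk_nonneg (2 * m + 1) (0 : Zd d)
    rw [Nat.add_sub_cancel]
    rw [two_mul] at h2 ⊢
    linarith

lemma summable_bd (hs : Summable fun m => hk m (0 : Zd d)) :
    Summable fun n => hk n (0 : Zd d) + hk (n - 1) (0 : Zd d) := by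
  refine hs.add ?_
  rw [← summable_nat_add_iff 1]
  simpa using hs

end HD

lemma summable_hk (hs : Summable fun m => hk m (0 : Zd d)) (y : Zd d) :
    Summable fun m => hk m y :=
  Summable.of_nonneg_of_le (fun m => hk_nonneg m y) (fun m => hk_bd m y) (summable_bd hs)

theorem green_tendsto (hs : Summable fun m => hk m (0 : Zd d)) :
    Tendsto (fun y : Zd d => ∑' n, hk n y) cofinite (nhds 0) := by
  have h1 : ∀ n : ℕ, Tendsto (fun y : Zd d => hk n y) cofinite (nhds 0) := by
    intro n
    refine tendsto_nhds_of_eventually_eq ?_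
    have h2 := hk_support (d := d) n
    have h3 : ∀ᶠ y : Zd d in cofinite, y ∉ Function.support (hk n : Zd d → ℝ) :=
      h2.eventually_cofinite_notMem
    filter_upwards [h3] with y hy
    exact Function.notMem_support.1 hy
  have h2 := tendsto_tsum_of_dominated_convergence (𝓕 := cofinite)
    (f := fun (y : Zd d) n => hk n y) (g := fun _ => (0 : ℝ)) (summable_bd hs) h1
    (Eventually.of_forall fun y n => by
      rw [Real.norm_of_nonneg (hk_nonneg n y)]
      exact hk_bd n y)
  simpa using h2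

end Pool.Agent.H39.LW
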