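import Pool.Agent.H39.LW.Trans
import Pool.Agent.H39.LW.HKDiff

/-!
# Module ASc: from vertices to edges

`aemeasurable_loopErase`: for transient paths `loopErase s` is the (pointwise, i.e. coordinatewise)
limit of `fun k => ((LE s n)[k]?).getD 0` (`isLoopErasure_loopErase`), which is a measurable function
of `ω` (it depends on `ω 0, …, ω (n-1)` only, `measurable_of_prefix`);
`aemeasurable_of_tendsto_metrizable_ae`, or coordinatewise with `aemeasurable_pi_iff`.

`tsum_edges`: with `p ε = lerwLaw d {γ | ε ∈ edges γ} = Pr d {ω | ε ∈ edges (loopErase (pos 0 ω))}`: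
if `InL (pos 0 ω) x` (and `pos 0 ω` is transient) then `x = loopErase _ k` for some `k` (`inL_iff`) and
the next vertex is a neighbour `x + sv e` (`loopErase_adj` with
`R u v := ∃ e : Step d, v = u + sv e`), so `hL x ≤ ∑ e, p s(x, x + sv e)`,
`hL x ^ 2 ≤ 2 d ∑ e, p s(x, x + sv e) ^ 2`, and for fixed `e` the map `x ↦ s(x, x + sv e)` is
injective, so `∑' x, hL x ^ 2 ≤ (2 d) * ∑ e, ∑' ε, p ε ^ 2 = (2 d)^2 ∑' ε, p ε ^ 2`.
-/

open MeasureTheory ProbabilityTheory Filter
open scoped ENNReal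

namespace Pool.Agent.H39.LW

variable {d : ℕ} [NeZero d]

theorem aemeasurable_loopErase (hs : Summable fun m => hk m (0 : Zd d)) :
    AEMeasurable (fun ω : Om d => loopErase (pos 0 ω)) (Pr d) := by
  refine aemeasurable_pi_iff.2 fun k => ?_
  refine aemeasurable_of_tendsto_metrizable_ae atTop
    (f := fun n (ω : Om d) => ((LE (pos 0 ω) n)[k]?).getD 0) (fun n => ?_) ?_
  · refine (measurable_of_prefix n fun ω ω' h => ?_).aemeasurable
    have h1 : LE (pos 0 ω) n = LE (pos 0 ω') n :=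
      LE_congr fun i hi => pos_congr 0 fun j hj => h j (by omega)
    rw [h1]
  · filter_upwards [ae_transient (fun y => summable_hk hs y) (0 : Zd d)] with ω hω
    refine tendsto_nhds_of_eventually_eq ?_
    filter_upwards [isLoopErasure_loopErase hω k] with n hn
    rw [hn]
    rfl

namespace EG

/-- a crude form of the inequality between arithmetic and quadratic means -/
lemma sq_sum_le {ι : Type*} (s : Finset ι) (f : ι → ℝ≥0∞) :
    (∑ i ∈ s, f i) ^ 2 ≤ (s.card : ℝ≥0∞) ^ 2 * ∑ i ∈ s, f i ^ 2 := by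
  rcases s.eq_empty_or_nonempty with rfl | hne
  · simp
  · obtain ⟨j, hj, hmax⟩ := s.exists_max_image f hne
    have h1 : ∑ i ∈ s, f i ≤ s.card * f j := by
      refine (Finset.sum_le_sum hmax).trans (le_of_eq ?_)
      rw [Finset.sum_const, nsmul_eq_mul]
    calc (∑ i ∈ s, f i) ^ 2 ≤ (s.card * f j) ^ 2 := pow_le_pow_left' h1 2
      _ = (s.card : ℝ≥0∞) ^ 2 * f j ^ 2 := mul_pow _ _ _
      _ ≤ _ := by
          gcongr
          exact Finset.single_le_sum (f := fun i => f i ^ 2) (fun _ _ => zero_le) hj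

lemma hL_le_sum (hs : Summable fun m => hk m (0 : Zd d)) (x : Zd d) :
    hL x ≤ ∑ e : Step d, lerwLaw d {γ | s(x, x + sv e) ∈ edges γ} := by
  have h1 : hL x ≤ Pr d (⋃ e : Step d, {ω | s(x, x + sv e) ∈ edges (loopErase (pos 0 ω))}) := by
    refine measure_mono_ae ?_
    filter_upwards [ae_transient (fun y => summable_hk hs y) (0 : Zd d)] with ω hω hx
    obtain ⟨k, hk⟩ := (inL_iff hω x).1 hx
    have hadj := loopErase_adj hω (R := fun u v => ∃ e : Step d, v = u + sv e)
      (fun n => ⟨ω n, pos_succ 0 ω n⟩) k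
    obtain ⟨e, he⟩ := hadj
    refine Set.mem_iUnion.2 ⟨e, k, ?_⟩
    rw [he, hk]
  refine h1.trans ((measure_iUnion_fintype_le _ _).trans ?_)
  refine Finset.sum_le_sum fun e _ => ?_
  exact Measure.le_map_apply (aemeasurable_loopErase hs) {γ | s(x, x + sv e) ∈ edges γ}

omit [NeZero d] in
lemma sv_ne_zero (e : Step d) : sv e ≠ 0 := by
  intro h
  have h1 := congrFun h e.1
  unfold sv at h1
  rw [Pi.single_eq_same, Pi.zero_apply] at h1
  split_ifs at h1 <;> omega

omit [NeZero d] in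
lemma edge_injective (e : Step d) : Function.Injective fun x : Zd d => s(x, x + sv e) := by
  intro x y hxy
  simp only [Sym2.eq_iff] at hxy
  rcases hxy with ⟨h, _⟩ | ⟨h1, h2⟩
  · exact h
  · exfalso
    rw [h1, add_assoc] at h2
    have h3 : sv e + sv e = 0 := by
      have := h2
      simpa using this
    have h4 := congrFun h3 e.1
    rw [Pi.add_apply, Pi.zero_apply] at h4
    unfold sv at h4
    rw [Pi.single_eq_same] at h4
    split_ifs at h4 <;> omega

end EG

open EG

theorem tsum_edges (hs : Summable fun m => hk m (0 : Zd d)) (h : ∑' x : Zd d, hL x ^ 2 = ⊤) :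
    ∑' ε : Sym2 (Zd d), (lerwLaw d {γ | ε ∈ edges γ}) ^ 2 = ⊤ := by
  by_contra hfin
  set p : Sym2 (Zd d) → ℝ≥0∞ := fun ε => lerwLaw d {γ | ε ∈ edges γ} with hp
  set N : ℝ≥0∞ := ((Finset.univ : Finset (Step d)).card : ℝ≥0∞) with hN
  have h1 : ∑' x : Zd d, hL x ^ 2 ≤ N ^ 2 * ∑ _e : Step d, ∑' ε, p ε ^ 2 := by
    calc ∑' x : Zd d, hL x ^ 2
        ≤ ∑' x : Zd d, N ^ 2 * ∑ e : Step d, p s(x, x + sv e) ^ 2 := by
          refine ENNReal.tsum_le_tsum fun x => ?_
          exact (pow_le_pow_left' (hL_le_sum hs x) 2).trans (sq_sum_le _ _)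
      _ = N ^ 2 * ∑ e : Step d, ∑' x : Zd d, p s(x, x + sv e) ^ 2 := by
          rw [ENNReal.tsum_mul_left]
          congr 1
          exact Summable.tsum_finsetSum fun e _ => ENNReal.summable
      _ ≤ N ^ 2 * ∑ _e : Step d, ∑' ε, p ε ^ 2 := by
          gcongr with e _
          exact ENNReal.tsum_comp_le_tsum_of_injective (edge_injective e) (fun ε => p ε ^ 2)
  rw [h, top_le_iff, Finset.sum_const] at h1
  refine ENNReal.mul_ne_top ?_ ?_ h1
  · exact ENNReal.pow_ne_top (ENNReal.natCast_ne_top _)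
  · rw [nsmul_eq_mul]
    exact ENNReal.mul_ne_top (ENNReal.natCast_ne_top _) hfin

end Pool.Agent.H39.LW
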