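import Pool.Agent.H39.LW.HK

/-!
# Module HU: upper bound for the heat kernel; transience for `d ≥ 3`

`hk_zero_le` : `hk m 0 ^ 2 ≤ d ^ d * m! / (m + d)!`.

Proof. (1) Let `q k` be the probability that one-dimensional simple random walk is at `0` at time
`k`: `q (2 j) = choose (2 j) j / 4 ^ j`, `q k = 0` for odd `k`; `q k ^ 2 ≤ 1 / (k + 1)`
(from `q (2j+2) = q (2j) (2j+1)/(2j+2)`, by induction on `j`).
(2) `hk m 0 = ∑_{k : Fin d → ℕ, ∑ k_i = m} m! / ∏ (k_i)! * d^{-m} * ∏ q (k_i)`: the coordinates of the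
walk move at disjoint sets of times. One convenient way: write `r k x` for the probability that
one-dimensional walk is at `x ∈ ℤ` at time `k` and show by induction on `m`
`d^m / m! * hk m z = ∑_{k : Fin d → ℕ, ∑ k_i = m} ∏ i, r (k_i) (z i) / (k_i)!`
(using `(k) * (1/k!) = 1/(k-1)!` and `m = ∑ k_i`: multiply the right side by `m = ∑ k_i` and use
`r k x = (r (k-1) (x-1) + r (k-1) (x+1)) / 2` for `k ≥ 1`), with `Finset.piAntidiag` or
`Finset.antidiagonalTuple`. Another way: count pairs of functions.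
(3) `S d m := ∑_{k : Fin d → ℕ, ∑ k_i = m} ∏ 1 / (k_i + 1)!  ≤ d ^ (m + d) / (m + d)!`: the numbers
`k_i + 1` have sum `m + d` and by the multinomial theorem
`∑_{k'} (m + d)! / ∏ (k'_i)! = d ^ (m + d)`; (or by induction on `d` from the binomial theorem).
(4) Jensen / Cauchy–Schwarz with the weights `m! d^{-m} / ∏ (k_i)!` (of total mass 1):
`hk m 0 ^ 2 ≤ ∑ weights * ∏ q (k_i) ^ 2 ≤ ∑ weights * ∏ 1 / (k_i + 1) = m! d^{-m} S d m`.

`summable_hk_zero` : `m! / (m + d)! ≤ (m + 1)^{-d}`, so `hk m 0 ≤ d^{d/2} (m+1)^{-d/2}`, summable for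
`d ≥ 3`.
-/

open MeasureTheory ProbabilityTheory Filter
open scoped ENNReal

namespace Pool.Agent.H39.LW

/-! ### one-dimensional simple random walk -/

/-- the heat kernel of one-dimensional simple random walk -/
noncomputable def r1 : ℕ → ℤ → ℝ
  | 0, x => if x = 0 then 1 else 0
  | k + 1, x => (r1 k (x - 1) + r1 k (x + 1)) / 2

lemma r1_nonneg (k : ℕ) (x : ℤ) : 0 ≤ r1 k x := by
  induction k generalizing x with
  | zero => unfold r1; split_ifs <;> norm_num
  | succ k ih => unfold r1; have := ih (x - 1); have := ih (x + 1); linarith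

lemma r1_lt (k : ℕ) (x : ℤ) (h : x < -(k : ℤ)) : r1 k x = 0 := by
  induction k generalizing x with
  | zero => unfold r1; rw [if_neg]; rintro rfl; simp at h
  | succ k ih =>
    unfold r1
    rw [ih (x - 1) (by push_cast at h; linarith), ih (x + 1) (by push_cast at h; linarith)]
    norm_num

lemma r1_odd (k : ℕ) (x : ℤ) (h : ¬ (2 : ℤ) ∣ (k : ℤ) + x) : r1 k x = 0 := by
  induction k generalizing x with
  | zero => unfold r1; rw [if_neg]; rintro rfl; simp at h
  | succ k ih =>
    unfold r1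
    rw [ih (x - 1) (by push_cast at h; omega), ih (x + 1) (by push_cast at h; omega)]
    norm_num

lemma r1_eq (k j : ℕ) : r1 k (2 * (j : ℤ) - k) = (k.choose j : ℝ) / 2 ^ k := by
  induction k generalizing j with
  | zero =>
    unfold r1
    rcases Nat.eq_zero_or_pos j with rfl | hj
    · simp
    · rw [if_neg (by push_cast; omega), Nat.choose_eq_zero_of_lt hj]; simp
  | succ k ih =>
    unfold r1
    rcases j with _ | j
    · have h1 : (2 * ((0 : ℕ) : ℤ) - ((k + 1 : ℕ) : ℤ) + 1) = 2 * ((0 : ℕ) : ℤ) - (k : ℤ) := by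
        push_cast; ring
      rw [h1, ih 0, r1_lt k _ (by push_cast; linarith)]
      simp [pow_succ]
      ring
    · have h1 : (2 * ((j + 1 : ℕ) : ℤ) - ((k + 1 : ℕ) : ℤ) + 1) = 2 * ((j + 1 : ℕ) : ℤ) - (k : ℤ) := by
        push_cast; ring
      have h2 : (2 * ((j + 1 : ℕ) : ℤ) - ((k + 1 : ℕ) : ℤ) - 1) = 2 * ((j : ℕ) : ℤ) - (k : ℤ) := by
        push_cast; ring
      rw [h1, h2, ih, ih, Nat.choose_succ_succ]
      push_cast
      rw [pow_succ]
      field_simp

lemma cb_bound (j : ℕ) : ((j.centralBinom : ℝ) / 4 ^ j) ^ 2 ≤ 1 / (2 * j + 1) := by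
  induction j with
  | zero => simp
  | succ j ih =>
    have h := Nat.succ_mul_centralBinom_succ j
    have h' : ((j : ℝ) + 1) * ((j + 1).centralBinom : ℝ) = 2 * (2 * j + 1) * (j.centralBinom : ℝ) := by
      exact_mod_cast h
    have hc : ((j + 1).centralBinom : ℝ) = 2 * (2 * j + 1) / (j + 1) * (j.centralBinom : ℝ) := by
      field_simp
      linarith
    have e1 : (((j + 1).centralBinom : ℝ) / 4 ^ (j + 1)) ^ 2
        = ((2 * j + 1) / (2 * j + 2)) ^ 2 * ((j.centralBinom : ℝ) / 4 ^ j) ^ 2 := by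
      rw [hc, pow_succ]
      field_simp
      ring
    rw [e1]
    calc ((2 * (j : ℝ) + 1) / (2 * j + 2)) ^ 2 * ((j.centralBinom : ℝ) / 4 ^ j) ^ 2
        ≤ ((2 * (j : ℝ) + 1) / (2 * j + 2)) ^ 2 * (1 / (2 * j + 1)) := by gcongr
      _ = (2 * (j : ℝ) + 1) / (2 * j + 2) ^ 2 := by field_simp
      _ ≤ 1 / (2 * ((j + 1 : ℕ) : ℝ) + 1) := by
        rw [div_le_div_iff₀ (by positivity) (by positivity)]
        push_cast
        nlinarith

lemma r1_zero_le (k : ℕ) : (r1 k 0) ^ 2 ≤ 1 / (k + 1) := by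
  rcases Nat.even_or_odd k with ⟨j, hj⟩ | ⟨j, hj⟩
  · subst hj
    have h := r1_eq (j + j) j
    have h0 : (2 * (j : ℤ) - ((j + j : ℕ) : ℤ)) = 0 := by push_cast; ring
    rw [h0] at h
    rw [h]
    have h1 : (((j + j).choose j : ℕ) : ℝ) = (j.centralBinom : ℝ) := by
      rw [Nat.centralBinom_eq_two_mul_choose, two_mul]
    rw [h1]
    have h2 : (2 : ℝ) ^ (j + j) = 4 ^ j := by
      rw [← two_mul, pow_mul]; norm_num
    rw [h2]
    have := cb_bound j
    push_cast
    calc _ ≤ _ := this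
      _ = _ := by ring
  · rw [r1_odd k 0 (by omega), zero_pow two_ne_zero]
    positivity

/-! ### exponential generating functions -/

/-- exponential generating function of `r1 · x` -/
noncomputable def Rx (x : ℤ) : PowerSeries ℝ := PowerSeries.mk fun k => r1 k x / k.factorial

lemma Rx_deriv (x : ℤ) :
    PowerSeries.derivative ℝ (Rx x) = (1 / 2 : ℝ) • (Rx (x - 1) + Rx (x + 1)) := by
  ext n
  rw [PowerSeries.coeff_derivative, map_smul, map_add]
  simp only [Rx, PowerSeries.coeff_mk, smul_eq_mul]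
  rw [Nat.factorial_succ]
  push_cast
  have h : r1 (n + 1) x = (r1 n (x - 1) + r1 n (x + 1)) / 2 := rfl
  rw [h]
  have := Nat.factorial_pos n
  field_simp

lemma deriv_prod {ι : Type*} [DecidableEq ι] (s : Finset ι) (f : ι → PowerSeries ℝ) :
    PowerSeries.derivative ℝ (∏ i ∈ s, f i)
      = ∑ i ∈ s, (∏ j ∈ s.erase i, f j) * PowerSeries.derivative ℝ (f i) := by
  induction s using Finset.induction_on with
  | empty => simp
  | insert a s ha ih =>
    rw [Finset.prod_insert ha, Derivation.leibniz, ih, Finset.sum_insert ha,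
      Finset.erase_insert ha, smul_eq_mul, smul_eq_mul, Finset.mul_sum, add_comm]
    congr 1
    refine Finset.sum_congr rfl fun i hi => ?_
    have hia : i ≠ a := fun h => ha (h ▸ hi)
    rw [Finset.erase_insert_of_ne hia.symm, Finset.prod_insert (by simp [ha]), mul_assoc]

variable {d : ℕ}

/-- the product of the generating functions -/
noncomputable def Pz (z : Zd d) : PowerSeries ℝ := ∏ i, Rx (z i)

lemma Pz_deriv (z : Zd d) :
    PowerSeries.derivative ℝ (Pz z) = (1 / 2 : ℝ) • ∑ e : Step d, Pz (z - sv e) := by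
  unfold Pz
  rw [deriv_prod, Fintype.sum_prod_type, Finset.smul_sum]
  refine Finset.sum_congr rfl fun i _ => ?_
  rw [Rx_deriv, Fintype.sum_bool]
  have key : ∀ b : Bool, ∏ j, Rx ((z - sv (i, b)) j)
      = (∏ j ∈ Finset.univ.erase i, Rx (z j)) * Rx (z i - (if b then 1 else -1)) := by
    intro b
    rw [← Finset.prod_erase_mul _ _ (Finset.mem_univ i)]
    congr 1
    · refine Finset.prod_congr rfl fun j hj => ?_
      have hj' : j ≠ i := Finset.ne_of_mem_erase hj
      simp [sv, Pi.single_eq_of_ne hj']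
    · simp [sv]
  rw [key, key]
  simp only [if_true, Bool.false_eq_true, if_false, sub_neg_eq_add]
  rw [mul_smul_comm, mul_add]

variable [NeZero d]

lemma coeff_Pz (m : ℕ) (z : Zd d) :
    PowerSeries.coeff m (Pz z) = (d : ℝ) ^ m / m.factorial * hk m z := by
  induction m generalizing z with
  | zero =>
    unfold Pz
    rw [PowerSeries.coeff_zero_eq_constantCoeff, map_prod]
    simp only [Rx, ← PowerSeries.coeff_zero_eq_constantCoeff_apply, PowerSeries.coeff_mk]
    unfold r1 hk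
    simp only [Nat.factorial_zero, Nat.cast_one, div_one, pow_zero, one_mul]
    by_cases hz : z = 0
    · subst hz; simp
    · rw [if_neg hz]
      obtain ⟨i, hi⟩ : ∃ i, z i ≠ 0 := by
        by_contra hcon
        push Not at hcon
        exact hz (funext hcon)
      exact Finset.prod_eq_zero (Finset.mem_univ i) (by rw [if_neg hi])
  | succ m ih =>
    have h := PowerSeries.coeff_derivative (Pz z) m
    rw [Pz_deriv, map_smul, map_sum] at h
    simp only [ih] at h
    rw [← Finset.mul_sum] at h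
    have hhk : hk (m + 1) z = (∑ e : Step d, hk m (z - sv e)) / (2 * d) := rfl
    have hd : (d : ℝ) ≠ 0 := Nat.cast_ne_zero.mpr (NeZero.ne d)
    have hsum : ∑ e : Step d, hk m (z - sv e) = 2 * d * hk (m + 1) z := by
      rw [hhk]; field_simp
    rw [hsum, smul_eq_mul] at h
    have hm : ((m : ℝ) + 1) ≠ 0 := by positivity
    have hf : (m.factorial : ℝ) ≠ 0 := Nat.cast_ne_zero.mpr (Nat.factorial_ne_zero m)
    apply mul_right_cancel₀ hm
    rw [← h, Nat.factorial_succ, pow_succ]
    push_cast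
    field_simp

lemma coeff_exp_pow (d m : ℕ) :
    PowerSeries.coeff m (PowerSeries.exp ℝ ^ d) = (d : ℝ) ^ m / m.factorial := by
  rw [PowerSeries.exp_pow_eq_rescale_exp, PowerSeries.coeff_rescale, PowerSeries.coeff_exp]
  simp [div_eq_mul_inv]

/-- the series `∑ X^k / (k+1)!` -/
noncomputable def Es : PowerSeries ℝ := PowerSeries.mk fun k => 1 / ((k + 1).factorial : ℝ)

lemma coeff_prod_const {ι : Type*} [DecidableEq ι] (s : Finset ι) (f : PowerSeries ℝ) (m : ℕ) :
    PowerSeries.coeff m (f ^ s.card) = ∑ l ∈ s.finsuppAntidiag m, ∏ i ∈ s, PowerSeries.coeff (l i) f := by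
  rw [← Finset.prod_const, PowerSeries.coeff_prod]

lemma coeff_Es_pow (d m : ℕ) :
    PowerSeries.coeff m (Es ^ d) ≤ (d : ℝ) ^ (m + d) / (m + d).factorial := by
  have h1 : PowerSeries.coeff m (Es ^ d) = PowerSeries.coeff (m + d) ((PowerSeries.X * Es) ^ d) := by
    rw [mul_pow, PowerSeries.coeff_X_pow_mul]
  rw [h1, ← coeff_exp_pow]
  have hd : d = (Finset.univ : Finset (Fin d)).card := by simp
  have e1 := coeff_prod_const (Finset.univ : Finset (Fin d)) (PowerSeries.X * Es) (m + d)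
  have e2 := coeff_prod_const (Finset.univ : Finset (Fin d)) (PowerSeries.exp ℝ) (m + d)
  rw [← hd] at e1 e2
  rw [e1, e2]
  have hE : ∀ k, PowerSeries.coeff k (PowerSeries.X * Es)
      = if k = 0 then (0 : ℝ) else 1 / (k.factorial : ℝ) := by
    intro k
    rcases k with _ | k
    · simp
    · rw [mul_comm, PowerSeries.coeff_succ_mul_X]
      simp [Es]
  refine Finset.sum_le_sum fun l _ => Finset.prod_le_prod (fun i _ => ?_) (fun i _ => ?_)
  · rw [hE]; split_ifs <;> positivity
  · rw [hE, PowerSeries.coeff_exp]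
    split_ifs with h
    · rw [h]; simp
    · simp

theorem hk_zero_le (m : ℕ) :
    (hk m (0 : Zd d)) ^ 2 ≤ (d : ℝ) ^ d * (m.factorial : ℝ) / ((m + d).factorial : ℝ) := by
  have h0 := coeff_Pz m (0 : Zd d)
  have hP : PowerSeries.coeff m (Pz (0 : Zd d))
      = ∑ l ∈ (Finset.univ : Finset (Fin d)).finsuppAntidiag m, ∏ i, (r1 (l i) 0 / (l i).factorial) := by
    unfold Pz
    rw [PowerSeries.coeff_prod]
    simp [Rx]
  have hcs := Finset.sum_sq_le_sum_mul_sum_of_sq_le_mul
    ((Finset.univ : Finset (Fin d)).finsuppAntidiag m)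
    (r := fun l => ∏ i, (r1 (l i) 0 / (l i).factorial))
    (f := fun l => ∏ i, (1 / ((l i).factorial : ℝ)))
    (g := fun l => ∏ i, ((r1 (l i) 0) ^ 2 / ((l i).factorial : ℝ)))
    (fun l _ => Finset.prod_nonneg fun i _ => by positivity)
    (fun l _ => Finset.prod_nonneg fun i _ => by positivity)
    (fun l _ => le_of_eq <| by
      rw [← Finset.prod_pow, ← Finset.prod_mul_distrib]
      refine Finset.prod_congr rfl fun i _ => ?_
      have hf : ((l i).factorial : ℝ) ≠ 0 := Nat.cast_ne_zero.mpr (Nat.factorial_ne_zero _)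
      field_simp)
  have hcard : (Finset.univ : Finset (Fin d)).card = d := by simp
  have hF : ∑ l ∈ (Finset.univ : Finset (Fin d)).finsuppAntidiag m, ∏ i, (1 / ((l i).factorial : ℝ))
      = (d : ℝ) ^ m / m.factorial := by
    rw [← coeff_exp_pow]
    have e2 := coeff_prod_const (Finset.univ : Finset (Fin d)) (PowerSeries.exp ℝ) m
    rw [hcard] at e2
    rw [e2]
    simp [PowerSeries.coeff_exp]
  have hG : ∑ l ∈ (Finset.univ : Finset (Fin d)).finsuppAntidiag m,
      ∏ i, ((r1 (l i) 0) ^ 2 / ((l i).factorial : ℝ)) ≤ (d : ℝ) ^ (m + d) / (m + d).factorial := by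
    refine le_trans ?_ (coeff_Es_pow d m)
    have e2 := coeff_prod_const (Finset.univ : Finset (Fin d)) Es m
    rw [hcard] at e2
    rw [e2]
    refine Finset.sum_le_sum fun l _ => Finset.prod_le_prod (fun i _ => by positivity) (fun i _ => ?_)
    have hb := r1_zero_le (l i)
    simp only [Es, PowerSeries.coeff_mk]
    rw [Nat.factorial_succ]
    push_cast
    calc (r1 (l i) 0) ^ 2 / ((l i).factorial : ℝ) ≤ (1 / ((l i : ℝ) + 1)) / ((l i).factorial : ℝ) := by
          gcongr
      _ = _ := by field_simp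
  rw [← hP, h0, hF] at hcs
  have hcs2 : ((d : ℝ) ^ m / m.factorial * hk m (0 : Zd d)) ^ 2
      ≤ (d : ℝ) ^ m / m.factorial * ((d : ℝ) ^ (m + d) / (m + d).factorial) :=
    hcs.trans (mul_le_mul_of_nonneg_left hG (by positivity))
  have hd : (0 : ℝ) < d := Nat.cast_pos.mpr (Nat.pos_of_ne_zero (NeZero.ne d))
  have hf : (0 : ℝ) < m.factorial := Nat.cast_pos.mpr (Nat.factorial_pos m)
  have hf2 : (0 : ℝ) < (m + d).factorial := Nat.cast_pos.mpr (Nat.factorial_pos _)
  have hA : (0 : ℝ) < (d : ℝ) ^ m / m.factorial := by positivity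
  have h3 : (d : ℝ) ^ m / m.factorial * (hk m (0 : Zd d)) ^ 2 ≤ (d : ℝ) ^ (m + d) / (m + d).factorial := by
    have : (d : ℝ) ^ m / m.factorial * ((d : ℝ) ^ m / m.factorial * (hk m (0 : Zd d)) ^ 2)
        ≤ (d : ℝ) ^ m / m.factorial * ((d : ℝ) ^ (m + d) / (m + d).factorial) := by
      calc _ = ((d : ℝ) ^ m / m.factorial * hk m (0 : Zd d)) ^ 2 := by ring
        _ ≤ _ := hcs2
    exact le_of_mul_le_mul_left this hA
  have h4 : (hk m (0 : Zd d)) ^ 2 = (m.factorial / (d : ℝ) ^ m) *
      ((d : ℝ) ^ m / m.factorial * (hk m (0 : Zd d)) ^ 2) := by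
    field_simp
  rw [h4]
  calc _ ≤ (m.factorial / (d : ℝ) ^ m) * ((d : ℝ) ^ (m + d) / (m + d).factorial) := by gcongr
    _ = _ := by rw [pow_add]; field_simp

theorem summable_hk_zero (hd : 3 ≤ d) : Summable fun m => hk m (0 : Zd d) := by
  have hbound : ∀ m : ℕ, hk m (0 : Zd d) ≤ Real.sqrt ((d : ℝ) ^ d) * (1 / ((m : ℝ) + 1) ^ (3 / 2 : ℝ)) := by
    intro m
    have h1 := hk_zero_le (d := d) m
    have h2 : ((m + d).factorial : ℝ) ≥ (m.factorial : ℝ) * ((m : ℝ) + 1) ^ 3 := by
      have ha := Nat.factorial_mul_ascFactorial m d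
      have hb := Nat.pow_succ_le_ascFactorial (m + 1) d
      have hc : (m + 1) ^ 3 ≤ (m + 1) ^ d := Nat.pow_le_pow_right (by omega) hd
      have : m.factorial * (m + 1) ^ 3 ≤ (m + d).factorial := by
        rw [← ha]
        exact Nat.mul_le_mul_left _ (hc.trans hb)
      exact_mod_cast this
    have hf : (0 : ℝ) < m.factorial := Nat.cast_pos.mpr (Nat.factorial_pos m)
    have h3 : (hk m (0 : Zd d)) ^ 2 ≤ (d : ℝ) ^ d * (1 / ((m : ℝ) + 1) ^ 3) := by
      refine h1.trans ?_
      calc (d : ℝ) ^ d * (m.factorial : ℝ) / ((m + d).factorial : ℝ)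
          ≤ (d : ℝ) ^ d * (m.factorial : ℝ) / ((m.factorial : ℝ) * ((m : ℝ) + 1) ^ 3) := by
            gcongr
        _ = _ := by field_simp
    have h4 : hk m (0 : Zd d) ≤ Real.sqrt ((d : ℝ) ^ d * (1 / ((m : ℝ) + 1) ^ 3)) :=
      Real.le_sqrt_of_sq_le h3
    refine h4.trans (le_of_eq ?_)
    rw [Real.sqrt_mul (by positivity)]
    congr 1
    rw [Real.sqrt_eq_rpow, Real.div_rpow (by norm_num) (by positivity), Real.one_rpow,
      ← Real.rpow_natCast, ← Real.rpow_mul (by positivity)]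
    norm_num
  refine Summable.of_nonneg_of_le (fun m => hk_nonneg m 0) hbound ?_
  refine Summable.mul_left _ ?_
  have hs : Summable fun n : ℕ => 1 / (n : ℝ) ^ (3 / 2 : ℝ) :=
    Real.summable_one_div_nat_rpow.mpr (by norm_num)
  have := (summable_nat_add_iff 1).mpr hs
  simpa using this

end Pool.Agent.H39.LW
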