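import Pool.Agent.H39.LW.Basic

/-!
# Module ASd: exponential intersection tails and the expected number of common edges

`measurableSet_edge`: `{γ | ε ∈ edges γ}` is a countable union of sets depending on two coordinates.

`lintegral_encard`: `encard (edges γ ∩ edges γ') = ∑' ε, 1{ε ∈ edges γ} * 1{ε ∈ edges γ'}`,
`lintegral_tsum` and `lintegral_prod`/`Measure.prod_prod` for the rectangles
`{γ | ε ∈ edges γ} ×ˢ {γ' | ε ∈ edges γ'}` (`Sym2 U` is countable).

`not_eit_of`: suppose `HasEIT μ` with `θ`. For a finite set `F` of edges let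
`N_F = card (F ∩ edges γ ∩ edges γ')`. Then
`∑_{ε ∈ F} p ε ^ 2 = E N_F = ∑_{n < |F|} Pr (n < N_F) ≤ ∑' n, θ ^ n = 1 / (1 - θ)`
(pointwise `N_F = ∑_{n < |F|} 1{n < N_F}`), so `∑' ε, p ε ^ 2 ≤ 1 / (1 - θ) < ∞`.
(Alternatively use `lintegral_encard` and the same identity for the `encard`.)
-/

open MeasureTheory ProbabilityTheory Filter
open scoped ENNReal

namespace Pool.Agent.H39.LW

variable {U : Type*} [Countable U] [MeasurableSpace U] [MeasurableSingletonClass U]

omit [Countable U] [MeasurableSpace U] [MeasurableSingletonClass U] in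
lemma edges_eq (ε : Sym2 U) :
    {γ : ℕ → U | ε ∈ edges γ} = ⋃ k : ℕ, (fun γ : ℕ → U => (γ k, γ (k + 1))) ⁻¹'
      {q : U × U | ε = s(q.1, q.2)} := by
  ext γ
  simp [edges]

theorem measurableSet_edge (ε : Sym2 U) : MeasurableSet {γ : ℕ → U | ε ∈ edges γ} := by
  rw [edges_eq]
  refine MeasurableSet.iUnion fun k => ?_
  have h : Measurable fun γ : ℕ → U => (γ k, γ (k + 1)) :=
    (measurable_pi_apply k).prodMk (measurable_pi_apply (k + 1))
  exact h (Set.to_countable _).measurableSet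

omit [Countable U] [MeasurableSpace U] [MeasurableSingletonClass U] in
lemma encard_eq_tsum (γ γ' : ℕ → U) :
    ((edges γ ∩ edges γ').encard : ℝ≥0∞)
      = ∑' ε : Sym2 U, ({γ : ℕ → U | ε ∈ edges γ} ×ˢ {γ : ℕ → U | ε ∈ edges γ}).indicator
          (fun _ => (1 : ℝ≥0∞)) (γ, γ') := by
  rw [← ENNReal.tsum_set_one, tsum_subtype (edges γ ∩ edges γ') fun _ => (1 : ℝ≥0∞)]
  refine tsum_congr fun ε => ?_
  by_cases h : ε ∈ edges γ ∩ edges γ'
  · rw [Set.indicator_of_mem h, Set.indicator_of_mem]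
    exact h
  · rw [Set.indicator_of_notMem h, Set.indicator_of_notMem]
    exact h

lemma measurable_edge_indicator (ε : Sym2 U) :
    Measurable (({γ : ℕ → U | ε ∈ edges γ} ×ˢ {γ : ℕ → U | ε ∈ edges γ}).indicator
          (fun _ => (1 : ℝ≥0∞))) :=
  measurable_const.indicator ((measurableSet_edge ε).prod (measurableSet_edge ε))

/-- the expected number of common edges of two independent paths -/
theorem lintegral_encard (μ : Measure (ℕ → U)) [IsProbabilityMeasure μ] :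
    ∫⁻ p, ((edges p.1 ∩ edges p.2).encard : ℝ≥0∞) ∂(μ.prod μ)
      = ∑' ε : Sym2 U, (μ {γ | ε ∈ edges γ}) ^ 2 := by
  have h1 : ∀ p : (ℕ → U) × (ℕ → U), ((edges p.1 ∩ edges p.2).encard : ℝ≥0∞)
      = ∑' ε : Sym2 U, ({γ : ℕ → U | ε ∈ edges γ} ×ˢ {γ : ℕ → U | ε ∈ edges γ}).indicator
          (fun _ => (1 : ℝ≥0∞)) p := fun p => encard_eq_tsum p.1 p.2
  simp only [h1]
  rw [lintegral_tsum fun ε => (measurable_edge_indicator ε).aemeasurable]
  refine tsum_congr fun ε => ?_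
  rw [lintegral_indicator ((measurableSet_edge ε).prod (measurableSet_edge ε)),
    setLIntegral_const, one_mul, Measure.prod_prod, sq]

lemma enat_le_tsum (e : ℕ∞) :
    (e : ℝ≥0∞) ≤ ∑' n : ℕ, {n : ℕ | (n : ℕ∞) < e}.indicator (fun _ => (1 : ℝ≥0∞)) n := by
  rw [← tsum_subtype {n : ℕ | (n : ℕ∞) < e} fun _ => (1 : ℝ≥0∞), ENNReal.tsum_set_one]
  refine ENat.toENNReal_le.2 ?_
  induction e using ENat.recTopCoe with
  | top =>
    have : {n : ℕ | (n : ℕ∞) < ⊤} = Set.univ := by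
      ext n
      simp
    rw [this, Set.encard_univ, ENat.card_eq_top_of_infinite]
  | coe m =>
    have : {n : ℕ | (n : ℕ∞) < (m : ℕ∞)} = ((Finset.range m : Finset ℕ) : Set ℕ) := by
      ext n
      simp
    rw [this, Set.encard_coe_eq_coe_finsetCard, Finset.card_range]

theorem not_eit_of (μ : Measure (ℕ → U)) [IsProbabilityMeasure μ]
    (h : ∑' ε : Sym2 U, (μ {γ | ε ∈ edges γ}) ^ 2 = ⊤) : ¬ HasEIT μ := by
  rintro ⟨θ, h0, h1, hθ⟩
  have hm : Measurable fun p : (ℕ → U) × (ℕ → U) =>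
      ((edges p.1 ∩ edges p.2).encard : ℝ≥0∞) := by
    have h2 : (fun p : (ℕ → U) × (ℕ → U) => ((edges p.1 ∩ edges p.2).encard : ℝ≥0∞))
        = fun p => ∑' ε : Sym2 U, ({γ : ℕ → U | ε ∈ edges γ} ×ˢ
          {γ : ℕ → U | ε ∈ edges γ}).indicator (fun _ => (1 : ℝ≥0∞)) p := by
      funext p
      exact encard_eq_tsum p.1 p.2
    rw [h2]
    exact Measurable.ennreal_tsum fun ε => measurable_edge_indicator ε
  have hms : ∀ n : ℕ, MeasurableSet {p : (ℕ → U) × (ℕ → U) |
      (n : ℕ∞) < (edges p.1 ∩ edges p.2).encard} := by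
    intro n
    have h2 : {p : (ℕ → U) × (ℕ → U) | (n : ℕ∞) < (edges p.1 ∩ edges p.2).encard}
        = {p | ((n : ℕ∞) : ℝ≥0∞) < ((edges p.1 ∩ edges p.2).encard : ℝ≥0∞)} := by
      ext p
      exact ENat.toENNReal_lt.symm
    rw [h2]
    exact measurableSet_lt measurable_const hm
  have h3 : ∫⁻ p, ((edges p.1 ∩ edges p.2).encard : ℝ≥0∞) ∂(μ.prod μ)
      ≤ ∑' n : ℕ, ENNReal.ofReal θ ^ n := by
    calc ∫⁻ p, ((edges p.1 ∩ edges p.2).encard : ℝ≥0∞) ∂(μ.prod μ)
        ≤ ∫⁻ p, ∑' n : ℕ, {p : (ℕ → U) × (ℕ → U) |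
            (n : ℕ∞) < (edges p.1 ∩ edges p.2).encard}.indicator (fun _ => (1 : ℝ≥0∞)) p
            ∂(μ.prod μ) := by
          refine lintegral_mono fun p => ?_
          exact enat_le_tsum _
      _ = ∑' n : ℕ, (μ.prod μ) {p : (ℕ → U) × (ℕ → U) |
            (n : ℕ∞) < (edges p.1 ∩ edges p.2).encard} := by
          rw [lintegral_tsum fun n => (measurable_const.indicator (hms n)).aemeasurable]
          refine tsum_congr fun n => ?_
          rw [lintegral_indicator (hms n), setLIntegral_const, one_mul]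
      _ ≤ ∑' n : ℕ, ENNReal.ofReal θ ^ n := by
          refine ENNReal.tsum_le_tsum fun n => ?_
          rw [← ENNReal.ofReal_pow h0.le]
          exact (hθ n).le
  rw [lintegral_encard, h, ENNReal.tsum_geometric, top_le_iff, ENNReal.inv_eq_top,
    tsub_eq_zero_iff_le, ENNReal.one_le_ofReal] at h3
  linarith

end Pool.Agent.H39.LW
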