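import Pool.Agent.H39.LW.SumSq
import Pool.Agent.H39.LW.HKUpper
import Pool.Agent.H39.LW.Edges
import Pool.Agent.H39.LW.NotEIT

/-!
# Loop-erased random walk in dimensions 3 and 4 has no exponential intersection tails
-/

open MeasureTheory ProbabilityTheory Filter
open scoped ENNReal

namespace Pool.Agent.H39.LW

theorem main {d : ℕ} [NeZero d] (hd3 : 3 ≤ d) (hd4 : d ≤ 4) : ¬ HasEIT (lerwLaw d) ∧
    ∫⁻ p, ((edges p.1 ∩ edges p.2).encard : ℝ≥0∞) ∂((lerwLaw d).prod (lerwLaw d)) = ⊤ := by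
  have hs : Summable fun m => hk m (0 : Zd d) := summable_hk_zero hd3
  have h := tsum_edges hs (tsum_hL_sq hs (un_tendsto hd4))
  haveI : IsProbabilityMeasure (lerwLaw d) :=
    Measure.isProbabilityMeasure_map (aemeasurable_loopErase hs)
  exact ⟨not_eit_of _ h, by rw [lintegral_encard]; exact h⟩

end Pool.Agent.H39.LW
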