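import Pool.Agent.H39.LW.HK

/-!
# Module HL: lower bound for the heat kernel; divergence for `d ≤ 4`

`second_moment` : `∑_z |z|² hk m z = m` (induction on `m`; `|z + sv e|² = |z|² ± 2 z_i + 1`, the linear
terms cancel when summed over the two signs).
`hk_lower` : with `F` the set of `z` with `|z|² ≤ 2 m` one has `∑_{z ∈ F} hk m z ≥ 1/2` (Markov),
`F` is contained in the box of the `z` with `|z i| ≤ r`, `r = ⌊√(2m)⌋ = Nat.sqrt (2 m)`, which has
`(2 r + 1)^d` points, so by Cauchy–Schwarz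
`hk (2m) 0 = ∑ hk m z ^ 2 ≥ (1/4) / (2 r + 1)^d`.
`un_diverges` : `un n 0 = ∑_{k,l ≤ n} hk (k+l) 0 ≥ ∑_{m ≤ n, m even} (m + 1) hk m 0`, and for `d ≤ 4`,
`(2 m + 1) hk (2 m) 0 ≥ (2 m + 1) / (4 (2 √(2m) + 1)^4) ≥ c / (m + 1)`; harmonic series.
-/

open MeasureTheory ProbabilityTheory Filter
open scoped ENNReal

namespace Pool.Agent.H39.LW

variable {d : ℕ}

/-- expected number of pairs of times up to `n` at which independent walks started at
distance `y` meet -/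
noncomputable def un (n : ℕ) (y : Zd d) : ℝ :=
  ∑ k ∈ Finset.range (n + 1), ∑ l ∈ Finset.range (n + 1), hk (k + l) y

variable [NeZero d]

omit [NeZero d] in
lemma sum_sq_add_sv (z : Zd d) :
    ∑ e : Step d, ∑ i, (((z + sv e) i : ℤ) : ℝ) ^ 2 = 2 * d * (∑ i, (z i : ℝ) ^ 2) + 2 * d := by
  have h1 : ∀ e : Step d, ∑ i, (((z + sv e) i : ℤ) : ℝ) ^ 2 =
      ∑ i, (z i : ℝ) ^ 2 + (2 * (z e.1 : ℝ) * (if e.2 then 1 else -1) + 1) := by
    intro e
    have h2 : ∀ i, (((z + sv e) i : ℤ) : ℝ) ^ 2 = (z i : ℝ) ^ 2 +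
        if i = e.1 then (2 * (z e.1 : ℝ) * (if e.2 then 1 else -1) + 1) else 0 := by
      intro i
      by_cases hi : i = e.1
      · subst hi
        simp only [sv, Pi.add_apply, Pi.single_eq_same, if_true]
        split_ifs <;> push_cast <;> ring
      · simp [sv, hi]
    simp only [h2]
    rw [Finset.sum_add_distrib]
    simp
  simp only [h1]
  rw [Fintype.sum_prod_type]
  simp only [Fintype.sum_bool, if_true, Bool.false_eq_true, if_false]
  have h3 : ∀ x : Fin d, ∑ i, (z i : ℝ) ^ 2 + (2 * (z x : ℝ) * 1 + 1) +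
      (∑ i, (z i : ℝ) ^ 2 + (2 * (z x : ℝ) * -1 + 1)) = 2 * (∑ i, (z i : ℝ) ^ 2) + 2 := by
    intro x; ring
  simp only [h3]
  rw [Finset.sum_const, Finset.card_univ, Fintype.card_fin, nsmul_eq_mul]
  ring

theorem hk_second_moment (m : ℕ) : ∑' z : Zd d, hk m z * (∑ i, (z i : ℝ) ^ 2) = m := by
  have hd : (0 : ℝ) < d := by exact_mod_cast Nat.pos_of_ne_zero (NeZero.ne d)
  induction m with
  | zero =>
    rw [tsum_eq_single (0 : Zd d)]
    · simp
    · intro z hz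
      simp [hk, hz]
  | succ m ih =>
    rw [tsum_hk_succ m, ← Summable.tsum_finsetSum fun e _ => summable_hk_mul' m _]
    simp only [← Finset.mul_sum, sum_sq_add_sv]
    have h1 : ∀ z : Zd d, hk m z * (2 * d * (∑ i, (z i : ℝ) ^ 2) + 2 * d) =
        (2 * d) * (hk m z * (∑ i, (z i : ℝ) ^ 2)) + (2 * d) * (hk m z * 1) := by
      intro z; ring
    simp only [h1]
    rw [Summable.tsum_add ((summable_hk_mul' m _).mul_left _) ((summable_hk_mul' m _).mul_left _),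
      tsum_mul_left, tsum_mul_left, ih]
    simp only [mul_one]
    rw [hk_sum]
    push_cast
    field_simp

theorem hk_lower (m : ℕ) :
    1 / (4 * (2 * (Nat.sqrt (2 * m) : ℝ) + 1) ^ d) ≤ hk (m + m) (0 : Zd d) := by
  classical
  set r : ℕ := Nat.sqrt (2 * m) with hr
  set B : Finset (Zd d) := Finset.Icc (fun _ => -(r : ℤ)) (fun _ => (r : ℤ)) with hB
  have hcard : (B.card : ℝ) = (2 * (r : ℝ) + 1) ^ d := by
    rw [hB, Pi.card_Icc]
    simp only [Int.card_Icc, Finset.prod_const, Finset.card_univ, Fintype.card_fin]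
    have h1 : ((r : ℤ) + 1 - -(r : ℤ)).toNat = 2 * r + 1 := by omega
    rw [h1]
    push_cast
    ring
  set S : Finset (Zd d) := (hk_support (d := d) m).toFinset ∪ B with hS
  have hBS : B ⊆ S := Finset.subset_union_right
  have k1 : ∀ y ∉ S, hk m y = 0 := by
    intro y hy
    by_contra hne
    exact hy (Finset.mem_union_left _ ((Set.Finite.mem_toFinset _).2 hne))
  have e1 : ∑ z ∈ S, hk m z = 1 := by
    rw [← hk_sum (d := d) m, tsum_eq_sum fun y hy => k1 y hy]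
  have e2 : ∑ z ∈ S, hk m z * (∑ i, (z i : ℝ) ^ 2) = m := by
    rw [← hk_second_moment (d := d) m, tsum_eq_sum fun y hy => by rw [k1 y hy, zero_mul]]
  have e3 : ∑ z ∈ S, hk m z ^ 2 = hk (m + m) (0 : Zd d) := by
    rw [hk_two_mul, tsum_eq_sum fun y hy => by rw [k1 y hy]; norm_num]
  have hout : ∀ z ∈ S \ B, (2 * (m : ℝ) + 1) * hk m z ≤ hk m z * (∑ i, (z i : ℝ) ^ 2) := by
    intro z hz
    have hzB : z ∉ B := (Finset.mem_sdiff.1 hz).2
    have h1 : ∃ i, (r : ℤ) + 1 ≤ |z i| := by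
      by_contra hcon
      push Not at hcon
      refine hzB ?_
      rw [hB, Finset.mem_Icc]
      constructor <;> intro i <;> have h2 := hcon i <;> rw [Int.lt_add_one_iff, abs_le] at h2
      · exact h2.1
      · exact h2.2
    obtain ⟨i, hi⟩ := h1
    have h2 : 2 * m + 1 ≤ (r + 1) * (r + 1) := Nat.succ_le_of_lt (Nat.sqrt_lt'.1 (by
      have := Nat.lt_succ_self (Nat.sqrt (2 * m))
      exact this) |>.trans_eq (sq _))
    have h3 : (2 * (m : ℝ) + 1) ≤ ∑ i, (z i : ℝ) ^ 2 := by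
      calc (2 * (m : ℝ) + 1) ≤ ((r : ℝ) + 1) * ((r : ℝ) + 1) := by exact_mod_cast h2
        _ ≤ |(z i : ℝ)| * |(z i : ℝ)| := by
            have h4 : (r : ℝ) + 1 ≤ |(z i : ℝ)| := by exact_mod_cast hi
            exact mul_self_le_mul_self (by positivity) h4
        _ = (z i : ℝ) ^ 2 := by rw [abs_mul_abs_self, sq]
        _ ≤ ∑ i, (z i : ℝ) ^ 2 :=
          Finset.single_le_sum (f := fun i => (z i : ℝ) ^ 2) (fun j _ => sq_nonneg _)
            (Finset.mem_univ i)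
    rw [mul_comm]
    exact mul_le_mul_of_nonneg_left h3 (hk_nonneg _ _)
  have e4 : (2 * (m : ℝ) + 1) * ∑ z ∈ S \ B, hk m z ≤ m := by
    rw [Finset.mul_sum]
    calc ∑ z ∈ S \ B, (2 * (m : ℝ) + 1) * hk m z ≤ ∑ z ∈ S \ B, hk m z * (∑ i, (z i : ℝ) ^ 2) :=
          Finset.sum_le_sum hout
      _ ≤ ∑ z ∈ S, hk m z * (∑ i, (z i : ℝ) ^ 2) :=
          Finset.sum_le_sum_of_subset_of_nonneg Finset.sdiff_subset fun z _ _ =>
            mul_nonneg (hk_nonneg _ _) (Finset.sum_nonneg fun i _ => sq_nonneg _)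
      _ = m := e2
  have e5 : ∑ z ∈ S \ B, hk m z ≤ 1 / 2 := by
    have h0 : 0 ≤ ∑ z ∈ S \ B, hk m z := Finset.sum_nonneg fun z _ => hk_nonneg _ _
    have hm : (0 : ℝ) ≤ m := Nat.cast_nonneg m
    by_contra hcon
    push Not at hcon
    nlinarith
  have e6 : 1 / 2 ≤ ∑ z ∈ B, hk m z := by
    have h1 := Finset.sum_sdiff (f := fun z => hk m z) hBS
    linarith
  have e7 : (1 / 2 : ℝ) ^ 2 ≤ (2 * (r : ℝ) + 1) ^ d * hk (m + m) (0 : Zd d) := by
    calc (1 / 2 : ℝ) ^ 2 ≤ (∑ z ∈ B, hk m z) ^ 2 := pow_le_pow_left₀ (by norm_num) e6 2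
      _ ≤ B.card * ∑ z ∈ B, hk m z ^ 2 := sq_sum_le_card_mul_sum_sq
      _ ≤ B.card * ∑ z ∈ S, hk m z ^ 2 :=
          mul_le_mul_of_nonneg_left (Finset.sum_le_sum_of_subset_of_nonneg hBS
            fun z _ _ => sq_nonneg _) (Nat.cast_nonneg _)
      _ = (2 * (r : ℝ) + 1) ^ d * hk (m + m) (0 : Zd d) := by rw [hcard, e3]
  have hpos : (0 : ℝ) < (2 * (r : ℝ) + 1) ^ d := by positivity
  rw [div_le_iff₀ (by positivity)]
  nlinarith

theorem hk_lower' (hd : d ≤ 4) (m : ℕ) :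
    1 / (1024 * ((m : ℝ) + 1) ^ 2) ≤ hk (m + m) (0 : Zd d) := by
  refine le_trans ?_ (hk_lower (d := d) m)
  set r : ℝ := (Nat.sqrt (2 * m) : ℝ) with hr
  have hr0 : 0 ≤ r := Nat.cast_nonneg _
  have h1 : r ^ 2 ≤ 2 * m := by
    have := Nat.sqrt_le' (2 * m)
    rw [hr]
    exact_mod_cast this
  have h2 : (2 * r + 1) ^ d ≤ (2 * r + 1) ^ 4 := pow_le_pow_right₀ (by linarith) hd
  have h3 : (2 * r + 1) ^ 2 ≤ 16 * ((m : ℝ) + 1) := by nlinarith [sq_nonneg (2 * r - 1)]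
  have h4 : (2 * r + 1) ^ 4 ≤ 256 * ((m : ℝ) + 1) ^ 2 := by
    calc (2 * r + 1) ^ 4 = ((2 * r + 1) ^ 2) ^ 2 := by ring
      _ ≤ (16 * ((m : ℝ) + 1)) ^ 2 := pow_le_pow_left₀ (sq_nonneg _) h3 2
      _ = 256 * ((m : ℝ) + 1) ^ 2 := by ring
  refine one_div_le_one_div_of_le (by positivity) ?_
  calc 4 * (2 * r + 1) ^ d ≤ 4 * (256 * ((m : ℝ) + 1) ^ 2) :=
        mul_le_mul_of_nonneg_left (h2.trans h4) (by norm_num)
    _ = 1024 * ((m : ℝ) + 1) ^ 2 := by ring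

theorem sum_hk_row (hd : d ≤ 4) {n k : ℕ} (hk' : k ≤ n) :
    (1 / 2048) * (1 / ((k : ℝ) + 1)) ≤ ∑ l ∈ Finset.range (n + 1), hk (k + l) (0 : Zd d) := by
  have hinj : Set.InjOn (fun j => k - 2 * j) (Finset.range (k / 2 + 1) : Set ℕ) := by
    intro a ha b hb hab
    simp only [Finset.coe_range, Set.mem_Iio] at ha hb
    simp only at hab
    omega
  have hsub : (Finset.range (k / 2 + 1)).image (fun j => k - 2 * j) ⊆ Finset.range (n + 1) := by
    intro l hl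
    rw [Finset.mem_image] at hl
    obtain ⟨j, _, rfl⟩ := hl
    rw [Finset.mem_range]
    omega
  have h1 : ∑ j ∈ Finset.range (k / 2 + 1), hk (k + (k - 2 * j)) (0 : Zd d) ≤
      ∑ l ∈ Finset.range (n + 1), hk (k + l) (0 : Zd d) := by
    rw [← Finset.sum_image (f := fun l => hk (k + l) (0 : Zd d)) hinj]
    exact Finset.sum_le_sum_of_subset_of_nonneg hsub fun l _ _ => hk_nonneg _ _
  refine le_trans ?_ h1
  have h2 : ∀ j ∈ Finset.range (k / 2 + 1), 1 / (1024 * ((k : ℝ) + 1) ^ 2) ≤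
      hk (k + (k - 2 * j)) (0 : Zd d) := by
    intro j hj
    rw [Finset.mem_range] at hj
    have h3 : k + (k - 2 * j) = (k - j) + (k - j) := by omega
    rw [h3]
    refine le_trans ?_ (hk_lower' hd (k - j))
    have h4 : ((k - j : ℕ) : ℝ) ≤ k := by exact_mod_cast Nat.sub_le k j
    refine one_div_le_one_div_of_le (by positivity) ?_
    gcongr
  have h5 := Finset.card_nsmul_le_sum _ _ _ h2
  rw [Finset.card_range, nsmul_eq_mul] at h5
  refine le_trans ?_ h5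
  have h6 : ((k : ℝ) + 1) / 2 ≤ ((k / 2 + 1 : ℕ) : ℝ) := by
    have h7 : k + 1 ≤ 2 * (k / 2 + 1) := by omega
    have h8 : ((k : ℝ) + 1) ≤ 2 * ((k / 2 + 1 : ℕ) : ℝ) := by exact_mod_cast h7
    linarith
  calc (1 / 2048) * (1 / ((k : ℝ) + 1)) = ((k : ℝ) + 1) / 2 * (1 / (1024 * ((k : ℝ) + 1) ^ 2)) := by
        field_simp
        norm_num
    _ ≤ _ := mul_le_mul_of_nonneg_right h6 (by positivity)

theorem un_tendsto (hd : d ≤ 4) : Tendsto (fun n => un n (0 : Zd d)) atTop atTop := by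
  have h1 : ∀ n : ℕ, (1 / 2048) * ∑ k ∈ Finset.range (n + 1), (1 / ((k : ℝ) + 1)) ≤
      un n (0 : Zd d) := by
    intro n
    rw [un, Finset.mul_sum]
    exact Finset.sum_le_sum fun k hk' =>
      sum_hk_row hd (Nat.lt_succ_iff.1 (Finset.mem_range.1 hk'))
  refine tendsto_atTop_mono h1 ?_
  exact ((Real.tendsto_sum_range_one_div_nat_succ_atTop.comp
    (tendsto_add_atTop_nat 1)).const_mul_atTop (by norm_num))

end Pool.Agent.H39.LW
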