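import Mathlib

/-!
# Loop-erased random walk on `ℤ^d`: definitions

* `leStep`, `LEl`: chronological loop erasure of a finite path (a list of vertices): the vertices
  are appended one by one, and when a loop is closed it is erased at once.
* `LE s n`: the loop erasure of the finite path `s 0, s 1, …, s n`.
* `IsLoopErasure s γ`: for every `k` the `k`-th vertex of `LE s n` is `γ k` for all large `n`.
* `loopErase s`: the infinite loop erasure (when it exists).
* `Pr d`: the law of an i.i.d. sequence of uniform unit steps; `pos a ω n`: the position at time `n`
  of the simple random walk started from `a`.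
* `lerwLaw d`: law of the infinite loop-erased random walk from the origin of `ℤ^d`.
* `edges γ`: the set of (unoriented) edges traversed by `γ`.
* `HasEIT μ`: the exponential intersection tail property.
-/

open MeasureTheory ProbabilityTheory Filter
open scoped ENNReal

namespace Pool.Agent.H39.LW

/-! ## Loop erasure -/

section LoopErasure

variable {U : Type*} [DecidableEq U]

/-- Append the vertex `v` to the self-avoiding path `L`; if `v` is already a vertex of `L`, the loop
just closed is erased. -/
def leStep (L : List U) (v : U) : List U := L.takeWhile (fun u => decide (u ≠ v)) ++ [v]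

/-- Chronological loop erasure of a finite path. -/
def LEl (l : List U) : List U := l.foldl leStep []

/-- The list `s 0, s 1, …, s n`. -/
def pre (s : ℕ → U) (n : ℕ) : List U := (List.range (n + 1)).map s

/-- Loop erasure of `s 0, s 1, …, s n`. -/
def LE (s : ℕ → U) (n : ℕ) : List U := LEl (pre s n)

/-- `γ` is the loop erasure of the infinite path `s`. -/
def IsLoopErasure (s γ : ℕ → U) : Prop := ∀ k, ∀ᶠ n in atTop, (LE s n)[k]? = some (γ k)

open Classical in
/-- The loop erasure of the infinite path `s` (equal to `s`, by convention, if there is none). -/
noncomputable def loopErase (s : ℕ → U) : ℕ → U :=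
  if h : ∃ γ, IsLoopErasure s γ then h.choose else s

/-- Every vertex is visited only finitely often. -/
def Transient (s : ℕ → U) : Prop := ∀ v, {n | s n = v}.Finite

end LoopErasure

/-! ## Simple random walk -/

/-- The vertices of `ℤ^d`. -/
abbrev Zd (d : ℕ) := Fin d → ℤ

/-- The `2 d` unit steps: a coordinate and a sign. -/
abbrev Step (d : ℕ) := Fin d × Bool

/-- The vector of a step. -/
def sv {d : ℕ} (e : Step d) : Zd d := Pi.single e.1 (if e.2 then 1 else -1)

/-- Sequences of steps. -/
abbrev Om (d : ℕ) := ℕ → Step d

/-- The uniform distribution on the unit steps. -/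
noncomputable def stepLaw (d : ℕ) : Measure (Step d) := uniformOn Set.univ

instance (d : ℕ) [NeZero d] : IsProbabilityMeasure (stepLaw d) :=
  isProbabilityMeasure_uniformOn Set.finite_univ Set.univ_nonempty

/-- The law of a sequence of independent uniform steps. -/
noncomputable def Pr (d : ℕ) [NeZero d] : Measure (Om d) := Measure.infinitePi fun _ => stepLaw d

instance (d : ℕ) [NeZero d] : IsProbabilityMeasure (Pr d) := by
  unfold Pr; infer_instance

/-- Position at time `n` of the walk with steps `ω` started from `a`. -/
def pos {d : ℕ} (a : Zd d) (ω : Om d) (n : ℕ) : Zd d := a + ∑ i ∈ Finset.range n, sv (ω i)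

/-- The law of the infinite loop-erased random walk from the origin of `ℤ^d`. -/
noncomputable def lerwLaw (d : ℕ) [NeZero d] : Measure (ℕ → Zd d) :=
  (Pr d).map fun ω => loopErase (pos 0 ω)

/-! ## Exponential intersection tails -/

/-- The set of edges traversed by the path `γ`. -/
def edges {U : Type*} (γ : ℕ → U) : Set (Sym2 U) := {e | ∃ k, e = s(γ k, γ (k + 1))}

/-- The exponential intersection tail property: for some `θ ∈ (0,1)` and all `n`, two independent
paths with law `μ` have more than `n` common edges with probability less than `θ ^ n`. -/
def HasEIT {U : Type*} [MeasurableSpace U] (μ : Measure (ℕ → U)) : Prop :=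
  ∃ θ : ℝ, 0 < θ ∧ θ < 1 ∧ ∀ n : ℕ,
    (μ.prod μ) {p | (n : ℕ∞) < (edges p.1 ∩ edges p.2).encard} < ENNReal.ofReal (θ ^ n)

end Pool.Agent.H39.LW
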