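import Mathlib

/-!
# Module ASa: autocorrelation of a square summable function
-/

open Filter
open scoped ENNReal

namespace Pool.Agent.H39.LW

private lemma amgm (a b t : ℝ≥0∞) (ht : t ≠ 0) (ht' : t ≠ ⊤) : a * b ≤ t * a ^ 2 + b ^ 2 / t := by
  rcases le_total b (t * a) with h | h
  · calc a * b ≤ a * (t * a) := by gcongr
      _ = t * a ^ 2 := by ring
      _ ≤ _ := le_self_add
  · have h' : a ≤ b / t := by
      rw [ENNReal.le_div_iff_mul_le (Or.inl ht) (Or.inl ht'), mul_comm]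
      exact h
    calc a * b ≤ (b / t) * b := by gcongr
      _ = b ^ 2 / t := by rw [sq, ENNReal.div_eq_inv_mul, ENNReal.div_eq_inv_mul, mul_assoc]
      _ ≤ _ := le_add_self

theorem conv_tendsto {G : Type*} [AddCommGroup G] {h : G → ℝ≥0∞}
    (hh : ∑' x, h x ^ 2 ≠ ⊤) : Tendsto (fun y => ∑' x, h x * h (x - y)) cofinite (nhds 0) := by
  classical
  rw [ENNReal.tendsto_nhds_zero]
  intro ε hε
  set M := ∑' x, h x ^ 2 with hM
  -- choose `t` with `2 M / t ≤ ε / 2`
  rcases eq_or_ne ε ⊤ with hε' | hε'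
  · subst hε'
    exact Eventually.of_forall fun _ => le_top
  obtain ⟨t, ht0, ht1, ht2⟩ : ∃ t : ℝ≥0∞, t ≠ 0 ∧ t ≠ ⊤ ∧ 2 * (M / t) ≤ ε / 2 := by
    refine ⟨(4 * (M + 1)) / ε, ?_, ?_, ?_⟩
    · refine ENNReal.div_ne_zero.2 ⟨?_, hε'⟩
      simp
    · refine ENNReal.div_ne_top ?_ hε.ne'
      exact ENNReal.mul_ne_top (by norm_num) (ENNReal.add_ne_top.2 ⟨hh, by norm_num⟩)
    · have h4 : (4 * (M + 1)) ≠ ⊤ :=
        ENNReal.mul_ne_top (by norm_num) (ENNReal.add_ne_top.2 ⟨hh, by norm_num⟩)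
      have h40 : (4 * (M + 1)) ≠ 0 := by simp
      rw [div_eq_mul_inv M, ENNReal.inv_div (Or.inl hε') (Or.inl hε.ne')]
      have h5 : 2 * (M * (ε / (4 * (M + 1)))) = (ε / 2) * (M / (M + 1)) := by
        rw [div_eq_mul_inv, div_eq_mul_inv, div_eq_mul_inv, ENNReal.mul_inv (by simp) (by simp)]
        have : (4 : ℝ≥0∞)⁻¹ = 2⁻¹ * 2⁻¹ := by
          rw [← ENNReal.mul_inv (by simp) (by simp)]; norm_num
        rw [this]
        have h22 : (2 : ℝ≥0∞) * 2⁻¹ = 1 := ENNReal.mul_inv_cancel (by norm_num) (by norm_num)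
        calc 2 * (M * (ε * (2⁻¹ * 2⁻¹ * (M + 1)⁻¹)))
            = (2 * 2⁻¹) * (ε * 2⁻¹ * (M * (M + 1)⁻¹)) := by ring
          _ = _ := by rw [h22, one_mul]
      rw [h5]
      calc (ε / 2) * (M / (M + 1)) ≤ (ε / 2) * 1 := by
            gcongr
            exact ENNReal.div_le_of_le_mul (by rw [one_mul]; exact le_self_add)
        _ = ε / 2 := mul_one _
  -- the tail
  obtain ⟨F, hF⟩ : ∃ F : Finset G, ∑' x : { x // x ∉ F }, h x ^ 2 < ε / (4 * t) := by
    have hpos : 0 < ε / (4 * t) :=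
      ENNReal.div_pos hε.ne' (ENNReal.mul_ne_top (by norm_num) ht1)
    have := ENNReal.tendsto_tsum_compl_atTop_zero hh
    exact ((tendsto_order.1 this).2 _ hpos).exists
  filter_upwards [((F ×ˢ F).image fun p => p.1 - p.2 : Finset G).finite_toSet.compl_mem_cofinite]
    with y hy
  have hy' : ∀ x, x ∉ F ∨ x - y ∉ F := by
    intro x
    by_contra hcon
    push Not at hcon
    apply hy
    rw [Finset.mem_coe, Finset.mem_image]
    exact ⟨(x, x - y), Finset.mem_product.2 hcon, by simp⟩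
  have hpt : ∀ x, h x * h (x - y) ≤ (t * (if x ∉ F then h x ^ 2 else 0) + h (x - y) ^ 2 / t)
      + (t * (if x - y ∉ F then h (x - y) ^ 2 else 0) + h x ^ 2 / t) := by
    intro x
    rcases hy' x with hx | hx
    · rw [if_pos hx]
      exact (amgm _ _ t ht0 ht1).trans le_self_add
    · rw [if_pos hx]
      rw [mul_comm]
      exact (amgm _ _ t ht0 ht1).trans le_add_self
  have htail : ∑' x, (if x ∉ F then h x ^ 2 else 0) ≤ ε / (4 * t) := by
    refine le_trans (le_of_eq ?_) hF.le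
    have h1 := tsum_subtype {x | x ∉ F} (fun x => h x ^ 2)
    refine Eq.trans ?_ h1.symm
    refine tsum_congr fun x => ?_
    by_cases hx : x ∈ F
    · rw [if_neg (by simpa using hx), Set.indicator_of_notMem (by simpa using hx)]
    · rw [if_pos hx, Set.indicator_of_mem (by simpa using hx)]
  have hsh : ∀ f : G → ℝ≥0∞, ∑' x, f (x - y) = ∑' x, f x := fun f =>
    (Equiv.subRight y).tsum_eq f
  have h4 : t * (ε / (4 * t)) ≤ ε / 4 := by
    rw [div_eq_mul_inv, ENNReal.mul_inv (by simp) (by simp [ht0])]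
    calc t * (ε * (4⁻¹ * t⁻¹)) = (t * t⁻¹) * (ε * 4⁻¹) := by ring
      _ ≤ 1 * (ε * 4⁻¹) := by gcongr; exact ENNReal.mul_inv_le_one t
      _ = ε / 4 := by rw [one_mul, div_eq_mul_inv]
  calc ∑' x, h x * h (x - y)
      ≤ ∑' x, ((t * (if x ∉ F then h x ^ 2 else 0) + h (x - y) ^ 2 / t)
      + (t * (if x - y ∉ F then h (x - y) ^ 2 else 0) + h x ^ 2 / t)) := ENNReal.tsum_le_tsum hpt
    _ = (t * ∑' x, (if x ∉ F then h x ^ 2 else 0) + M / t)
        + (t * ∑' x, (if x ∉ F then h x ^ 2 else 0) + M / t) := by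
        rw [ENNReal.tsum_add, ENNReal.tsum_add, ENNReal.tsum_add, ENNReal.tsum_mul_left,
          ENNReal.tsum_mul_left, hsh (fun x => h x ^ 2 / t),
          hsh (fun x => if x ∉ F then h x ^ 2 else 0)]
        have : ∑' x, h x ^ 2 / t = M / t := by
          simp only [div_eq_mul_inv]
          rw [ENNReal.tsum_mul_right]
        rw [this]
    _ ≤ (t * (ε / (4 * t)) + M / t) + (t * (ε / (4 * t)) + M / t) := by gcongr
    _ ≤ (ε / 4 + M / t) + (ε / 4 + M / t) := by gcongr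
    _ = (ε / 4 + ε / 4) + 2 * (M / t) := by ring
    _ ≤ (ε / 4 + ε / 4) + ε / 2 := by gcongr
    _ = ε := by
        have : ε / 4 + ε / 4 = ε / 2 := by
          rw [ENNReal.div_add_div_same, ← two_mul, mul_comm, mul_div_assoc]
          congr 1
          rw [ENNReal.div_eq_inv_mul]
          have h4' : (4 : ℝ≥0∞)⁻¹ = 2⁻¹ * 2⁻¹ := by
            rw [← ENNReal.mul_inv (by simp) (by simp)]; norm_num
          rw [h4', mul_assoc, ENNReal.inv_mul_cancel (by norm_num) (by norm_num), mul_one]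
        rw [this, ENNReal.add_halves]

end Pool.Agent.H39.LW
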