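import Pool.Agent.H39.LW.DetBase

/-!
# The correlation inequality (determinant form)

`ops_rayleigh` is applied to `det (∑ t_v A_v + diag z)`, which is stable (`stable_fU`), and the four
values are identified with path sums (`Gv_insert`, `Fv_base`).
-/

open MvPolynomial Matrix

namespace Pool.Agent.H39.LW

set_option linter.unusedSectionVars false

section Fin

variable {V : Type*} [Fintype V] [DecidableEq V]
variable {w : V → V → ℝ} {κ : V → ℝ} {wx : V → ℝ}

/-- the list of all the operators -/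
noncomputable def lall (κ wx : V → ℝ) (x : V) : List (ℝ × (V ⊕ V → ℝ)) :=
  (0, Sum.elim (fun _ => 0) κ) :: (0, Pi.single (Sum.inr x) 1) :: Th wx (Finset.univ.erase x)

lemma dir_elim (κ : V → ℝ) (g : MvPolynomial (V ⊕ V) ℝ) :
    dir (Sum.elim (fun _ => 0) κ) g = ∑ v, C (κ v) * pderiv (Sum.inr v) g := by
  unfold dir
  rw [Fintype.sum_sum_type, Finset.sum_eq_zero, zero_add]
  · rfl
  · intro v _; simp

lemma Qval {x : V} {T : Finset V} (hxT : x ∉ T) :
    eval 0 (ops 0 (lall κ wx x) (fU w κ T))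
      = ∑ v ∈ Finset.univ.erase x, κ v
          * (if v ∈ T then 0 else Gv w κ wx (Finset.univ.erase x) (insert v T)) := by
  unfold lall
  rw [ops_cons', ops_cons', dir_single]
  simp only [map_zero, zero_mul, zero_add]
  rw [dir_elim, map_sum, ops_sum, map_sum, ← Finset.add_sum_erase _ _ (Finset.mem_univ x)]
  have h0 : eval 0 (ops 0 (Th wx (Finset.univ.erase x))
      (pderiv (Sum.inr x) (C (κ x) * pderiv (Sum.inr x) (fU w κ T)))) = 0 := by
    rw [pderiv_mul, pderiv_C, pderiv_inr_fU, if_neg hxT, pderiv_inr_fU,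
      if_pos (Finset.mem_insert_self _ _)]
    rw [zero_mul, mul_zero, add_zero, ops_zero, map_zero]
  rw [h0, zero_add]
  refine Finset.sum_congr rfl fun v hv => ?_
  rw [pderiv_mul, pderiv_C, zero_mul, zero_add, ops_Cmul, map_mul, eval_C, pderiv_inr_fU]
  congr 1
  by_cases hvT : v ∈ T
  · rw [if_pos hvT, if_pos hvT, map_zero, ops_zero, map_zero]
  · rw [if_neg hvT, if_neg hvT, pderiv_inr_fU, if_neg]
    · rw [Gv, if_pos]
      · unfold Fv
        congr 3
        ext z
        simp only [Finset.compl_erase, Finset.mem_union, Finset.mem_insert, Finset.mem_compl,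
          Finset.mem_univ, not_true]
        tauto
      · intro z hz
        rcases Finset.mem_insert.1 hz with h | h
        · rw [h]; exact hv
        · exact Finset.mem_erase.2 ⟨fun hh => hxT (hh ▸ h), Finset.mem_univ _⟩
    · intro h
      rcases Finset.mem_insert.1 h with h | h
      · exact (Finset.mem_erase.1 hv).1 h.symm
      · exact hxT h

lemma Gv_empty (hdeg : ∀ v, ∑ u, w v u + κ v = 1) (hdiag : ∀ v, w v v = 0) :
    (fun C' => Gv w κ wx C' ∅) = Dt w := by
  funext C'
  rw [Gv, if_pos (Finset.empty_subset _), Finset.union_empty, Fv_base hdeg hdiag]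

theorem core_fintype (hw : ∀ u v, 0 ≤ w u v) (hκ : ∀ v, 0 ≤ κ v) (hwx : ∀ v, 0 ≤ wx v)
    (hdeg : ∀ v, ∑ u, w v u + κ v = 1) (hdiag : ∀ v, w v v = 0)
    {a b x : V} (hab : a ≠ b) (hax : a ≠ x) (hbx : b ≠ x) :
    (∑ v ∈ Finset.univ.erase x, κ v * R1 w wx (Dt w) (Finset.univ.erase x) v)
      * (∑ v ∈ Finset.univ.erase x, κ v * R1 w wx
          (fun C => R1 w wx (fun C' => R1 w wx (Dt w) C' b) C v) (Finset.univ.erase x) a)
      ≤ (∑ v ∈ Finset.univ.erase x, κ v * R1 w wx
          (fun C => R1 w wx (Dt w) C v) (Finset.univ.erase x) a)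
        * (∑ v ∈ Finset.univ.erase x, κ v * R1 w wx
          (fun C => R1 w wx (Dt w) C v) (Finset.univ.erase x) b) := by
  have hl : ∀ o ∈ lall κ wx x, 0 ≤ o.1 ∧ ∀ i, 0 ≤ o.2 i := by
    intro o ho
    unfold lall at ho
    rcases List.mem_cons.1 ho with h | ho
    · subst h
      refine ⟨le_refl _, fun i => ?_⟩
      rcases i with i | i
      · exact le_refl _
      · exact hκ i
    · rcases List.mem_cons.1 ho with h | ho
      · subst h
        refine ⟨le_refl _, fun i => ?_⟩
        by_cases hi : i = Sum.inr x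
        · subst hi; simp
        · simp [Pi.single_eq_of_ne hi]
      · unfold Th at ho
        obtain ⟨v, _, rfl⟩ := List.mem_map.1 ho
        refine ⟨hwx v, fun i => ?_⟩
        by_cases hi : i = Sum.inl v
        · subst hi; simp
        · simp [Pi.single_eq_of_ne hi]
  have hdd : ∀ c : V, pderiv (Sum.inr c) (pderiv (Sum.inr c) (fU w κ ∅)) = 0 := by
    intro c
    rw [pderiv_inr_fU, if_neg (Finset.notMem_empty _), pderiv_inr_fU,
      if_pos (Finset.mem_insert_self _ _)]
  have h := ops_rayleigh (stable_fU hw hκ) (lall κ wx x) hl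
    (a := Sum.inr a) (b := Sum.inr b) (by simpa using hab) (hdd a) (hdd b) 0
  have hD := Gv_empty (wx := wx) hdeg hdiag
  -- identification of the four values
  have e0 : eval 0 (ops 0 (lall κ wx x) (fU w κ ∅))
      = ∑ v ∈ Finset.univ.erase x, κ v * R1 w wx (Dt w) (Finset.univ.erase x) v := by
    rw [Qval (Finset.notMem_empty _)]
    refine Finset.sum_congr rfl fun v _ => ?_
    rw [if_neg (Finset.notMem_empty _)]
    have := Gv_single (w := w) (κ := κ) (wx := wx) (Finset.univ.erase x) v
    rw [hD] at this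
    rw [← this]; rfl
  have e1 : ∀ c, c ≠ x → eval 0 (ops 0 (lall κ wx x) (pderiv (Sum.inr c) (fU w κ ∅)))
      = ∑ v ∈ Finset.univ.erase x, κ v * R1 w wx
          (fun C => R1 w wx (Dt w) C v) (Finset.univ.erase x) c := by
    intro c hcx
    rw [pderiv_inr_fU, if_neg (Finset.notMem_empty _), Qval (by simpa using hcx.symm)]
    refine Finset.sum_congr rfl fun v _ => ?_
    congr 1
    by_cases hv : v = c
    · subst hv
      rw [if_pos (Finset.mem_insert_self _ _), R1_zero]
      intro C hC
      exact R1_notMem fun hh => Finset.notMem_erase _ _ (hC hh)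
    · rw [if_neg (by simpa using hv)]
      have hs : insert v (insert c (∅ : Finset V)) = insert c {v} := by
        ext z; simp [or_comm]
      rw [hs, Gv_insert _ (by simpa using Ne.symm hv)]
      congr 1
      funext C'
      rw [Gv_single, hD]
  have e2 : eval 0 (ops 0 (lall κ wx x) (pderiv (Sum.inr a) (pderiv (Sum.inr b) (fU w κ ∅))))
      = ∑ v ∈ Finset.univ.erase x, κ v * R1 w wx
          (fun C => R1 w wx (fun C' => R1 w wx (Dt w) C' b) C v) (Finset.univ.erase x) a := by
    rw [pderiv_inr_fU, if_neg (Finset.notMem_empty _), pderiv_inr_fU,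
      if_neg (by simpa using hab), Qval (by simp [hax.symm, hbx.symm])]
    refine Finset.sum_congr rfl fun v _ => ?_
    congr 1
    by_cases hva : v = a
    · subst hva
      rw [if_pos (Finset.mem_insert_self _ _), R1_zero]
      intro C hC
      exact R1_notMem fun hh => Finset.notMem_erase _ _ (hC hh)
    by_cases hvb : v = b
    · subst hvb
      rw [if_pos (by simp), R1_zero]
      intro C _
      rw [R1_zero]
      intro C' hC'
      exact R1_notMem fun hh => Finset.notMem_erase _ _ (hC' hh)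
    · rw [if_neg (by simp [hva, hvb])]
      have hs : insert v (insert a (insert b (∅ : Finset V))) = insert a (insert v {b}) := by
        ext z
        simp only [Finset.mem_insert, Finset.mem_singleton]
        tauto
      rw [hs, Gv_insert _ (by simp [Ne.symm hva, hab])]
      congr 1
      funext C'
      rw [Gv_insert _ (by simpa using hvb)]
      congr 1
      funext C''
      rw [Gv_single, hD]
  rw [e0, e1 a hax, e1 b hbx, e2] at h
  exact h

end Fin

variable {U : Type*} [DecidableEq U]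

lemma Dt_map {w : U → U → ℝ} {Λ : Finset U} (C : Finset Λ) :
    Dt w (C.map (Function.Embedding.subtype _)) = Dt (fun u v : Λ => w u v) C := by
  unfold Dt
  let e : C ≃ (C.map (Function.Embedding.subtype (· ∈ Λ))) :=
    Equiv.ofBijective
      (fun i => ⟨((i : Λ) : U), Finset.mem_map_of_mem (Function.Embedding.subtype (· ∈ Λ)) i.2⟩)
      ⟨fun i j hij => by
        have h2 := Subtype.ext_iff.1 hij
        exact Subtype.ext (Subtype.ext h2), fun j => by
        obtain ⟨i, hi, hij⟩ := Finset.mem_map.1 j.2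
        exact ⟨⟨i, hi⟩, Subtype.ext hij⟩⟩
  rw [← Matrix.det_submatrix_equiv_self e]
  congr 1
  ext i j
  simp only [Matrix.submatrix_apply, Matrix.of_apply]
  have hi : ((e i : U)) = ((i : Λ) : U) := rfl
  have hj : ((e j : U)) = ((j : Λ) : U) := rfl
  rw [hi, hj]
  by_cases hij : i = j
  · subst hij; simp
  · rw [if_neg hij, if_neg (fun h => hij (e.injective h))]

theorem core_ineq {w : U → U → ℝ} (_hsymm : ∀ u v, w u v = w v u) (hw : ∀ u v, 0 ≤ w u v)
    (hdiag : ∀ u, w u u = 0) {Λ : Finset U} {κ : U → ℝ}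
    (hκ : ∀ v ∈ Λ, κ v = 1 - ∑ u ∈ Λ, w v u) (hκ0 : ∀ v ∈ Λ, 0 ≤ κ v)
    {a b x : U} (ha : a ∈ Λ) (hb : b ∈ Λ) (hx : x ∈ Λ) (hab : a ≠ b) (hax : a ≠ x) (hbx : b ≠ x) :
    (∑ v ∈ Λ.erase x, κ v * R1 w (fun v => w v x) (Dt w) (Λ.erase x) v)
      * (∑ v ∈ Λ.erase x, κ v * R1 w (fun v => w v x)
          (fun C => R1 w (fun v => w v x) (fun C' => R1 w (fun v => w v x) (Dt w) C' b) C v)
          (Λ.erase x) a)
      ≤ (∑ v ∈ Λ.erase x, κ v * R1 w (fun v => w v x)
          (fun C => R1 w (fun v => w v x) (Dt w) C v) (Λ.erase x) a)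
        * (∑ v ∈ Λ.erase x, κ v * R1 w (fun v => w v x)
          (fun C => R1 w (fun v => w v x) (Dt w) C v) (Λ.erase x) b) := by
  let f : Λ ↪ U := Function.Embedding.subtype _
  have hset : Λ.erase x = ((Finset.univ : Finset Λ).erase ⟨x, hx⟩).map f := by
    rw [Finset.map_erase]
    congr 1
    ext z
    simp [f]
  have h := core_fintype (V := Λ) (w := fun u v => w u v) (κ := fun v => κ v)
    (wx := fun v => w v x) (fun _ _ => hw _ _) (fun v => hκ0 v v.2) (fun v => hw _ _)
    (fun v => by
      rw [hκ v v.2, Finset.sum_coe_sort Λ (fun u => w v u)]; ring)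
    (fun v => hdiag v) (a := ⟨a, ha⟩) (b := ⟨b, hb⟩) (x := ⟨x, hx⟩)
    (fun hh => hab (congrArg Subtype.val hh)) (fun hh => hax (congrArg Subtype.val hh))
    (fun hh => hbx (congrArg Subtype.val hh))
  have hDt : (fun C : Finset Λ => Dt w (C.map f)) = Dt (fun u v : Λ => w u v) := by
    funext C; exact Dt_map C
  have hR : ∀ (g : Finset U → ℝ) (g' : Finset Λ → ℝ), (fun C : Finset Λ => g (C.map f)) = g' →
      ∀ (B : Finset Λ) (v : Λ), R1 w (fun v => w v x) g (B.map f) v
        = R1 (fun u v : Λ => w u v) (fun v : Λ => w v x) g' B v := by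
    intro g g' hg B v
    rw [← hg]
    exact R1_map f B v
  have hR1 : ∀ c : Λ, (fun C : Finset Λ => R1 w (fun v => w v x) (Dt w) (C.map f) c)
      = fun C => R1 (fun u v : Λ => w u v) (fun v : Λ => w v x) (Dt fun u v : Λ => w u v) C c := by
    intro c
    funext C
    exact hR _ _ hDt C c
  rw [hset]
  simp only [Finset.sum_map]
  have e0 : ∀ v : Λ, R1 w (fun v => w v x) (Dt w)
      (((Finset.univ : Finset Λ).erase ⟨x, hx⟩).map f) (f v)
      = R1 (fun u v : Λ => w u v) (fun v : Λ => w v x) (Dt fun u v : Λ => w u v)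
          ((Finset.univ : Finset Λ).erase ⟨x, hx⟩) v := fun v => hR _ _ hDt _ v
  have e1 : ∀ (v c : Λ), R1 w (fun v => w v x) (fun C => R1 w (fun v => w v x) (Dt w) C (f v))
      (((Finset.univ : Finset Λ).erase ⟨x, hx⟩).map f) c
      = R1 (fun u v : Λ => w u v) (fun v : Λ => w v x)
          (fun C => R1 (fun u v : Λ => w u v) (fun v : Λ => w v x) (Dt fun u v : Λ => w u v) C v)
          ((Finset.univ : Finset Λ).erase ⟨x, hx⟩) c := fun v c => hR _ _ (hR1 v) _ c
  have e2 : ∀ v : Λ, R1 w (fun v => w v x)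
      (fun C => R1 w (fun v => w v x) (fun C' => R1 w (fun v => w v x) (Dt w) C' b) C (f v))
      (((Finset.univ : Finset Λ).erase ⟨x, hx⟩).map f) a
      = R1 (fun u v : Λ => w u v) (fun v : Λ => w v x)
          (fun C => R1 (fun u v : Λ => w u v) (fun v : Λ => w v x)
            (fun C' => R1 (fun u v : Λ => w u v) (fun v : Λ => w v x)
              (Dt fun u v : Λ => w u v) C' ⟨b, hb⟩) C v)
          ((Finset.univ : Finset Λ).erase ⟨x, hx⟩) ⟨a, ha⟩ := by
    intro v
    refine hR _ _ ?_ _ ⟨a, ha⟩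
    funext C
    exact hR _ _ (hR1 ⟨b, hb⟩) C v
  simp only [e0, e2]
  have e1a := fun v => e1 v ⟨a, ha⟩
  have e1b := fun v => e1 v ⟨b, hb⟩
  simp only at e1a e1b
  simp only [e1a, e1b]
  exact h

end Pool.Agent.H39.LW
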