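import Pool.Agent.H39.LW.WalkSum

/-!
# Module GD: Green's function and determinants

`Dt w C` is the determinant of the restriction of `1 - w` to `C`.

`green_det`: for `u ∈ B` let `f u = (∑' n, ws w 1_v B n 1 u).toReal`. The recursion defining `ws`
gives `f u = 1_{u = v} + ∑_{u' ∈ B} w u u' f u'`, i.e. `A f = e_v` where `A = (1 - w)|_B`.
Multiply by `adj A`: `det A * f v = (adj A)_{v v}`, which is the determinant of `A` with the row
`v` replaced by `e_v` (`Matrix.adjugate_apply`), i.e. `Dt w (B.erase v)` (expand along that row: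
`Matrix.det_succ_row` style, or use a block triangular form `Matrix.twoBlockTriangular_det` with
`p i := i ≠ v` and reindex).

`Dt_pos`: induction on `B`: `Dt w ∅ = 1` and `Dt w B * (green w B v).toReal = Dt w (B.erase v) > 0`.
(For `B' ⊆ B` the walk sums in `B'` are at most those in `B`.)
-/

open scoped ENNReal

namespace Pool.Agent.H39.LW

variable {U : Type*} [DecidableEq U]

/-- determinant of the restriction of `1 - w` to `C` -/
noncomputable def Dt (w : U → U → ℝ) (C : Finset U) : ℝ :=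
  Matrix.det (Matrix.of fun i j : C => (if i = j then 1 else 0) - w i j)

variable {w : U → U → ℝ} {ψ : U → ℝ} {B : Finset U}

lemma Dt_empty : Dt w ∅ = 1 := by
  unfold Dt
  exact Matrix.det_isEmpty

lemma ws_mono_set {B' : Finset U} (h : B' ⊆ B) (n : ℕ) (F : List U → ℝ≥0∞) (v : U) :
    ws w ψ B' n F v ≤ ws w ψ B n F v := by
  induction n generalizing F v with
  | zero =>
    simp only [ws]
    by_cases hv : v ∈ B'
    · rw [if_pos hv, if_pos (h hv)]
    · rw [if_neg hv]; exact zero_le
  | succ n ih =>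
    simp only [ws]
    by_cases hv : v ∈ B'
    · rw [if_pos hv, if_pos (h hv)]
      refine (Finset.sum_le_sum fun u _ => mul_le_mul_right (ih _ u) _).trans ?_
      exact Finset.sum_le_sum_of_subset h
    · rw [if_neg hv]; exact zero_le

/-- a matrix whose row `i₀` is a unit vector -/
lemma det_row_single {n : Type*} [Fintype n] [DecidableEq n] (M : Matrix n n ℝ) (i₀ : n)
    (h : ∀ j, j ≠ i₀ → M i₀ j = 0) (h1 : M i₀ i₀ = 1) :
    M.det = (M.submatrix (Subtype.val : {i // i ≠ i₀} → n) Subtype.val).det := by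
  classical
  rw [Matrix.twoBlockTriangular_det M (fun i => i ≠ i₀) (by
    intro i hi j hj
    have : i = i₀ := not_not.1 hi
    rw [this]
    exact h j hj)]
  have h2 : (M.toSquareBlockProp fun i => ¬ i ≠ i₀).det = 1 := by
    haveI : Unique {i // ¬ i ≠ i₀} :=
      { default := ⟨i₀, fun hne => hne rfl⟩
        uniq := fun a => Subtype.ext (not_not.1 a.2) }
    rw [Matrix.det_unique, Matrix.toSquareBlockProp_def, Matrix.of_apply,
      not_not.1 (default : {i // ¬ i ≠ i₀}).2]
    exact h1
  rw [h2, mul_one]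
  rfl

/-- the principal minor of `1 - w` obtained by replacing the row `v` -/
lemma det_updateRow_Dt {v : U} (hv : v ∈ B) :
    ((Matrix.of fun i j : B => (if i = j then 1 else 0) - w i j).updateRow ⟨v, hv⟩
      (Pi.single ⟨v, hv⟩ 1)).det = Dt w (B.erase v) := by
  rw [det_row_single _ (⟨v, hv⟩ : B)
    (fun j hj => by rw [Matrix.updateRow_self, Pi.single_eq_of_ne hj])
    (by rw [Matrix.updateRow_self, Pi.single_eq_same])]
  let e : {i : B // i ≠ ⟨v, hv⟩} ≃ ↥(B.erase v) :=
    { toFun := fun i => ⟨i.1.1, Finset.mem_erase.2 ⟨fun h => i.2 (Subtype.ext h), i.1.2⟩⟩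
      invFun := fun i => ⟨⟨i.1, (Finset.mem_erase.1 i.2).2⟩,
        fun h => (Finset.mem_erase.1 i.2).1 (congrArg Subtype.val h)⟩
      left_inv := fun i => rfl
      right_inv := fun i => rfl }
  unfold Dt
  rw [← Matrix.det_submatrix_equiv_self e]
  congr 1
  ext i j
  rw [Matrix.submatrix_apply, Matrix.submatrix_apply, Matrix.updateRow_ne i.2, Matrix.of_apply,
    Matrix.of_apply]
  congr 1
  by_cases hij : i = j
  · subst hij; simp
  · have h1 : i.1 ≠ j.1 := fun h => hij (Subtype.ext h)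
    have h2 : e i ≠ e j := fun h => hij (e.injective h)
    rw [if_neg h1, if_neg h2]

theorem green_det (hw : ∀ u v, 0 ≤ w u v) {v : U} (hv : v ∈ B)
    (hfin : ∀ u ∈ B, ∑' n, ws w (fun u => if u = v then 1 else 0) B n (fun _ => 1) u ≠ ⊤) :
    Dt w B * (green w B v).toReal = Dt w (B.erase v) := by
  classical
  set T : U → ℝ≥0∞ := fun u => ∑' n, ws w (fun u => if u = v then 1 else 0) B n (fun _ => 1) u
    with hT
  have hTf : ∀ u ∈ B, T u ≠ ⊤ := hfin
  have hrec : ∀ u ∈ B, T u = (if u = v then 1 else 0) + ∑ u' ∈ B, ENNReal.ofReal (w u u') * T u' := by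
    intro u hu
    rw [hT]
    simp only
    rw [tsum_eq_zero_add' ENNReal.summable]
    congr 1
    · simp only [ws, if_pos hu, mul_one]
      by_cases h : u = v <;> simp [h]
    · simp only [ws, if_pos hu]
      rw [Summable.tsum_finsetSum fun _ _ => ENNReal.summable]
      exact Finset.sum_congr rfl fun u' _ => ENNReal.tsum_mul_left
  have hrec' : ∀ u ∈ B, (T u).toReal = (if u = v then 1 else 0) + ∑ u' ∈ B, w u u' * (T u').toReal := by
    intro u hu
    have h1 : ∀ u' ∈ B, ENNReal.ofReal (w u u') * T u' ≠ ⊤ := fun u' hu' =>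
      ENNReal.mul_ne_top ENNReal.ofReal_ne_top (hTf u' hu')
    have h0 : (if u = v then 1 else 0 : ℝ≥0∞) ≠ ⊤ := by split_ifs <;> simp
    rw [hrec u hu, ENNReal.toReal_add h0 (ENNReal.sum_ne_top.2 h1), ENNReal.toReal_sum h1]
    congr 1
    · split_ifs <;> simp
    · refine Finset.sum_congr rfl fun u' _ => ?_
      rw [ENNReal.toReal_mul, ENNReal.toReal_ofReal (hw u u')]
  set A : Matrix B B ℝ := Matrix.of fun i j : B => (if i = j then 1 else 0) - w i j with hA
  set f : B → ℝ := fun u => (T u).toReal with hf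
  have hAf : A.mulVec f = Pi.single (⟨v, hv⟩ : B) 1 := by
    funext u
    have h1 : ∑ u' : B, w u u' * (T u').toReal = ∑ u' ∈ B, w u u' * (T u').toReal :=
      Finset.sum_coe_sort B fun u' => w u u' * (T u').toReal
    simp only [Matrix.mulVec, dotProduct, hA, Matrix.of_apply, sub_mul, Finset.sum_sub_distrib,
      ite_mul, one_mul, zero_mul, Finset.sum_ite_eq, Finset.mem_univ, if_true, hf]
    rw [h1, hrec' u u.2]
    by_cases h : u = ⟨v, hv⟩
    · subst h; simp
    · have h2 : (u : U) ≠ v := fun h' => h (Subtype.ext h')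
      rw [Pi.single_eq_of_ne h, if_neg h2]
      ring
  have h2 : A.det * f ⟨v, hv⟩ = A.adjugate ⟨v, hv⟩ ⟨v, hv⟩ := by
    have h3 : A.adjugate.mulVec (A.mulVec f) = A.det • f := by
      rw [Matrix.mulVec_mulVec, Matrix.adjugate_mul, Matrix.smul_mulVec, Matrix.one_mulVec]
    rw [hAf] at h3
    have h4 := congrFun h3 ⟨v, hv⟩
    rw [Pi.smul_apply, smul_eq_mul] at h4
    rw [← h4, Matrix.mulVec_single_one]
    rfl
  rw [Matrix.adjugate_apply, hA, det_updateRow_Dt hv] at h2
  exact h2

/-- positivity and the product formula, for all subsets of `Λ` -/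
theorem Dt_green (hw : ∀ u v, 0 ≤ w u v) {Λ : Finset U}
    (hfin : ∀ v ∈ Λ, ∀ u ∈ Λ,
      ∑' n, ws w (fun u => if u = v then 1 else 0) Λ n (fun _ => 1) u ≠ ⊤) :
    (∀ B ⊆ Λ, 0 < Dt w B) ∧
    ∀ B ⊆ Λ, ∀ v ∈ B,
      ENNReal.ofReal (Dt w B) * green w B v = ENNReal.ofReal (Dt w (B.erase v)) := by
  have hfin' : ∀ B ⊆ Λ, ∀ v ∈ B, ∀ u ∈ B,
      ∑' n, ws w (fun u => if u = v then 1 else 0) B n (fun _ => 1) u ≠ ⊤ := by
    intro B hB v hv u hu
    refine ne_top_of_le_ne_top (hfin v (hB hv) u (hB hu)) ?_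
    exact ENNReal.tsum_le_tsum fun n => ws_mono_set hB n _ u
  have hpos : ∀ B ⊆ Λ, 0 < Dt w B := by
    intro B
    induction B using Finset.strongInduction with
    | H B ih =>
      intro hB
      rcases B.eq_empty_or_nonempty with rfl | ⟨v, hv⟩
      · rw [Dt_empty]; exact one_pos
      · have h1 := green_det hw hv (hfin' B hB v hv)
        have h2 := ih (B.erase v) (Finset.erase_ssubset hv) ((Finset.erase_subset _ _).trans hB)
        rw [← h1] at h2
        exact pos_of_mul_pos_left h2 ENNReal.toReal_nonneg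
  refine ⟨hpos, fun B hB v hv => ?_⟩
  have h1 := green_det hw hv (hfin' B hB v hv)
  have h3 : green w B v ≠ ⊤ := hfin' B hB v hv v hv
  rw [← h1, ENNReal.ofReal_mul (hpos B hB).le, ENNReal.ofReal_toReal h3]

end Pool.Agent.H39.LW
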