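import Pool.Agent.H39.LW.DetRec
import Pool.Agent.H39.LW.GreenDet

/-!
The base of the recursion: the mixed discriminant is the determinant of the Laplacian.
-/

open MvPolynomial Matrix

namespace Pool.Agent.H39.LW

set_option linter.unusedSectionVars false

variable {V : Type*} [Fintype V] [DecidableEq V]
variable {w : V → V → ℝ} {κ : V → ℝ} {wx : V → ℝ}

lemma det_padm {R : Type*} [CommRing R] (M : Matrix V V R) (C : Finset V) :
    (padm M Cᶜ).det = (Matrix.of fun i j : C => M i j).det := by
  rw [Matrix.twoBlockTriangular_det (padm M Cᶜ) (fun i => i ∈ C)]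
  · have h1 : (Matrix.toSquareBlockProp (padm M Cᶜ) fun i => ¬ i ∈ C).det = 1 := by
      have : Matrix.toSquareBlockProp (padm M Cᶜ) (fun i => ¬ i ∈ C) = 1 := by
        ext i j
        show padm M Cᶜ i j = _
        unfold padm
        rw [if_pos (Or.inl (Finset.mem_compl.2 i.2))]
        by_cases hij : i = j
        · subst hij; simp
        · rw [Matrix.one_apply_ne hij, Matrix.one_apply_ne (fun h => hij (Subtype.ext h))]
      rw [this, Matrix.det_one]
    rw [h1, mul_one]
    have h2 : Matrix.toSquareBlockProp (padm M Cᶜ) (fun i => i ∈ C)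
        = (Matrix.of fun i j : C => M i j) := by
      ext i j
      show padm M Cᶜ i j = M i j
      unfold padm
      rw [if_neg]
      simp only [Finset.mem_compl, not_or, not_not]
      exact ⟨i.2, j.2⟩
    rw [h2]
    have e : (Subtype.fintype fun i => i ∈ C) = Finset.Subtype.fintype C := Subsingleton.elim _ _
    exact congrArg (fun inst : Fintype {i // i ∈ C} =>
      @Matrix.det _ _ inst R _ (Matrix.of fun i j : C => M i j)) e
  · intro i hi j hj
    simp only [padm, Finset.mem_compl]
    rw [if_pos (Or.inl hi), Matrix.one_apply_ne]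
    rintro rfl
    exact hi hj

/-- the functional attached to a list of vertices -/
noncomputable def El (wx : V → ℝ) (l : List V) (g : MvPolynomial (V ⊕ V) ℝ) : ℝ :=
  eval 0 (ops 0 (l.map fun v => (wx v, Pi.single (Sum.inl v) 1)) g)

lemma El_nil (g : MvPolynomial (V ⊕ V) ℝ) : El wx [] g = eval 0 g := rfl

lemma El_cons (v : V) (l : List V) (g : MvPolynomial (V ⊕ V) ℝ) :
    El wx (v :: l) g = wx v * El wx l g + El wx l (pderiv (Sum.inl v) g) := by
  unfold El
  rw [List.map_cons, ops_cons', dir_single, ops_add, ops_Cmul]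
  simp

lemma El_Cmul (l : List V) (c : ℝ) (g : MvPolynomial (V ⊕ V) ℝ) :
    El wx l (C c * g) = c * El wx l g := by
  unfold El
  rw [ops_Cmul]; simp

lemma El_sum {ι : Type*} (l : List V) (s : Finset ι) (g : ι → MvPolynomial (V ⊕ V) ℝ) :
    El wx l (∑ i ∈ s, g i) = ∑ i ∈ s, El wx l (g i) := by
  unfold El
  rw [ops_sum]; simp

lemma pderiv_mon (i : V ⊕ V) (m : V ⊕ V →₀ ℕ) :
    pderiv i (monomial m (1 : ℝ)) = C ((m i : ℕ) : ℝ) * monomial (m - Finsupp.single i 1) 1 := by
  rw [pderiv_monomial, C_mul_monomial]
  congr 1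
  ring

lemma El_mon_zero (l : List V) : ∀ m : V ⊕ V →₀ ℕ, l.length < m.degree →
    El wx l (monomial m 1) = 0 := by
  induction l with
  | nil =>
    intro m hm
    rw [El_nil, eval_monomial, one_mul]
    have : m ≠ 0 := by
      rintro rfl
      simp at hm
    obtain ⟨i, hi⟩ := Finsupp.ne_iff.1 this
    rw [Finsupp.prod, Finset.prod_eq_zero (i := i)]
    · simpa using hi
    · simp only [Pi.zero_apply]
      exact zero_pow (by simpa using hi)
  | cons v l ih =>
    intro m hm
    rw [El_cons, ih m (by simp only [List.length_cons] at hm; omega), mul_zero, zero_add,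
      pderiv_mon, El_Cmul]
    by_cases h0 : m (Sum.inl v) = 0
    · rw [h0]; simp
    · rw [ih, mul_zero]
      have hle : Finsupp.single (Sum.inl v) 1 ≤ m := by
        rw [Finsupp.single_le_iff]; omega
      have := congrArg Finsupp.degree (tsub_add_cancel_of_le hle)
      rw [map_add, Finsupp.degree_single] at this
      simp only [List.length_cons] at hm
      omega

lemma El_mon_eq (l : List V) (hl : l.Nodup) : ∀ m : V ⊕ V →₀ ℕ, m.degree = l.length →
    El wx l (monomial m 1)
      = if m = (l.map fun v => Finsupp.single (Sum.inl v : V ⊕ V) 1).sum then 1 else 0 := by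
  induction l with
  | nil =>
    intro m hm
    have : m = 0 := by
      rw [← Finsupp.degree_eq_zero_iff]
      simpa using hm
    subst this
    rw [El_nil]
    simp
  | cons v l ih =>
    intro m hm
    rw [List.nodup_cons] at hl
    rw [El_cons, El_mon_zero l m (by simp only [List.length_cons] at hm; omega), mul_zero, zero_add,
      pderiv_mon, El_Cmul]
    have hv0 : (l.map fun v => Finsupp.single (Sum.inl v : V ⊕ V) 1).sum (Sum.inl v) = 0 := by
      have : ∀ l : List V, v ∉ l →
          (l.map fun v => Finsupp.single (Sum.inl v : V ⊕ V) 1).sum (Sum.inl v) = 0 := by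
        intro l
        induction l with
        | nil => intro _; rfl
        | cons u l ih' =>
          intro h
          rw [List.mem_cons, not_or] at h
          rw [List.map_cons, List.sum_cons, Finsupp.add_apply, ih' h.2, add_zero,
            Finsupp.single_apply, if_neg]
          intro hh
          exact h.1 (Sum.inl_injective hh).symm
      exact this l hl.1
    rw [List.map_cons, List.sum_cons]
    by_cases h0 : m (Sum.inl v) = 0
    · rw [h0, if_neg]
      · simp
      · intro h
        have := DFunLike.congr_fun h (Sum.inl v)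
        rw [h0, Finsupp.add_apply, Finsupp.single_eq_same] at this
        omega
    · have hle : Finsupp.single (Sum.inl v) 1 ≤ m := by
        rw [Finsupp.single_le_iff]; omega
      have hm' := tsub_add_cancel_of_le hle
      have hdeg := congrArg Finsupp.degree hm'
      rw [map_add, Finsupp.degree_single] at hdeg
      simp only [List.length_cons] at hm
      rw [ih hl.2 _ (by omega)]
      by_cases hh : m - Finsupp.single (Sum.inl v) 1
          = (l.map fun v => Finsupp.single (Sum.inl v : V ⊕ V) 1).sum
      · have hm2 : m = Finsupp.single (Sum.inl v) 1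
            + (l.map fun v => Finsupp.single (Sum.inl v : V ⊕ V) 1).sum := by
          rw [← hh, add_comm]; exact hm'.symm
        rw [if_pos hh, if_pos hm2]
        have : m (Sum.inl v) = 1 := by
          conv_lhs => rw [hm2]
          rw [Finsupp.add_apply, Finsupp.single_eq_same, hv0]
        rw [this]; simp
      · rw [if_neg hh, if_neg, mul_zero]
        intro h
        apply hh
        rw [h, add_tsub_cancel_left]

/-- `∑_v single (inl v) 1` over `C`, two ways -/
lemma sum_single_toList (C : Finset V) :
    (C.toList.map fun v => Finsupp.single (Sum.inl v : V ⊕ V) 1).sum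
      = ∑ i : C, Finsupp.single (Sum.inl (i : V) : V ⊕ V) 1 := by
  rw [Finset.sum_coe_sort C (fun v => (Finsupp.single (Sum.inl v : V ⊕ V) 1 : V ⊕ V →₀ ℕ))]
  exact Finset.sum_map_toList C _

lemma sum_single_apply {ι : Type*} [Fintype ι] {σ : Type*} [DecidableEq σ] (p : ι → σ) (s : σ) :
    (∑ i, Finsupp.single (p i) 1 : σ →₀ ℕ) s = (Finset.univ.filter fun i => p i = s).card := by
  rw [Finsupp.finsetSum_apply, Finset.card_filter]
  refine Finset.sum_congr rfl fun i _ => ?_
  rw [Finsupp.single_apply]

/-- maps `C → V ⊕ V` with the right content are the permutations of `C` -/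
lemma perm_of_content {C : Finset V} {p : C → V ⊕ V}
    (h : (∑ i, Finsupp.single (p i) 1 : V ⊕ V →₀ ℕ)
      = ∑ i : C, Finsupp.single (Sum.inl (i : V) : V ⊕ V) 1) :
    ∃ χ : Equiv.Perm C, ∀ i, p i = Sum.inl (χ i : V) := by
  have h1 : ∀ i, ∃ j : C, p i = Sum.inl (j : V) := by
    intro i
    have h2 := DFunLike.congr_fun h (p i)
    rw [sum_single_apply, sum_single_apply] at h2
    have h3 : 0 < (Finset.univ.filter fun j => p j = p i).card :=
      Finset.card_pos.2 ⟨i, by simp⟩
    rw [h2] at h3
    obtain ⟨j, hj⟩ := Finset.card_pos.1 h3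
    exact ⟨j, (Finset.mem_filter.1 hj).2.symm⟩
  choose f hf using h1
  have hinj : Function.Injective f := by
    intro i j hij
    by_contra hne
    have h2 := DFunLike.congr_fun h (Sum.inl (f i : V))
    rw [sum_single_apply, sum_single_apply] at h2
    have h3 : 1 < (Finset.univ.filter fun k => p k = Sum.inl (f i : V)).card := by
      rw [Finset.one_lt_card]
      exact ⟨i, by simp [hf], j, by simp [hf, hij], hne⟩
    have h4 : (Finset.univ.filter fun k : C => (Sum.inl (k : V) : V ⊕ V) = Sum.inl (f i : V)).card
        ≤ 1 := by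
      rw [Finset.card_le_one]
      intro a ha b hb
      have ha' := (Finset.mem_filter.1 ha).2
      have hb' := (Finset.mem_filter.1 hb).2
      exact Subtype.ext (Sum.inl_injective (ha'.trans hb'.symm))
    omega
  refine ⟨Equiv.ofBijective f (Finite.injective_iff_bijective.1 hinj), fun i => ?_⟩
  rw [hf]; rfl

/-- coefficients of the matrix in all variables -/
noncomputable def Bm (w : V → V → ℝ) (κ : V → ℝ) : V ⊕ V → V → V → ℝ
  | Sum.inl v, i, j => Amat w κ v i j
  | Sum.inr v, i, j => if i = j ∧ i = v then 1 else 0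

lemma Mmat_eq (i j : V) : Mmat w κ i j = ∑ s : V ⊕ V, X s * C (Bm w κ s i j) := by
  rw [Fintype.sum_sum_type]
  unfold Mmat Bm
  congr 1
  by_cases h : i = j
  · subst h
    rw [if_pos rfl, Finset.sum_eq_single i]
    · simp
    · intro v _ hv
      simp [Ne.symm hv]
    · simp
  · rw [if_neg h, Finset.sum_eq_zero]
    intro v _
    simp [h]

/-- the mixed discriminant -/
lemma Fv_compl (C : Finset V) :
    Fv w κ wx C Cᶜ = ∑ χ : Equiv.Perm C,
      (Matrix.of fun j i : C => Amat w κ (χ i) j i).det := by
  have h0 : Fv w κ wx C Cᶜ = El wx C.toList (fU w κ Cᶜ) := rfl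
  rw [h0]
  unfold fU
  rw [det_padm, Matrix.det_apply']
  have h1 : ∀ π : Equiv.Perm C,
      El wx C.toList (((Equiv.Perm.sign π : ℤ) : MvPolynomial (V ⊕ V) ℝ)
        * ∏ i : C, (Matrix.of fun i j : C => Mmat w κ i j) (π i) i)
      = ∑ χ : Equiv.Perm C, ((Equiv.Perm.sign π : ℤ) : ℝ)
          * ∏ i : C, (Matrix.of fun j i : C => Amat w κ (χ i) j i) (π i) i := by
    intro π
    have e1 : ∏ i : C, (Matrix.of fun i j : C => Mmat w κ i j) (π i) i
        = ∑ p : C → V ⊕ V, MvPolynomial.C (∏ i : C, Bm w κ (p i) (π i) i)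
            * monomial (∑ i, Finsupp.single (p i) 1) 1 := by
      have : ∀ i : C, (Matrix.of fun i j : C => Mmat w κ i j) (π i) i
          = ∑ s : V ⊕ V, X s * MvPolynomial.C (Bm w κ s (π i) i) := fun i => Mmat_eq _ _
      rw [Finset.prod_congr rfl fun i _ => this i, Finset.prod_univ_sum, Fintype.piFinset_univ]
      refine Finset.sum_congr rfl fun p _ => ?_
      rw [Finset.prod_mul_distrib, map_prod, mul_comm]
      congr 1
      rw [monomial_sum_one]
      rfl
    have e2 : (((Equiv.Perm.sign π : ℤ)) : MvPolynomial (V ⊕ V) ℝ)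
        = MvPolynomial.C ((Equiv.Perm.sign π : ℤ) : ℝ) := by simp
    rw [e2, El_Cmul, e1, El_sum, ← Finset.mul_sum]
    congr 1
    have e3 : ∀ p : C → V ⊕ V, El wx C.toList (MvPolynomial.C (∏ i : C, Bm w κ (p i) (π i) i)
            * monomial (∑ i, Finsupp.single (p i) 1) 1)
        = if (∑ i, Finsupp.single (p i) 1 : V ⊕ V →₀ ℕ)
            = ∑ i : C, Finsupp.single (Sum.inl (i : V) : V ⊕ V) 1
          then ∏ i : C, Bm w κ (p i) (π i) i else 0 := by
      intro p
      rw [El_Cmul, El_mon_eq _ C.nodup_toList, sum_single_toList]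
      · split_ifs <;> simp
      · rw [map_sum, Finset.length_toList]
        simp
    rw [Finset.sum_congr rfl fun p _ => e3 p, ← Finset.sum_filter]
    symm
    refine Finset.sum_bij (fun χ _ => fun i => Sum.inl (χ i : V)) ?_ ?_ ?_ ?_
    · intro χ _
      rw [Finset.mem_filter]
      refine ⟨Finset.mem_univ _, ?_⟩
      exact Equiv.sum_comp χ (fun i : C => (Finsupp.single (Sum.inl (i : V) : V ⊕ V) 1 : V ⊕ V →₀ ℕ))
    · intro χ _ χ' _ hh
      ext i
      have := congrFun hh i
      exact Sum.inl_injective this
    · intro p hp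
      obtain ⟨χ, hχ⟩ := perm_of_content (Finset.mem_filter.1 hp).2
      exact ⟨χ, Finset.mem_univ _, funext fun i => (hχ i).symm⟩
    · intro χ _
      rfl
  rw [El_sum, Finset.sum_congr rfl fun π _ => h1 π, Finset.sum_comm]
  refine Finset.sum_congr rfl fun χ _ => ?_
  rw [Matrix.det_apply']

lemma Amat_col {v i : V} (hvi : v ≠ i) (j : V) : Amat w κ v j i = w v i * (dl i j - dl v j) := by
  unfold Amat
  rw [dl_ne hvi]
  rw [Finset.sum_eq_single i]
  · rw [dl_self]; ring
  · intro u _ hu
    rw [dl_ne hu]; ring
  · simp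

/-- only the identity contributes -/
lemma det_perm_zero {C : Finset V} {χ : Equiv.Perm C} (hχ : χ ≠ 1) :
    (Matrix.of fun j i : C => Amat w κ (χ i) j i).det = 0 := by
  obtain ⟨i0, hi0⟩ : ∃ i, χ i ≠ i := by
    by_contra h
    push Not at h
    exact hχ (Equiv.ext h)
  by_cases hz : ∃ i, χ i ≠ i ∧ w (χ i) i = 0
  · obtain ⟨i, hi, hwi⟩ := hz
    refine Matrix.det_eq_zero_of_column_eq_zero i fun j => ?_
    rw [Matrix.of_apply, Amat_col (fun h => hi (Subtype.ext h)), hwi, zero_mul]
  · push Not at hz
    refine Matrix.exists_mulVec_eq_zero_iff.1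
      ⟨fun i => if χ i = i then 0 else (w (χ i) i)⁻¹, ?_, ?_⟩
    · intro h
      have := congrFun h i0
      rw [if_neg hi0] at this
      exact hz i0 hi0 (inv_eq_zero.1 this)
    · funext j
      rw [Matrix.mulVec, dotProduct]
      have : ∀ i : C, (Matrix.of fun j i : C => Amat w κ (χ i) j i) j i
            * (if χ i = i then 0 else (w (χ i) i)⁻¹) = dl (i : V) j - dl (χ i : V) j := by
        intro i
        split_ifs with h
        · rw [h]; ring
        · rw [Matrix.of_apply, Amat_col (fun h' => h (Subtype.ext h'))]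
          have := hz i h
          field_simp
      rw [Finset.sum_congr rfl fun i _ => this i, Finset.sum_sub_distrib,
        Equiv.sum_comp χ (fun i : C => dl (i : V) j), sub_self]
      rfl

theorem Fv_base (hdeg : ∀ v, ∑ u, w v u + κ v = 1) (hdiag : ∀ v, w v v = 0) (C : Finset V) :
    Fv w κ wx C Cᶜ = Dt w C := by
  rw [Fv_compl, Finset.sum_eq_single 1]
  · unfold Dt
    rw [← Matrix.det_transpose]
    congr 1
    ext i j
    rw [Matrix.transpose_apply, Matrix.of_apply, Matrix.of_apply, Equiv.Perm.one_apply]
    by_cases hij : i = j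
    · subst hij
      rw [if_pos rfl, hdiag, sub_zero, ← hdeg i]
      unfold Amat
      rw [dl_self]
      congr 1
      · refine Finset.sum_congr rfl fun u _ => ?_
        by_cases hu : u = (i : V)
        · rw [hu, hdiag]; ring
        · rw [dl_ne hu]; ring
      · ring
    · have hij' : (i : V) ≠ j := fun h => hij (Subtype.ext h)
      rw [if_neg hij]
      unfold Amat
      rw [dl_self, dl_ne hij', Finset.sum_eq_single (j : V)]
      · rw [dl_self, dl_ne hij'.symm]; ring
      · intro u _ hu
        rw [dl_ne hu]; ring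
      · simp
  · intro χ _ hχ
    exact det_perm_zero hχ
  · simp

end Pool.Agent.H39.LW
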