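import Mathlib

/-!
Path sums: weighted sums over self-avoiding paths, defined by removing the first vertex.
-/

namespace Pool.Agent.H39.LW

variable {U : Type*} [DecidableEq U]

/-- `R1 w ψ g B v` is the sum over all self-avoiding paths `v = v₀, …, v_k` inside `B` of
`w v₀ v₁ ⋯ w v_{k-1} v_k * ψ v_k * g (B \ {v₀, …, v_k})`. -/
noncomputable def R1 (w : U → U → ℝ) (ψ : U → ℝ) (g : Finset U → ℝ) (B : Finset U) (v : U) : ℝ :=
  if h : v ∈ B then
    ψ v * g (B.erase v) + ∑ u ∈ B.erase v, w v u * R1 w ψ g (B.erase v) u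
  else 0
termination_by B.card
decreasing_by exact Finset.card_erase_lt_of_mem h

variable {w : U → U → ℝ} {ψ φ : U → ℝ} {g : Finset U → ℝ}

lemma R1_mem {B : Finset U} {v : U} (h : v ∈ B) :
    R1 w ψ g B v = ψ v * g (B.erase v) + ∑ u ∈ B.erase v, w v u * R1 w ψ g (B.erase v) u := by
  rw [R1, dif_pos h]

lemma R1_notMem {B : Finset U} {v : U} (h : v ∉ B) : R1 w ψ g B v = 0 := by
  rw [R1, dif_neg h]

lemma R1_congr {g' : Finset U → ℝ} (B : Finset U) : ∀ v, (∀ C ⊆ B.erase v, g C = g' C) →
    R1 w ψ g B v = R1 w ψ g' B v := by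
  induction B using Finset.strongInduction with
  | H B ih =>
    intro v hC
    by_cases h : v ∈ B
    · rw [R1_mem h, R1_mem h, hC _ (Finset.Subset.refl _)]
      congr 1
      refine Finset.sum_congr rfl fun u _ => ?_
      rw [ih _ (Finset.erase_ssubset h) u fun C hC' =>
        hC C (hC'.trans (Finset.erase_subset _ _))]
    · rw [R1_notMem h, R1_notMem h]

lemma R1_congr_ψ {ψ' : U → ℝ} (B : Finset U) : ∀ v, (∀ u ∈ B, ψ u = ψ' u) →
    R1 w ψ g B v = R1 w ψ' g B v := by
  induction B using Finset.strongInduction with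
  | H B ih =>
    intro v hC
    by_cases h : v ∈ B
    · rw [R1_mem h, R1_mem h, hC _ h]
      congr 1
      refine Finset.sum_congr rfl fun u _ => ?_
      rw [ih _ (Finset.erase_ssubset h) u fun u' hu' => hC u' (Finset.mem_of_mem_erase hu')]
    · rw [R1_notMem h, R1_notMem h]

lemma R1_zero {B : Finset U} {v : U} (h : ∀ C ⊆ B.erase v, g C = 0) : R1 w ψ g B v = 0 := by
  have h0 : ∀ B : Finset U, ∀ v, R1 w ψ (fun _ => 0) B v = 0 := by
    intro B
    induction B using Finset.strongInduction with
    | H B ih =>
      intro v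
      by_cases h : v ∈ B
      · rw [R1_mem h, mul_zero, zero_add]
        refine Finset.sum_eq_zero fun u _ => ?_
        rw [ih _ (Finset.erase_ssubset h), mul_zero]
      · rw [R1_notMem h]
  rw [R1_congr (g' := fun _ => 0) B v h, h0]

lemma R1_smul (c : ℝ) (B : Finset U) : ∀ v, R1 w ψ (fun C => c * g C) B v = c * R1 w ψ g B v := by
  induction B using Finset.strongInduction with
  | H B ih =>
    intro v
    by_cases h : v ∈ B
    · rw [R1_mem h, R1_mem h, mul_add, Finset.mul_sum]
      congr 1
      · ring
      · refine Finset.sum_congr rfl fun u _ => ?_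
        rw [ih _ (Finset.erase_ssubset h)]; ring
    · rw [R1_notMem h, R1_notMem h, mul_zero]

lemma R1_sum {ι : Type*} (s : Finset ι) (G : ι → Finset U → ℝ) (B : Finset U) :
    ∀ v, R1 w ψ (fun C => ∑ i ∈ s, G i C) B v = ∑ i ∈ s, R1 w ψ (G i) B v := by
  induction B using Finset.strongInduction with
  | H B ih =>
    intro v
    by_cases h : v ∈ B
    · simp only [R1_mem h]
      rw [Finset.sum_add_distrib, Finset.mul_sum, Finset.sum_comm]
      congr 1
      refine Finset.sum_congr rfl fun u _ => ?_
      rw [ih _ (Finset.erase_ssubset h), Finset.mul_sum]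
    · simp only [R1_notMem h, Finset.sum_const_zero]

lemma R1_nonneg (hw : ∀ u v, 0 ≤ w u v) (hψ : ∀ u, 0 ≤ ψ u) (hg : ∀ C, 0 ≤ g C) (B : Finset U) :
    ∀ v, 0 ≤ R1 w ψ g B v := by
  induction B using Finset.strongInduction with
  | H B ih =>
    intro v
    by_cases h : v ∈ B
    · rw [R1_mem h]
      exact add_nonneg (mul_nonneg (hψ _) (hg _))
        (Finset.sum_nonneg fun u _ => mul_nonneg (hw _ _) (ih _ (Finset.erase_ssubset h) u))
    · rw [R1_notMem h]

/-- two-ended path sums -/
noncomputable def R2 (w : U → U → ℝ) (g : Finset U → ℝ) (B : Finset U) (u v : U) : ℝ :=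
  R1 w (fun z => if z = v then 1 else 0) g B u

lemma R2_notMem_left {B : Finset U} {u v : U} (h : u ∉ B) : R2 w g B u v = 0 := R1_notMem h

lemma R2_notMem_right (B : Finset U) : ∀ {u v : U}, v ∉ B → R2 w g B u v = 0 := by
  induction B using Finset.strongInduction with
  | H B ih =>
    intro u v hv
    unfold R2
    by_cases h : u ∈ B
    · rw [R1_mem h]
      have huv : u ≠ v := by rintro rfl; exact hv h
      rw [if_neg huv, zero_mul, zero_add]
      refine Finset.sum_eq_zero fun u' _ => ?_
      have := ih _ (Finset.erase_ssubset h) (u := u') (v := v)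
        (fun hh => hv (Finset.mem_of_mem_erase hh))
      unfold R2 at this
      rw [this, mul_zero]
    · rw [R1_notMem h]

lemma R2_self {B : Finset U} {v : U} (h : v ∈ B) : R2 w g B v v = g (B.erase v) := by
  unfold R2
  rw [R1_mem h, if_pos rfl, one_mul]
  rw [Finset.sum_eq_zero, add_zero]
  intro u _
  have := R2_notMem_right (w := w) (g := g) (B.erase v) (u := u) (v := v) (Finset.notMem_erase v B)
  unfold R2 at this
  rw [this, mul_zero]

lemma R2_first {B : Finset U} {u v : U} (hu : u ∈ B) (huv : u ≠ v) :
    R2 w g B u v = ∑ u' ∈ B.erase u, w u u' * R2 w g (B.erase u) u' v := by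
  unfold R2
  rw [R1_mem hu, if_neg huv, zero_mul, zero_add]

lemma R2_last (B : Finset U) : ∀ {u v : U}, v ∈ B → u ≠ v →
    R2 w g B u v = ∑ v' ∈ B.erase v, R2 w g (B.erase v) u v' * w v' v := by
  induction B using Finset.strongInduction with
  | H B ih =>
    intro u v hv huv
    by_cases hu : u ∈ B
    · rw [R2_first hu huv]
      have hvu : v ∈ B.erase u := Finset.mem_erase.2 ⟨huv.symm, hv⟩
      have huv' : u ∈ B.erase v := Finset.mem_erase.2 ⟨huv, hu⟩
      rw [← Finset.add_sum_erase _ _ hvu, ← Finset.add_sum_erase _ _ huv']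
      rw [R2_self hvu, R2_self huv']
      have he : (B.erase u).erase v = (B.erase v).erase u := Finset.erase_right_comm
      rw [he]
      congr 1
      · ring
      · have h1 : ∀ u' ∈ (B.erase v).erase u, w u u' * R2 w g (B.erase u) u' v
            = ∑ v' ∈ (B.erase v).erase u, w u u' * (R2 w g ((B.erase v).erase u) u' v' * w v' v) := by
          intro u' hu'
          have hne : u' ≠ v := fun h => by
            rw [h] at hu'
            exact Finset.notMem_erase v B (Finset.mem_of_mem_erase hu')
          rw [ih _ (Finset.erase_ssubset hu) hvu hne, he, Finset.mul_sum]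
        have h2 : ∀ v' ∈ (B.erase v).erase u, R2 w g (B.erase v) u v' * w v' v
            = ∑ u' ∈ (B.erase v).erase u, w u u' * (R2 w g ((B.erase v).erase u) u' v' * w v' v) := by
          intro v' hv'
          have hne : u ≠ v' := fun h => by
            rw [← h] at hv'
            exact Finset.notMem_erase _ _ hv'
          rw [R2_first huv' hne, Finset.sum_mul]
          refine Finset.sum_congr rfl fun u' _ => ?_
          ring
        rw [Finset.sum_congr rfl h1, Finset.sum_congr rfl h2, Finset.sum_comm]
    · rw [R2_notMem_left hu]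
      symm
      refine Finset.sum_eq_zero fun v' _ => ?_
      rw [R2_notMem_left (fun h => hu (Finset.mem_of_mem_erase h)), zero_mul]

lemma R2_symm (hw : ∀ u v, w u v = w v u) (B : Finset U) : ∀ u v : U,
    R2 w g B u v = R2 w g B v u := by
  induction B using Finset.strongInduction with
  | H B ih =>
    intro u v
    by_cases huv : u = v
    · rw [huv]
    by_cases hu : u ∈ B
    · rw [R2_first hu huv, R2_last B hu (fun h => huv h.symm)]
      refine Finset.sum_congr rfl fun u' _ => ?_
      rw [ih _ (Finset.erase_ssubset hu), hw u u']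
      ring
    · rw [R2_notMem_left hu, R2_notMem_right B hu]

lemma R1_eq_sum_R2 (B : Finset U) : ∀ u, R1 w ψ g B u = ∑ v ∈ B, ψ v * R2 w g B u v := by
  induction B using Finset.strongInduction with
  | H B ih =>
    intro u
    by_cases hu : u ∈ B
    · rw [R1_mem hu, ← Finset.add_sum_erase _ _ hu, R2_self hu]
      congr 1
      have h1 : ∀ u' ∈ B.erase u, w u u' * R1 w ψ g (B.erase u) u'
          = ∑ v ∈ B.erase u, ψ v * (w u u' * R2 w g (B.erase u) u' v) := by
        intro u' _
        rw [ih _ (Finset.erase_ssubset hu), Finset.mul_sum]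
        refine Finset.sum_congr rfl fun v _ => ?_
        ring
      rw [Finset.sum_congr rfl h1, Finset.sum_comm]
      refine Finset.sum_congr rfl fun v hv => ?_
      rw [R2_first hu (Finset.ne_of_mem_erase hv).symm, Finset.mul_sum]
    · rw [R1_notMem hu]
      symm
      refine Finset.sum_eq_zero fun v _ => ?_
      rw [R2_notMem_left hu, mul_zero]

/-- reversal of paths -/
theorem R1_reverse (hw : ∀ u v, w u v = w v u) (B : Finset U) :
    ∑ u ∈ B, φ u * R1 w ψ g B u = ∑ v ∈ B, ψ v * R1 w φ g B v := by
  simp only [R1_eq_sum_R2 B, Finset.mul_sum]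
  rw [Finset.sum_comm]
  refine Finset.sum_congr rfl fun v _ => Finset.sum_congr rfl fun u _ => ?_
  rw [R2_symm hw B u v]
  ring

/-- splitting a path at a vertex it has to visit -/
theorem R1_split {x : U} (hg : ∀ C, x ∈ C → g C = 0) (B : Finset U) (hx : x ∉ B) : ∀ a, a ≠ x →
    R1 w ψ g (insert x B) a
      = R1 w (fun v => w v x) (fun C => R1 w ψ g (insert x C) x) B a := by
  induction B using Finset.strongInduction with
  | H B ih =>
    intro a hax
    by_cases ha : a ∈ B
    · rw [R1_mem (Finset.mem_insert_of_mem ha), R1_mem ha]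
      have he : (insert x B).erase a = insert x (B.erase a) :=
        Finset.erase_insert_of_ne hax.symm
      have hx' : x ∉ B.erase a := fun h => hx (Finset.mem_of_mem_erase h)
      rw [he, hg _ (Finset.mem_insert_self _ _), mul_zero, zero_add, Finset.sum_insert hx']
      congr 1
      refine Finset.sum_congr rfl fun u hu => ?_
      rw [ih _ (Finset.erase_ssubset ha) hx' u (fun h => hx' (h ▸ hu))]
    · rw [R1_notMem ha, R1_notMem]
      simp [ha, hax]

lemma R1_insert_self {x : U} {C : Finset U} (hx : x ∉ C) :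
    R1 w ψ g (insert x C) x = ψ x * g C + ∑ u ∈ C, w x u * R1 w ψ g C u := by
  rw [R1_mem (Finset.mem_insert_self _ _), Finset.erase_insert hx]

/-- Transport along an embedding. -/
theorem R1_map {V : Type*} [DecidableEq V] (f : V ↪ U) (B : Finset V) : ∀ v,
    R1 w ψ g (B.map f) (f v)
      = R1 (fun a b => w (f a) (f b)) (fun a => ψ (f a)) (fun C => g (C.map f)) B v := by
  induction B using Finset.strongInduction with
  | H B ih =>
    intro v
    have hm : f v ∈ B.map f ↔ v ∈ B := by simp
    by_cases hv : v ∈ B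
    · rw [R1_mem (hm.2 hv), R1_mem hv]
      have he : (B.map f).erase (f v) = (B.erase v).map f := (Finset.map_erase f B v).symm
      rw [he, Finset.sum_map]
      congr 1
      refine Finset.sum_congr rfl fun u _ => ?_
      rw [ih _ (Finset.erase_ssubset hv)]
    · rw [R1_notMem (fun h => hv (hm.1 h)), R1_notMem hv]

end Pool.Agent.H39.LW
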