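import Mathlib

/-!
Real stable polynomials: the two closure facts used for the correlation inequality of
loop-erased random walk (MP_23bc29_pr).
-/

open MvPolynomial

namespace Pool.Agent.H39.LW

set_option linter.unusedSectionVars false

variable {σ : Type*} [Fintype σ] [DecidableEq σ]

/-- A real polynomial without zeros whose coordinates all have positive imaginary part. -/
def Stable (g : MvPolynomial σ ℝ) : Prop :=
  ∀ p : σ → ℂ, (∀ i, 0 < (p i).im) → aeval p g ≠ 0

/-- Directional derivative. -/
noncomputable def dir (δ : σ → ℝ) (g : MvPolynomial σ ℝ) : MvPolynomial σ ℝ :=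
  ∑ i, C (δ i) * pderiv i g

/-- restriction to the line `p + τ δ` -/
noncomputable def line (p : σ → ℂ) (δ : σ → ℝ) (g : MvPolynomial σ ℝ) : Polynomial ℂ :=
  aeval (fun i => Polynomial.C (p i) + Polynomial.X * Polynomial.C (δ i : ℂ)) g

lemma eval_line (p : σ → ℂ) (δ : σ → ℝ) (g : MvPolynomial σ ℝ) (t : ℂ) :
    (line p δ g).eval t = aeval (fun i => p i + t * (δ i : ℂ)) g := by
  unfold line
  induction g using MvPolynomial.induction_on with
  | C a => simp [Polynomial.algebraMap_apply]
  | add f g hf hg => simp only [map_add, Polynomial.eval_add, hf, hg]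
  | mul_X f i hf =>
    simp only [map_mul, Polynomial.eval_mul, hf, aeval_X]
    rw [Polynomial.eval_add, Polynomial.eval_mul, Polynomial.eval_C, Polynomial.eval_X,
      Polynomial.eval_C]

lemma dir_mul (δ : σ → ℝ) (f g : MvPolynomial σ ℝ) :
    dir δ (f * g) = dir δ f * g + f * dir δ g := by
  unfold dir
  rw [Finset.sum_mul, Finset.mul_sum, ← Finset.sum_add_distrib]
  refine Finset.sum_congr rfl fun i _ => ?_
  rw [pderiv_mul]; ring

lemma dir_add (δ : σ → ℝ) (f g : MvPolynomial σ ℝ) :
    dir δ (f + g) = dir δ f + dir δ g := by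
  unfold dir
  rw [← Finset.sum_add_distrib]
  refine Finset.sum_congr rfl fun i _ => ?_
  rw [map_add]; ring

lemma dir_C (δ : σ → ℝ) (a : ℝ) : dir δ (C a) = 0 := by
  unfold dir; simp

lemma dir_X (δ : σ → ℝ) (i : σ) : dir δ (X i) = C (δ i) := by
  unfold dir
  rw [Finset.sum_eq_single i]
  · simp
  · intro j _ hj
    rw [pderiv_X_of_ne hj.symm]; simp
  · simp

lemma derivative_line (p : σ → ℂ) (δ : σ → ℝ) (g : MvPolynomial σ ℝ) :
    Polynomial.derivative (line p δ g) = line p δ (dir δ g) := by
  induction g using MvPolynomial.induction_on with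
  | C a =>
    rw [dir_C]
    simp [line, Polynomial.algebraMap_apply]
  | add f g hf hg =>
    rw [dir_add]
    simp only [line, map_add] at *
    rw [hf, hg]
  | mul_X f i hf =>
    rw [dir_mul, dir_X]
    simp only [line, map_mul, map_add, aeval_X, Polynomial.derivative_mul] at *
    rw [hf]
    simp [Polynomial.algebraMap_apply]

lemma pderiv_comm' (a b : σ) (g : MvPolynomial σ ℝ) :
    pderiv a (pderiv b g) = pderiv b (pderiv a g) := by
  induction g using MvPolynomial.induction_on with
  | C a => simp
  | add f g hf hg => simp only [map_add, hf, hg]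
  | mul_X f i hf =>
    have hX : ∀ c d : σ, pderiv c (pderiv d (X i : MvPolynomial σ ℝ)) = 0 := by
      intro c d
      rw [pderiv_X]
      by_cases h : d = i
      · subst h; simp
      · simp [Pi.single_eq_of_ne' h]
    simp only [pderiv_mul, map_add, hf, hX]
    ring

theorem Stable.op {g : MvPolynomial σ ℝ} (hg : Stable g) {c : ℝ} (hc : 0 < c) {δ : σ → ℝ}
    (hδ : ∀ i, 0 ≤ δ i) : Stable (C c * g + dir δ g) := by
  intro p hp h0
  have hq : ∀ t : ℂ, 0 ≤ t.im → (line p δ g).eval t ≠ 0 := by
    intro t ht
    rw [eval_line]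
    apply hg
    intro i
    have : (p i + t * (δ i : ℂ)).im = (p i).im + t.im * δ i := by simp
    rw [this]
    have := mul_nonneg ht (hδ i)
    have := hp i
    linarith
  have h00 : (line p δ g).eval 0 ≠ 0 := hq 0 (by simp)
  have e1 : (line p δ g).eval 0 = aeval p g := by rw [eval_line]; simp
  have e2 : (Polynomial.derivative (line p δ g)).eval 0 = aeval p (dir δ g) := by
    rw [derivative_line, eval_line]; simp
  have hsum := (IsAlgClosed.splits (line p δ g)).eval_derivative_div_eval_of_ne_zero h00
  have hmain : (Polynomial.derivative (line p δ g)).eval 0 / (line p δ g).eval 0 = -(c : ℂ) := by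
    rw [div_eq_iff h00, e1, e2]
    have : aeval p (C c * g + dir δ g) = (c : ℂ) * aeval p g + aeval p (dir δ g) := by
      simp
    rw [this] at h0
    linear_combination h0
  rw [hmain] at hsum
  have him := congrArg Complex.im hsum
  have hroots : ∀ z ∈ (line p δ g).roots, z.im < 0 := by
    intro z hz
    by_contra hcon
    push Not at hcon
    have := (Polynomial.mem_roots'.1 hz).2
    exact hq z hcon this
  by_cases hr : (line p δ g).roots = 0
  · rw [hr] at hsum
    simp at hsum
    exact hc.ne' hsum
  · have hneg : ((line p δ g).roots.map fun z => 1 / (0 - z)).sum.im < 0 := by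
      have key : ∀ s : Multiset ℂ, (∀ z ∈ s, z.im < 0) → s ≠ 0 →
          (s.map fun z => 1 / (0 - z)).sum.im < 0 := by
        intro s
        induction s using Multiset.induction_on with
        | empty => intro _ h; exact absurd rfl h
        | cons a s ih =>
          intro hs _
          have ha : a.im < 0 := hs a (Multiset.mem_cons_self a s)
          have h1 : (1 / (0 - a) : ℂ).im < 0 := by
            have hane : a ≠ 0 := by rintro rfl; simp at ha
            rw [zero_sub, one_div, Complex.inv_im]
            simp only [Complex.neg_im, neg_neg, Complex.normSq_neg]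
            exact div_neg_of_neg_of_pos ha (Complex.normSq_pos.2 hane)
          rw [Multiset.map_cons, Multiset.sum_cons, Complex.add_im]
          by_cases hs0 : s = 0
          · subst hs0; simpa using h1
          · have := ih (fun z hz => hs z (Multiset.mem_cons_of_mem hz)) hs0
            linarith
      exact key _ hroots hr
    rw [← him] at hneg
    simp at hneg

lemma eval_of_second_derivative {f : Polynomial ℂ}
    (h : Polynomial.derivative (Polynomial.derivative f) = 0) (t : ℂ) :
    f.eval t = f.eval 0 + t * (Polynomial.derivative f).eval 0 := by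
  have h1 := Polynomial.derivative_eq_zero.1 h
  obtain ⟨c, hc⟩ := Polynomial.natDegree_eq_zero.1 h1
  have h2 : Polynomial.derivative (f - Polynomial.X * Polynomial.C c) = 0 := by
    rw [Polynomial.derivative_sub, ← hc]
    simp [Polynomial.derivative_mul]
  obtain ⟨d, hd⟩ := Polynomial.natDegree_eq_zero.1
    (Polynomial.derivative_eq_zero.1 h2)
  have h3 : f = Polynomial.C d + Polynomial.X * Polynomial.C c := by
    rw [hd]; ring
  rw [← hc, h3]
  simp
  ring

lemma aeval_add_single {a : σ} {g : MvPolynomial σ ℝ} (h : pderiv a (pderiv a g) = 0)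
    (q : σ → ℂ) (Y : ℂ) :
    aeval (q + Pi.single a Y) g = aeval q g + Y * aeval q (pderiv a g) := by
  have hdir : ∀ f : MvPolynomial σ ℝ, dir (Pi.single a 1) f = pderiv a f := by
    intro f
    unfold dir
    rw [Finset.sum_eq_single a]
    · simp
    · intro b _ hb; simp [Pi.single_eq_of_ne hb]
    · simp
  have h2 : Polynomial.derivative (Polynomial.derivative (line q (Pi.single a 1) g)) = 0 := by
    rw [derivative_line, derivative_line, hdir, hdir, h]
    simp [line]
  have h3 := eval_of_second_derivative h2 Y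
  rw [derivative_line, eval_line, eval_line, eval_line, hdir] at h3
  have e1 : (fun i => q i + Y * ((Pi.single a (1 : ℝ) : σ → ℝ) i : ℂ)) = q + Pi.single a Y := by
    ext i
    by_cases hi : i = a
    · subst hi; simp
    · simp [Pi.single_eq_of_ne hi]
  have e2 : (fun i => q i + 0 * ((Pi.single a (1 : ℝ) : σ → ℝ) i : ℂ)) = q := by
    ext i; simp
  rw [e1, e2] at h3
  exact h3

lemma continuous_aeval (g : MvPolynomial σ ℝ) : Continuous fun q : σ → ℂ => aeval q g := by
  induction g using MvPolynomial.induction_on with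
  | C a => simpa using continuous_const
  | add f g hf hg => simp only [map_add]; exact hf.add hg
  | mul_X f i hf => simp only [map_mul, aeval_X]; exact hf.mul (continuous_apply i)

lemma aeval_real (p : σ → ℝ) (g : MvPolynomial σ ℝ) :
    aeval (fun i => (p i : ℂ)) g = ((eval p g : ℝ) : ℂ) := by
  induction g using MvPolynomial.induction_on with
  | C a => simp
  | add f g hf hg => simp [hf, hg]
  | mul_X f i hf => simp [hf]

/-- Rayleigh inequality of a real stable polynomial at a real point. -/
theorem Stable.rayleigh {g : MvPolynomial σ ℝ} (hg : Stable g) {a b : σ} (hab : a ≠ b)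
    (ha : pderiv a (pderiv a g) = 0) (hb : pderiv b (pderiv b g) = 0) (p : σ → ℝ) :
    eval p g * eval p (pderiv a (pderiv b g)) ≤ eval p (pderiv a g) * eval p (pderiv b g) := by
  by_contra hcon
  push Not at hcon
  set A := eval p g
  set B := eval p (pderiv a g)
  set G := eval p (pderiv b g)
  set D := eval p (pderiv a (pderiv b g))
  -- the perturbed point
  let q : ℝ → σ → ℂ := fun η i => (p i : ℂ) + (η : ℂ) * Complex.I
  have hqc : Continuous q := by
    refine continuous_pi fun i => ?_
    exact continuous_const.add ((Complex.continuous_ofReal).mul continuous_const)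
  have hq0 : q 0 = fun i => (p i : ℂ) := by ext i; simp [q]
  have exp4 : ∀ (r : σ → ℂ) (Ya Yb : ℂ), aeval (r + Pi.single a Ya + Pi.single b Yb) g
      = aeval r g + Ya * aeval r (pderiv a g) + Yb * aeval r (pderiv b g)
        + Ya * Yb * aeval r (pderiv a (pderiv b g)) := by
    intro r Ya Yb
    rw [aeval_add_single hb]
    rw [aeval_add_single ha]
    have hab' : pderiv a (pderiv a (pderiv b g)) = 0 := by
      have := congrArg (pderiv b) ha
      rw [map_zero] at this
      rw [← this]
      rw [pderiv_comm' b a, pderiv_comm' b a]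
    rw [aeval_add_single hab']
    ring
  let num : ℝ → ℂ := fun η => aeval (q η) g + Complex.I * aeval (q η) (pderiv a g)
  let den : ℝ → ℂ := fun η => aeval (q η) (pderiv b g) + Complex.I * aeval (q η) (pderiv a (pderiv b g))
  have hnum : Continuous num :=
    ((continuous_aeval g).comp hqc).add (continuous_const.mul ((continuous_aeval _).comp hqc))
  have hden : Continuous den :=
    ((continuous_aeval _).comp hqc).add (continuous_const.mul ((continuous_aeval _).comp hqc))
  have hnum0 : num 0 = (A : ℂ) + Complex.I * B := by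
    simp only [num, hq0, aeval_real, A, B]
  have hden0 : den 0 = (G : ℂ) + Complex.I * D := by
    simp only [den, hq0, aeval_real, G, D]
  have hden0ne : den 0 ≠ 0 := by
    rw [hden0]
    intro h
    have h1 := congrArg Complex.re h
    have h2 := congrArg Complex.im h
    simp at h1 h2
    rw [h1, h2] at hcon
    simp at hcon
  have hIm0 : 0 < (-(num 0) / den 0).im := by
    rw [hnum0, hden0] at *
    rw [Complex.div_im]
    have hN : 0 < Complex.normSq ((G : ℂ) + Complex.I * D) := Complex.normSq_pos.2 hden0ne
    have : (-((A : ℂ) + Complex.I * B)).im * ((G : ℂ) + Complex.I * D).re / Complex.normSq ((G : ℂ) + Complex.I * D)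
        - (-((A : ℂ) + Complex.I * B)).re * ((G : ℂ) + Complex.I * D).im / Complex.normSq ((G : ℂ) + Complex.I * D)
        = (A * D - B * G) / Complex.normSq ((G : ℂ) + Complex.I * D) := by
      simp
      ring
    rw [this]
    apply div_pos _ hN
    linarith
  have hcont : ContinuousAt (fun η => (-(num η) / den η).im) 0 :=
    (Complex.continuous_im.continuousAt).comp
      ((hnum.neg.continuousAt).div hden.continuousAt hden0ne)
  have hev1 : ∀ᶠ η in nhdsWithin (0 : ℝ) (Set.Ioi 0), 0 < (-(num η) / den η).im :=
    (hcont.eventually (lt_mem_nhds hIm0)).filter_mono nhdsWithin_le_nhds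
  have hev2 : ∀ᶠ η in nhdsWithin (0 : ℝ) (Set.Ioi 0), den η ≠ 0 :=
    (hden.continuousAt.eventually_ne hden0ne).filter_mono nhdsWithin_le_nhds
  have hev3 : ∀ᶠ η in nhdsWithin (0 : ℝ) (Set.Ioi 0), (0 : ℝ) < η := eventually_mem_nhdsWithin
  obtain ⟨η, h1, h2, h3⟩ := (hev1.and (hev2.and hev3)).exists
  set Yb : ℂ := -(num η) / den η with hYb
  apply hg (q η + Pi.single a Complex.I + Pi.single b Yb)
  · intro i
    have hqi : (q η i).im = η := by simp [q]
    by_cases hia : i = a
    · subst hia
      simp [Pi.single_eq_of_ne hab, hqi]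
      linarith
    · by_cases hib : i = b
      · subst hib
        simp only [Pi.add_apply, Pi.single_eq_of_ne hia, Pi.single_eq_same, Complex.add_im,
          Complex.zero_im, hqi]
        linarith
      · simp [Pi.single_eq_of_ne hia, Pi.single_eq_of_ne hib, hqi, h3]
  · rw [exp4]
    have : num η + Yb * den η = 0 := by
      rw [hYb]; field_simp; ring
    simp only [num, den] at this
    linear_combination this

/-- iterated first order operators `(c + ε) + ∂_δ` -/
noncomputable def ops (ε : ℝ) (l : List (ℝ × (σ → ℝ))) (g : MvPolynomial σ ℝ) :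
    MvPolynomial σ ℝ :=
  l.foldr (fun o g => C (o.1 + ε) * g + dir o.2 g) g

lemma ops_nil (ε : ℝ) (g : MvPolynomial σ ℝ) : ops ε [] g = g := rfl

lemma ops_cons (ε : ℝ) (o : ℝ × (σ → ℝ)) (l : List (ℝ × (σ → ℝ))) (g : MvPolynomial σ ℝ) :
    ops ε (o :: l) g = C (o.1 + ε) * ops ε l g + dir o.2 (ops ε l g) := rfl

lemma pderiv_dir (a : σ) (δ : σ → ℝ) (g : MvPolynomial σ ℝ) :
    pderiv a (dir δ g) = dir δ (pderiv a g) := by
  unfold dir
  rw [map_sum]
  refine Finset.sum_congr rfl fun i _ => ?_
  rw [pderiv_mul, pderiv_C, pderiv_comm']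
  ring

lemma dir_dir (δ δ' : σ → ℝ) (g : MvPolynomial σ ℝ) :
    dir δ (dir δ' g) = dir δ' (dir δ g) := by
  conv_lhs => unfold dir
  conv_rhs => rw [dir]
  have h1 : ∀ i, pderiv i (∑ j, C (δ' j) * pderiv j g) = dir δ' (pderiv i g) := by
    intro i
    exact pderiv_dir i δ' g
  simp only [h1]
  simp only [dir, Finset.mul_sum, map_sum, pderiv_mul, pderiv_C]
  rw [Finset.sum_comm]
  refine Finset.sum_congr rfl fun i _ => Finset.sum_congr rfl fun j _ => ?_
  rw [pderiv_comm']
  ring

lemma dir_Cmul (δ : σ → ℝ) (c : ℝ) (g : MvPolynomial σ ℝ) :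
    dir δ (C c * g) = C c * dir δ g := by
  rw [dir_mul, dir_C]; ring

lemma pderiv_ops (ε : ℝ) (a : σ) (l : List (ℝ × (σ → ℝ))) (g : MvPolynomial σ ℝ) :
    pderiv a (ops ε l g) = ops ε l (pderiv a g) := by
  induction l with
  | nil => rfl
  | cons o l ih =>
    rw [ops_cons, ops_cons, map_add, pderiv_mul, pderiv_C, pderiv_dir, ih]
    ring

lemma dir_ops (ε : ℝ) (δ : σ → ℝ) (l : List (ℝ × (σ → ℝ))) (g : MvPolynomial σ ℝ) :
    dir δ (ops ε l g) = ops ε l (dir δ g) := by
  induction l with
  | nil => rfl
  | cons o l ih =>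
    rw [ops_cons, ops_cons, dir_add, dir_Cmul, dir_dir, ih]

lemma ops_zero (ε : ℝ) (l : List (ℝ × (σ → ℝ))) : ops ε l (0 : MvPolynomial σ ℝ) = 0 := by
  induction l with
  | nil => rfl
  | cons o l ih =>
    rw [ops_cons, ih]
    simp [dir]

lemma ops_stable {P : MvPolynomial σ ℝ} (hP : Stable P) {ε : ℝ} (hε : 0 < ε)
    (l : List (ℝ × (σ → ℝ))) (hl : ∀ o ∈ l, 0 ≤ o.1 ∧ ∀ i, 0 ≤ o.2 i) : Stable (ops ε l P) := by
  induction l with
  | nil => exact hP
  | cons o l ih =>
    rw [ops_cons]
    have h := hl o List.mem_cons_self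
    exact Stable.op (ih fun o' ho' => hl o' (List.mem_cons_of_mem _ ho')) (by linarith [h.1]) h.2

lemma continuous_ops (p : σ → ℝ) (l : List (ℝ × (σ → ℝ))) :
    ∀ g : MvPolynomial σ ℝ, Continuous fun ε : ℝ => eval p (ops ε l g) := by
  induction l with
  | nil => intro g; simpa [ops_nil] using continuous_const
  | cons o l ih =>
    intro g
    have : (fun ε : ℝ => eval p (ops ε (o :: l) g))
        = fun ε : ℝ => (o.1 + ε) * eval p (ops ε l g) + eval p (ops ε l (dir o.2 g)) := by
      funext ε
      rw [ops_cons, dir_ops]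
      simp
    rw [this]
    exact ((continuous_const.add continuous_id).mul (ih g)).add (ih _)

/-- Rayleigh inequality after applying first order operators with nonnegative coefficients. -/
theorem ops_rayleigh {P : MvPolynomial σ ℝ} (hP : Stable P) (l : List (ℝ × (σ → ℝ)))
    (hl : ∀ o ∈ l, 0 ≤ o.1 ∧ ∀ i, 0 ≤ o.2 i) {a b : σ} (hab : a ≠ b)
    (ha : pderiv a (pderiv a P) = 0) (hb : pderiv b (pderiv b P) = 0) (p : σ → ℝ) :
    eval p (ops 0 l P) * eval p (ops 0 l (pderiv a (pderiv b P)))
      ≤ eval p (ops 0 l (pderiv a P)) * eval p (ops 0 l (pderiv b P)) := by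
  have hε : ∀ ε : ℝ, 0 < ε → eval p (ops ε l P) * eval p (ops ε l (pderiv a (pderiv b P)))
      ≤ eval p (ops ε l (pderiv a P)) * eval p (ops ε l (pderiv b P)) := by
    intro ε hε
    have h := (ops_stable hP hε l hl).rayleigh hab
      (by rw [pderiv_ops, pderiv_ops, ha, ops_zero]) (by rw [pderiv_ops, pderiv_ops, hb, ops_zero]) p
    simpa only [pderiv_ops] using h
  have hL : Continuous fun ε : ℝ =>
      eval p (ops ε l P) * eval p (ops ε l (pderiv a (pderiv b P))) :=
    (continuous_ops p l _).mul (continuous_ops p l _)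
  have hR : Continuous fun ε : ℝ =>
      eval p (ops ε l (pderiv a P)) * eval p (ops ε l (pderiv b P)) :=
    (continuous_ops p l _).mul (continuous_ops p l _)
  have hmem : (0 : ℝ) ∈ closure (Set.Ioi (0 : ℝ)) := by
    rw [closure_Ioi]; exact Set.self_mem_Ici
  have hcl : IsClosed {ε : ℝ | eval p (ops ε l P) * eval p (ops ε l (pderiv a (pderiv b P)))
      ≤ eval p (ops ε l (pderiv a P)) * eval p (ops ε l (pderiv b P))} := isClosed_le hL hR
  exact (hcl.closure_subset_iff.2 fun ε hε' => hε ε hε') hmem

end Pool.Agent.H39.LW
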