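import Mathlib
import Pool.Agent.H39.LW.Stab
import Pool.Agent.H39.LW.PathSum

/-!
The determinant polynomial behind the correlation inequality.
-/

open MvPolynomial Matrix

namespace Pool.Agent.H39.LW

set_option linter.unusedSectionVars false

variable {V : Type*} [Fintype V] [DecidableEq V]

/-- Kronecker delta -/
def dl (a b : V) : ℝ := if a = b then 1 else 0

lemma dl_self (a : V) : dl a a = 1 := if_pos rfl
lemma dl_ne {a b : V} (h : a ≠ b) : dl a b = 0 := if_neg h

/-- `∑_u w v u (e_v - e_u)(e_v - e_u)ᵀ + κ_v e_v e_vᵀ` -/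
noncomputable def Amat (w : V → V → ℝ) (κ : V → ℝ) (v i j : V) : ℝ :=
  ∑ u, w v u * ((dl v i - dl u i) * (dl v j - dl u j)) + κ v * (dl v i * dl v j)

/-- `∑_v t_v A_v + diag z` -/
noncomputable def Mmat (w : V → V → ℝ) (κ : V → ℝ) : Matrix V V (MvPolynomial (V ⊕ V) ℝ) :=
  fun i j => (∑ v, X (Sum.inl v) * C (Amat w κ v i j)) + if i = j then X (Sum.inr i) else 0

/-- replace the rows and columns in `S` by those of the identity -/
def padm {R : Type*} [CommRing R] (M : Matrix V V R) (S : Finset V) : Matrix V V R :=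
  fun i j => if i ∈ S ∨ j ∈ S then (1 : Matrix V V R) i j else M i j

noncomputable def fU (w : V → V → ℝ) (κ : V → ℝ) (S : Finset V) : MvPolynomial (V ⊕ V) ℝ :=
  (padm (Mmat w κ) S).det

lemma padm_empty {R : Type*} [CommRing R] (M : Matrix V V R) : padm M ∅ = M := by
  ext i j; simp [padm]

/-- stability of the determinant -/
theorem stable_fU {w : V → V → ℝ} {κ : V → ℝ} (hw : ∀ u v, 0 ≤ w u v) (hκ : ∀ v, 0 ≤ κ v) :
    Stable (fU w κ ∅) := by
  intro p hp h0
  have h1 : (aeval p (fU w κ ∅) : ℂ) =
      (Matrix.of fun i j => (∑ v, p (Sum.inl v) * (Amat w κ v i j : ℂ))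
        + if i = j then p (Sum.inr i) else 0).det := by
    unfold fU
    rw [padm_empty, AlgHom.map_det]
    congr 1
    ext i j
    simp only [AlgHom.mapMatrix_apply, Matrix.map_apply, Mmat, Matrix.of_apply, map_add, map_sum,
      map_mul, aeval_X, aeval_C]
    congr 1
    split_ifs <;> simp
  rw [h1] at h0
  obtain ⟨y, hy0, hy⟩ := Matrix.exists_mulVec_eq_zero_iff.2 h0
  -- the quadratic form
  have hquad : ∑ i, (starRingEnd ℂ) (y i) * ((Matrix.of fun i j => (∑ v, p (Sum.inl v) * (Amat w κ v i j : ℂ))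
        + if i = j then p (Sum.inr i) else 0) *ᵥ y) i = 0 := by
    rw [hy]; simp
  have hA : ∀ v, ∑ i, ∑ j, (starRingEnd ℂ) (y i) * ((Amat w κ v i j : ℂ)) * y j
      = ((∑ u, w v u * Complex.normSq (y v - y u) + κ v * Complex.normSq (y v) : ℝ) : ℂ) := by
    intro v
    have hδ : ∀ a : V, ∑ j, (dl a j : ℂ) * y j = y a := by
      intro a
      rw [Finset.sum_eq_single a]
      · simp [dl]
      · intro b _ hb; simp [dl, hb.symm]
      · simp
    have hδ' : ∀ a : V, ∑ j, (starRingEnd ℂ) (y j) * (dl a j : ℂ) = (starRingEnd ℂ) (y a) := by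
      intro a
      rw [Finset.sum_eq_single a]
      · simp [dl]
      · intro b _ hb; simp [dl, hb.symm]
      · simp
    have e1 : ∀ i j, (starRingEnd ℂ) (y i) * ((Amat w κ v i j : ℂ)) * y j
        = ∑ u, (w v u : ℂ) * ((starRingEnd ℂ) (y i) * ((dl v i : ℂ) - (dl u i : ℂ)))
            * (((dl v j : ℂ) - (dl u j : ℂ)) * y j)
          + (κ v : ℂ) * ((starRingEnd ℂ) (y i) * (dl v i : ℂ)) * ((dl v j : ℂ) * y j) := by
      intro i j
      unfold Amat
      push_cast
      rw [mul_add, add_mul, Finset.mul_sum, Finset.sum_mul]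
      congr 1
      · refine Finset.sum_congr rfl fun u _ => ?_
        ring
      · ring
    simp only [e1, Finset.sum_add_distrib]
    have e2 : ∑ i, ∑ j, ∑ u, (w v u : ℂ) * ((starRingEnd ℂ) (y i) * ((dl v i : ℂ) - (dl u i : ℂ)))
            * (((dl v j : ℂ) - (dl u j : ℂ)) * y j)
        = ∑ u, (w v u : ℂ) * (∑ i, (starRingEnd ℂ) (y i) * ((dl v i : ℂ) - (dl u i : ℂ)))
            * (∑ j, ((dl v j : ℂ) - (dl u j : ℂ)) * y j) := by
      have : ∀ i, ∑ j, ∑ u, (w v u : ℂ) * ((starRingEnd ℂ) (y i) * ((dl v i : ℂ) - (dl u i : ℂ)))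
            * (((dl v j : ℂ) - (dl u j : ℂ)) * y j)
          = ∑ u, (w v u : ℂ) * ((starRingEnd ℂ) (y i) * ((dl v i : ℂ) - (dl u i : ℂ)))
            * (∑ j, ((dl v j : ℂ) - (dl u j : ℂ)) * y j) := by
        intro i
        rw [Finset.sum_comm]
        refine Finset.sum_congr rfl fun u _ => ?_
        rw [Finset.mul_sum]
      rw [Finset.sum_congr rfl fun i _ => this i, Finset.sum_comm]
      refine Finset.sum_congr rfl fun u _ => ?_
      generalize (∑ j, ((dl v j : ℂ) - (dl u j : ℂ)) * y j) = K
      rw [Finset.mul_sum, Finset.sum_mul]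
    have e3 : ∑ i, ∑ j, (κ v : ℂ) * ((starRingEnd ℂ) (y i) * (dl v i : ℂ)) * ((dl v j : ℂ) * y j)
        = (κ v : ℂ) * (∑ i, (starRingEnd ℂ) (y i) * (dl v i : ℂ)) * (∑ j, (dl v j : ℂ) * y j) := by
      have : ∀ i, ∑ j, (κ v : ℂ) * ((starRingEnd ℂ) (y i) * (dl v i : ℂ)) * ((dl v j : ℂ) * y j)
          = (κ v : ℂ) * ((starRingEnd ℂ) (y i) * (dl v i : ℂ)) * (∑ j, (dl v j : ℂ) * y j) := by
        intro i
        rw [Finset.mul_sum]
      rw [Finset.sum_congr rfl fun i _ => this i]
      generalize (∑ j, (dl v j : ℂ) * y j) = K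
      rw [Finset.mul_sum, Finset.sum_mul]
    rw [e2, e3, hδ, hδ']
    have e4 : ∀ u, ∑ i, (starRingEnd ℂ) (y i) * ((dl v i : ℂ) - (dl u i : ℂ))
        = (starRingEnd ℂ) (y v - y u) := by
      intro u
      simp only [mul_sub, Finset.sum_sub_distrib, hδ', map_sub]
    have e5 : ∀ u, ∑ j, ((dl v j : ℂ) - (dl u j : ℂ)) * y j = y v - y u := by
      intro u
      simp only [sub_mul, Finset.sum_sub_distrib, hδ]
    simp only [e4, e5]
    push_cast
    congr 1
    · refine Finset.sum_congr rfl fun u _ => ?_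
      rw [mul_assoc, ← Complex.normSq_eq_conj_mul_self]
    · rw [mul_assoc, ← Complex.normSq_eq_conj_mul_self]
  have hsum : ∑ v, p (Sum.inl v) * ((∑ u, w v u * Complex.normSq (y v - y u)
        + κ v * Complex.normSq (y v) : ℝ) : ℂ)
      + ∑ i, p (Sum.inr i) * (Complex.normSq (y i) : ℂ) = 0 := by
    rw [← hquad]
    have e6 : ∀ i, (starRingEnd ℂ) (y i) * ((Matrix.of fun i j => (∑ v, p (Sum.inl v) * (Amat w κ v i j : ℂ))
        + if i = j then p (Sum.inr i) else 0) *ᵥ y) i
        = ∑ j, ∑ v, p (Sum.inl v) * ((starRingEnd ℂ) (y i) * ((Amat w κ v i j : ℂ)) * y j)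
          + p (Sum.inr i) * (Complex.normSq (y i) : ℂ) := by
      intro i
      rw [Complex.normSq_eq_conj_mul_self]
      simp only [Matrix.mulVec, dotProduct, Matrix.of_apply, add_mul, Finset.sum_add_distrib,
        mul_add, Finset.mul_sum, Finset.sum_mul, ite_mul, zero_mul,
        Finset.sum_ite_eq, Finset.mem_univ, if_true]
      congr 1
      · refine Finset.sum_congr rfl fun j _ => Finset.sum_congr rfl fun v _ => ?_
        ring
      · ring
    rw [Finset.sum_congr rfl fun i _ => e6 i, Finset.sum_add_distrib]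
    congr 1
    simp only [← hA, Finset.mul_sum]
    rw [Finset.sum_comm]
    refine Finset.sum_congr rfl fun i _ => ?_
    rw [Finset.sum_comm]
  have him := congrArg Complex.im hsum
  rw [Complex.add_im, Complex.im_sum, Complex.im_sum] at him
  simp only [Complex.mul_im, Complex.ofReal_re, Complex.ofReal_im, mul_zero, zero_add,
    Complex.zero_im] at him
  obtain ⟨i0, hi0⟩ : ∃ i, y i ≠ 0 := by
    by_contra hcon
    push Not at hcon
    exact hy0 (funext hcon)
  have hpos1 : 0 ≤ ∑ v, (p (Sum.inl v)).im * (∑ u, w v u * Complex.normSq (y v - y u)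
        + κ v * Complex.normSq (y v)) := by
    refine Finset.sum_nonneg fun v _ => mul_nonneg (hp _).le (add_nonneg
      (Finset.sum_nonneg fun u _ => mul_nonneg (hw _ _) (Complex.normSq_nonneg _))
      (mul_nonneg (hκ _) (Complex.normSq_nonneg _)))
  have hpos2 : 0 < ∑ i, (p (Sum.inr i)).im * Complex.normSq (y i) := by
    refine Finset.sum_pos' (fun i _ => mul_nonneg (hp _).le (Complex.normSq_nonneg _))
      ⟨i0, Finset.mem_univ _, mul_pos (hp _) (Complex.normSq_pos.2 hi0)⟩
  linarith

/-- A derivation killing the entries kills the determinant. -/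
lemma derivation_det_zero {σ : Type*}
    (D : Derivation ℝ (MvPolynomial σ ℝ) (MvPolynomial σ ℝ)) (N : Matrix V V (MvPolynomial σ ℝ))
    (h : ∀ i j, D (N i j) = 0) : D N.det = 0 := by
  rw [Matrix.det_apply, map_sum]
  refine Finset.sum_eq_zero fun π _ => ?_
  have : D (∏ i, N (π i) i) = 0 := by
    refine Finset.prod_induction (fun i => N (π i) i) (fun q => D q = 0) ?_ ?_ ?_
    · intro a b ha hb
      simp [ha, hb]
    · simp
    · intro i _; exact h _ _
  rw [Units.smul_def, map_zsmul, this, smul_zero]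

lemma det_updateRow_single {R : Type*} [CommRing R] (M : Matrix V V R) (i : V) :
    (M.updateRow i (Pi.single i 1)).det
      = ((M.updateRow i (Pi.single i 1)).updateCol i (Pi.single i 1)).det := by
  have key : ∀ A : Matrix V V R, (A.updateRow i (Pi.single i 1)).det
      = (A.updateCol i (Pi.single i 1)).det := by
    intro A
    rw [← Matrix.adjugate_apply A i i]
    have h2 : A.adjugate i i = (Aᵀ).adjugate i i :=
      congrFun (congrFun (Matrix.adjugate_transpose A) i) i
    rw [h2, Matrix.adjugate_apply, ← Matrix.det_transpose, Matrix.updateRow_transpose,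
      Matrix.transpose_transpose]
  rw [← key]
  rw [Matrix.updateRow_idem]

variable {w : V → V → ℝ} {κ : V → ℝ}

lemma pderiv_inr_Mmat (i : V) (a b : V) :
    pderiv (Sum.inr i) (Mmat w κ a b) = if a = b ∧ a = i then 1 else 0 := by
  unfold Mmat
  rw [map_add, map_sum]
  have h1 : ∀ v ∈ (Finset.univ : Finset V),
      pderiv (Sum.inr i) ((X (Sum.inl v) : MvPolynomial (V ⊕ V) ℝ) * C (Amat w κ v a b)) = 0 := by
    intro v _
    rw [pderiv_mul, pderiv_C, pderiv_X_of_ne (by simp)]
    ring
  rw [Finset.sum_eq_zero h1, zero_add]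
  by_cases hab : a = b
  · subst hab
    by_cases hai : a = i
    · subst hai; simp
    · rw [if_pos rfl, if_neg (by simp [hai]), pderiv_X_of_ne (by simpa using hai)]
  · rw [if_neg hab, if_neg (by simp [hab]), map_zero]

lemma pderiv_inl_Mmat (v : V) (a b : V) :
    pderiv (Sum.inl v) (Mmat w κ a b) = C (Amat w κ v a b) := by
  unfold Mmat
  rw [map_add, map_sum, Finset.sum_eq_single v]
  · rw [pderiv_mul, pderiv_C, pderiv_X_self]
    have : pderiv (Sum.inl v) (if a = b then (X (Sum.inr a) : MvPolynomial (V ⊕ V) ℝ) else 0) = 0 := by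
      split_ifs
      · rw [pderiv_X_of_ne (by simp)]
      · simp
    rw [this]; ring
  · intro u _ hu
    rw [pderiv_mul, pderiv_C, pderiv_X_of_ne (by simpa using hu)]
    ring
  · simp

lemma pderiv_padm {s : V ⊕ V} (M : Matrix V V (MvPolynomial (V ⊕ V) ℝ)) (S : Finset V) (a b : V) :
    pderiv s (padm M S a b) = if a ∈ S ∨ b ∈ S then 0 else pderiv s (M a b) := by
  unfold padm
  split_ifs with h
  · by_cases hab : a = b
    · subst hab; simp
    · rw [Matrix.one_apply_ne hab, map_zero]
  · rfl

/-- derivative in `z_i` -/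
lemma pderiv_inr_fU (i : V) (S : Finset V) :
    pderiv (Sum.inr i) (fU w κ S) = if i ∈ S then 0 else fU w κ (insert i S) := by
  split_ifs with hi
  · refine derivation_det_zero _ _ fun a b => ?_
    rw [pderiv_padm, pderiv_inr_Mmat]
    by_cases h : a ∈ S ∨ b ∈ S
    · rw [if_pos h]
    · rw [if_neg h, if_neg]
      rintro ⟨rfl, rfl⟩
      exact h (Or.inl hi)
  · set N := padm (Mmat w κ) S with hN
    set r : V → MvPolynomial (V ⊕ V) ℝ :=
      fun j => if j = i then N i i - X (Sum.inr i) else N i j with hr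
    have hrow : N i = r + (X (Sum.inr i) : MvPolynomial (V ⊕ V) ℝ) • Pi.single i 1 := by
      funext j
      simp only [hr, Pi.add_apply, Pi.smul_apply, smul_eq_mul]
      by_cases hj : j = i
      · subst hj; simp
      · rw [if_neg hj, Pi.single_eq_of_ne hj]; simp
    have h1 : fU w κ S = (N.updateRow i r).det
        + X (Sum.inr i) * (N.updateRow i (Pi.single i 1)).det := by
      have : N = N.updateRow i (r + (X (Sum.inr i) : MvPolynomial (V ⊕ V) ℝ) • Pi.single i 1) := by
        rw [← hrow, Matrix.updateRow_eq_self]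
      show N.det = _
      conv_lhs => rw [this]
      rw [Matrix.det_updateRow_add, Matrix.det_updateRow_smul]
    have hNd : ∀ a b, ¬ (a = i ∧ b = i) → pderiv (Sum.inr i) (N a b) = 0 := by
      intro a b hab
      rw [hN, pderiv_padm, pderiv_inr_Mmat]
      split_ifs with h1 h2
      · rfl
      · exact absurd ⟨h2.2, h2.1 ▸ h2.2⟩ hab
      · rfl
    have hNii : pderiv (Sum.inr i) (N i i) = 1 := by
      rw [hN, pderiv_padm, pderiv_inr_Mmat]
      simp [hi]
    have h2 : pderiv (Sum.inr i) (N.updateRow i r).det = 0 := by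
      refine derivation_det_zero _ _ fun a b => ?_
      by_cases ha : a = i
      · subst ha
        rw [Matrix.updateRow_self]
        simp only [hr]
        split_ifs with hb
        · rw [map_sub, hNii, pderiv_X_self, sub_self]
        · exact hNd _ _ fun h => hb h.2
      · rw [Matrix.updateRow_ne ha]
        exact hNd _ _ fun h => ha h.1
    have h3 : pderiv (Sum.inr i) (N.updateRow i (Pi.single i 1)).det = 0 := by
      refine derivation_det_zero _ _ fun a b => ?_
      by_cases ha : a = i
      · subst ha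
        rw [Matrix.updateRow_self]
        by_cases hb : b = a
        · subst hb; simp
        · rw [Pi.single_eq_of_ne hb, map_zero]
      · rw [Matrix.updateRow_ne ha]
        exact hNd _ _ fun h => ha h.1
    rw [h1, map_add, h2, pderiv_mul, h3, pderiv_X_self, mul_zero, add_zero, zero_add, one_mul,
      det_updateRow_single]
    unfold fU
    congr 1
    ext a b : 2
    by_cases hb : b = i
    · subst hb
      rw [Matrix.updateCol_self]
      unfold padm
      rw [if_pos (Or.inr (Finset.mem_insert_self _ _)), Matrix.one_apply]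
      by_cases ha : a = b
      · subst ha; simp
      · rw [if_neg ha, Pi.single_eq_of_ne ha]
    · rw [Matrix.updateCol_ne hb]
      by_cases ha : a = i
      · subst ha
        rw [Matrix.updateRow_self, Pi.single_eq_of_ne hb]
        unfold padm
        rw [if_pos (Or.inl (Finset.mem_insert_self _ _)), Matrix.one_apply_ne (Ne.symm hb)]
      · rw [Matrix.updateRow_ne ha, hN]
        unfold padm
        simp [ha, hb]

lemma der_sum_apply {σ : Type*} (s : Finset V)
    (D : V → Derivation ℝ (MvPolynomial σ ℝ) (MvPolynomial σ ℝ)) (f : MvPolynomial σ ℝ) :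
    (∑ u ∈ s, D u) f = ∑ u ∈ s, D u f := by
  induction s using Finset.induction_on with
  | empty => simp
  | insert a s ha ih => rw [Finset.sum_insert ha, Finset.sum_insert ha, Derivation.add_apply, ih]

lemma Amat_of_ne {a i j : V} (hi : i ≠ a) (hj : j ≠ a) :
    Amat w κ a i j = if i = j then w a i else 0 := by
  unfold Amat
  rw [dl_ne hi.symm, dl_ne hj.symm]
  simp only [zero_sub, mul_neg, neg_mul, neg_neg, mul_zero, add_zero]
  rw [Finset.sum_eq_single i]
  · rw [dl_self]
    by_cases hij : i = j
    · subst hij; rw [dl_self, if_pos rfl]; ring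
    · rw [dl_ne hij, if_neg hij]; ring
  · intro u _ hu
    rw [dl_ne hu]; ring
  · simp

/-- derivative in `t_a` when the coordinate `a` has been removed -/
lemma pderiv_inl_fU {a : V} {S : Finset V} (ha : a ∈ S) :
    pderiv (Sum.inl a) (fU w κ S) = ∑ u ∈ Sᶜ, C (w a u) * fU w κ (insert u S) := by
  have h := derivation_det_zero
    (pderiv (Sum.inl a) - ∑ u ∈ Sᶜ, (w a u) • pderiv (R := ℝ) (Sum.inr u)) (padm (Mmat w κ) S) (by
      intro i j
      rw [Derivation.sub_apply, der_sum_apply]
      simp only [Derivation.smul_apply, pderiv_padm, pderiv_inl_Mmat, pderiv_inr_Mmat]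
      by_cases hij : i ∈ S ∨ j ∈ S
      · simp [hij]
      · simp only [if_neg hij]
        push Not at hij
        rw [Amat_of_ne (a := a) (i := i) (j := j) (by rintro rfl; exact hij.1 ha)
          (by rintro rfl; exact hij.2 ha)]
        by_cases hh : i = j
        · subst hh
          rw [if_pos rfl, Finset.sum_eq_single i]
          · simp [smul_eq_C_mul]
          · intro u _ hu
            rw [if_neg (fun h => hu h.2.symm), smul_zero]
          · intro h
            exact absurd (Finset.mem_compl.2 hij.1) h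
        · rw [if_neg hh, map_zero, Finset.sum_eq_zero, sub_zero]
          intro u _
          rw [if_neg (fun h => hh h.1), smul_zero])
  rw [Derivation.sub_apply, der_sum_apply, sub_eq_zero] at h
  change pderiv (Sum.inl a) (fU w κ S) = _ at h
  rw [h]
  refine Finset.sum_congr rfl fun u hu => ?_
  rw [Derivation.smul_apply, smul_eq_C_mul]
  congr 1
  have := pderiv_inr_fU (w := w) (κ := κ) u S
  rw [if_neg (Finset.mem_compl.1 hu)] at this
  exact this

end Pool.Agent.H39.LW
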