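import Pool.Agent.H39.LW.DetPoly

/-!
The recursion for the values of the differentiated determinants.
-/

open MvPolynomial Matrix

namespace Pool.Agent.H39.LW

set_option linter.unusedSectionVars false

section ops

variable {σ : Type*} [Fintype σ] [DecidableEq σ]

lemma dir_single (i : σ) (g : MvPolynomial σ ℝ) : dir (Pi.single i 1) g = pderiv i g := by
  unfold dir
  rw [Finset.sum_eq_single i]
  · simp
  · intro j _ hj
    rw [Pi.single_eq_of_ne hj]; simp
  · simp

lemma ops_add (l : List (ℝ × (σ → ℝ))) (g h : MvPolynomial σ ℝ) :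
    ops 0 l (g + h) = ops 0 l g + ops 0 l h := by
  induction l with
  | nil => rfl
  | cons o l ih => rw [ops_cons, ops_cons, ops_cons, ih, dir_add]; ring

lemma ops_Cmul (l : List (ℝ × (σ → ℝ))) (c : ℝ) (g : MvPolynomial σ ℝ) :
    ops 0 l (C c * g) = C c * ops 0 l g := by
  induction l with
  | nil => rfl
  | cons o l ih => rw [ops_cons, ops_cons, ih, dir_Cmul]; ring

lemma ops_sum {ι : Type*} (l : List (ℝ × (σ → ℝ))) (s : Finset ι) (g : ι → MvPolynomial σ ℝ) :
    ops 0 l (∑ i ∈ s, g i) = ∑ i ∈ s, ops 0 l (g i) := by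
  classical
  induction s using Finset.induction_on with
  | empty => simp [ops_zero]
  | insert a s ha ih => rw [Finset.sum_insert ha, Finset.sum_insert ha, ops_add, ih]

/-- the innermost operator may be applied first -/
lemma ops_cons' (o : ℝ × (σ → ℝ)) (l : List (ℝ × (σ → ℝ))) (g : MvPolynomial σ ℝ) :
    ops 0 (o :: l) g = ops 0 l (C o.1 * g + dir o.2 g) := by
  rw [ops_cons, dir_ops, ops_add, ops_Cmul, add_zero]

lemma ops_perm {l l' : List (ℝ × (σ → ℝ))} (h : l.Perm l') (g : MvPolynomial σ ℝ) :
    ops 0 l g = ops 0 l' g := by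
  induction h generalizing g with
  | nil => rfl
  | cons o _ ih => rw [ops_cons', ops_cons', ih]
  | swap o o' l =>
    have h : ∀ p q : ℝ × (σ → ℝ), C p.1 * (C q.1 * g + dir q.2 g) + dir p.2 (C q.1 * g + dir q.2 g)
        = C q.1 * (C p.1 * g + dir p.2 g) + dir q.2 (C p.1 * g + dir p.2 g) := by
      intro p q
      rw [dir_add, dir_add, dir_Cmul, dir_Cmul, dir_dir p.2 q.2]
      ring
    rw [ops_cons', ops_cons', ops_cons', ops_cons', h]
  | trans _ _ ih1 ih2 => rw [ih1, ih2]

end ops

variable {V : Type*} [Fintype V] [DecidableEq V]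
variable {w : V → V → ℝ} {κ : V → ℝ} {wx : V → ℝ}

/-- the list of the operators `wx v + ∂_{t_v}`, `v ∈ C` -/
noncomputable def Th (wx : V → ℝ) (C : Finset V) : List (ℝ × (V ⊕ V → ℝ)) :=
  C.toList.map fun v => (wx v, Pi.single (Sum.inl v) 1)

lemma Th_insert {C : Finset V} {a : V} (ha : a ∈ C) :
    (Th wx C).Perm ((wx a, Pi.single (Sum.inl a) 1) :: Th wx (C.erase a)) := by
  unfold Th
  have h : C.toList.Perm (a :: (C.erase a).toList) := by
    conv_lhs => rw [← Finset.insert_erase ha]
    exact Finset.toList_insert (Finset.notMem_erase a C)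
  exact (h.map _)

/-- value at `0` of the differentiated determinant -/
noncomputable def Fv (w : V → V → ℝ) (κ wx : V → ℝ) (C S : Finset V) : ℝ :=
  eval 0 (ops 0 (Th wx C) (fU w κ S))

lemma Fv_rec {C S : Finset V} {a : V} (ha : a ∈ C) (haS : a ∈ S) :
    Fv w κ wx C S = wx a * Fv w κ wx (C.erase a) S
      + ∑ u ∈ Sᶜ, w a u * Fv w κ wx (C.erase a) (insert u S) := by
  unfold Fv
  rw [ops_perm (Th_insert ha), ops_cons', dir_single, pderiv_inl_fU haS, ops_add, ops_Cmul, ops_sum]
  simp only [ops_Cmul, map_add, map_sum, map_mul, eval_C]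

/-- `Fv` for the removed set `S'` in addition to the complement of `C` -/
noncomputable def Gv (w : V → V → ℝ) (κ wx : V → ℝ) (C S' : Finset V) : ℝ :=
  if S' ⊆ C then Fv w κ wx C (Cᶜ ∪ S') else 0

lemma Gv_insert (C : Finset V) : ∀ {a : V} {S' : Finset V}, a ∉ S' →
    Gv w κ wx C (insert a S') = R1 w wx (fun C' => Gv w κ wx C' S') C a := by
  induction C using Finset.strongInduction with
  | H C ih =>
    intro a S' haS
    by_cases ha : a ∈ C
    · by_cases hS : S' ⊆ C
      · have hsub : S' ⊆ C.erase a := fun z hz =>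
          Finset.mem_erase.2 ⟨fun h => haS (h ▸ hz), hS hz⟩
        have hset : Cᶜ ∪ insert a S' = (C.erase a)ᶜ ∪ S' := by
          ext z
          simp only [Finset.mem_union, Finset.mem_compl, Finset.mem_insert, Finset.mem_erase]
          tauto
        rw [Gv, if_pos (Finset.insert_subset ha hS),
          Fv_rec ha (Finset.mem_union_right _ (Finset.mem_insert_self _ _)), R1_mem ha]
        congr 1
        · rw [Gv, if_pos hsub, hset]
        · rw [hset]
          have hc : ((C.erase a)ᶜ ∪ S')ᶜ = (C.erase a) \ S' := by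
            ext z
            simp only [Finset.mem_union, Finset.mem_compl, Finset.mem_sdiff]
            tauto
          rw [hc, ← Finset.sum_sdiff hsub]
          have h0 : ∑ u ∈ S', w a u * R1 w wx (fun C' => Gv w κ wx C' S') (C.erase a) u = 0 := by
            refine Finset.sum_eq_zero fun u hu => ?_
            rw [R1_zero, mul_zero]
            intro C' hC'
            rw [Gv, if_neg]
            intro h
            exact Finset.notMem_erase u _ (hC' (h hu))
          rw [h0, add_zero]
          refine Finset.sum_congr rfl fun u hu => ?_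
          rw [← ih _ (Finset.erase_ssubset ha) (Finset.mem_sdiff.1 hu).2, Gv,
            if_pos (Finset.insert_subset (Finset.mem_sdiff.1 hu).1 hsub)]
          congr 2
          ext z
          simp only [Finset.mem_union, Finset.mem_insert]
          tauto
      · rw [Gv, if_neg (fun h => hS ((Finset.subset_insert _ _).trans h)), R1_zero]
        intro C' hC'
        rw [Gv, if_neg]
        intro h
        exact hS ((h.trans hC').trans (Finset.erase_subset _ _))
    · rw [Gv, if_neg (fun h => ha (h (Finset.mem_insert_self _ _))), R1_notMem ha]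

lemma Gv_single (C : Finset V) (v : V) :
    Gv w κ wx C {v} = R1 w wx (fun C' => Gv w κ wx C' ∅) C v := by
  have := Gv_insert (w := w) (κ := κ) (wx := wx) C (a := v) (S' := ∅) (by simp)
  simpa using this

end Pool.Agent.H39.LW
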