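import Pool.Agent.H39.LW.Lists

/-!
# Module IP: loop erasure of infinite transient paths

`InL s y` means that `y` belongs to the loop erasure of `s[0..m]` for all large `m`.

Proofs. `LE_succ`: `List.range_succ`, `List.foldl_append`.
`exists_isLoopErasure`: by induction on `k` there is a `v_k` with `∀ᶠ n, (LE s n)[k]? = some v_k`.
`k = 0`: `(LE s n)[0]? = some (s 0)` for all `n` (induction on `n`).
Step: let `N` be such that for `n ≥ N` the entries `0..k` of `LE s n` are `v_0..v_k` and
(transience) `s n ∉ {v_0, …, v_k}`. As the last entry of `LE s n` is `s n`, the length of `LE s n` is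
at least `k + 2` for `n ≥ N`. If `u = (LE s n)[k+1]` then `(LE s (n+1))[k+1] = u`: either
`s (n+1) = u` and the list is cut just before `u` and `u` is appended, or the list is cut (if at all)
after `u`.
`prefix_stable`: if `L = LE s k`, `j < L.length` and `s n` is none of `L[0], …, L[j-1]` for all
`n ≥ k`, then the first `j + 1` entries of `LE s n` are those of `L` for all `n ≥ k` (same
argument: when `s n = L[j]` the list is cut just before `L[j]` and `L[j]` is appended).
`eventually_mem_LE_iff`: `→` Let `y ∈ LE s m` with `m` large. The position `j` of `y` in `LE s m`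
is at most the time `σ` of the last visit to `y` (the entry `j` of `LE s m` was appended at a time
`≥ j`, and it is `y`; formally prove by induction on `m` that the entry `j` of `LE s m` equals `s i`
for some `i` with `j ≤ i ≤ m`). Let `M` bound all visits to `y`. For `m` so large that the first
`M + 1` entries of `LE s m` are `γ 0, …, γ M`, `y = γ j`. `←` is the definition of
`IsLoopErasure`.
`loopErase_adj`: consecutive entries of `LE s n` are related by `R` (induction on `n`: the new last
entry `s (n+1)` follows the entry before it, which was followed by `s (n+1)` before cutting, or, if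
nothing is cut, is `s n`; note that when the list is cut, the entries before the cut and the
appended one are consecutive entries of `LE s n`).
-/

open Filter

namespace Pool.Agent.H39.LW

variable {U : Type*} [DecidableEq U]

/-- `y` is in the loop erasure of `s 0, …, s m` for all large `m` -/
def InL (s : ℕ → U) (y : U) : Prop := ∀ᶠ m in atTop, y ∈ LE s m

lemma LE_zero (s : ℕ → U) : LE s 0 = [s 0] := rfl

lemma LE_succ (s : ℕ → U) (n : ℕ) : LE s (n + 1) = leStep (LE s n) (s (n + 1)) := by
  simp only [LE, LEl, pre]
  rw [List.range_succ (n := n + 1), List.map_append, List.foldl_append]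
  rfl

/-- `LE s n` depends only on `s 0, …, s n` -/
lemma LE_congr {s s' : ℕ → U} {n : ℕ} (h : ∀ i ≤ n, s i = s' i) : LE s n = LE s' n := by
  unfold LE pre
  congr 1
  exact List.map_congr_left fun i hi => h i (by
    have := List.mem_range.1 hi
    omega)

lemma LE_translate {G : Type*} [AddCommGroup G] [DecidableEq G] (c : G) (s : ℕ → G) (n : ℕ) :
    LE (fun i => c + s i) n = (LE s n).map (fun v => c + v) := by
  induction n with
  | zero => rfl
  | succ n ih =>
    rw [LE_succ, LE_succ, ih]
    unfold leStep
    rw [List.takeWhile_map, List.map_append]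
    have hfun : ((fun u => decide (u ≠ c + s (n + 1))) ∘ fun v => c + v)
        = fun u => decide (u ≠ s (n + 1)) := by
      funext x
      simp
    rw [hfun]
    rfl

/-! ### `leStep` and positions -/

lemma leStep_getElem? {L : List U} {v : U} {j : ℕ} (hj : j < L.length)
    (h : ∀ i < j, L[i]? ≠ some v) : (leStep L v)[j]? = L[j]? := by
  induction L generalizing j with
  | nil => simp at hj
  | cons u L ih =>
    by_cases hu : u = v
    · subst hu
      rcases j with _ | j
      · simp [leStep_cons_self]
      · exact absurd rfl (h 0 (Nat.succ_pos j))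
    · rw [leStep_cons_ne hu]
      rcases j with _ | j
      · rfl
      · simp only [List.getElem?_cons_succ]
        refine ih (by simpa using hj) fun i hi => ?_
        have := h (i + 1) (by omega)
        simpa using this

lemma leStep_getLast? (L : List U) (v : U) : (leStep L v).getLast? = some v := by
  simp [leStep]

lemma LE_getLast? (s : ℕ → U) (n : ℕ) : (LE s n).getLast? = some (s n) := by
  rcases n with _ | n
  · rfl
  · rw [LE_succ, leStep_getLast?]

lemma LE_ne_nil (s : ℕ → U) (n : ℕ) : LE s n ≠ [] := by
  intro h
  have := LE_getLast? s n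
  rw [h] at this
  simp at this

lemma leStep_length_le (L : List U) (v : U) : (leStep L v).length ≤ L.length + 1 := by
  unfold leStep
  rw [List.length_append, List.length_singleton]
  have := (List.takeWhile_sublist (l := L) (fun u => decide (u ≠ v))).length_le
  omega

lemma LE_length_le (s : ℕ → U) (n : ℕ) : (LE s n).length ≤ n + 1 := by
  induction n with
  | zero => simp [LE_zero]
  | succ n ih =>
    rw [LE_succ]
    exact (leStep_length_le _ _).trans (by omega)

lemma leStep_prefix {L : List U} {v : U} (h : v ∈ L) : leStep L v <+: L := by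
  induction L with
  | nil => simp at h
  | cons u L ih =>
    by_cases hu : u = v
    · subst hu
      rw [leStep_cons_self]
      exact ⟨L, rfl⟩
    · rw [leStep_cons_ne hu]
      rw [List.cons_prefix_cons]
      refine ⟨rfl, ih ?_⟩
      rcases List.mem_cons.1 h with h | h
      · exact absurd h.symm hu
      · exact h

lemma leStep_notMem {L : List U} {v : U} (h : v ∉ L) : leStep L v = L ++ [v] := by
  unfold leStep
  congr 1
  rw [List.takeWhile_eq_self_iff]
  intro x hx
  simp only [ne_eq, decide_not, Bool.not_eq_eq_eq_not, Bool.not_true, decide_eq_false_iff_not]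
  rintro rfl
  exact h hx

/-- the entry `j` of `LE s m` is `s i` for some `j ≤ i ≤ m` -/
lemma LE_getElem?_time {s : ℕ → U} {m j : ℕ} {u : U} (h : (LE s m)[j]? = some u) :
    ∃ i, j ≤ i ∧ i ≤ m ∧ s i = u := by
  induction m with
  | zero =>
    rw [LE_zero] at h
    rcases j with _ | j
    · exact ⟨0, le_rfl, le_rfl, by simpa using h⟩
    · simp at h
  | succ m ih =>
    rw [LE_succ] at h
    by_cases hmem : s (m + 1) ∈ LE s m
    · have hp := leStep_prefix hmem
      have hj : j < (leStep (LE s m) (s (m + 1))).length := by
        by_contra hc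
        rw [List.getElem?_eq_none (by omega)] at h
        simp at h
      have h2 : (LE s m)[j]? = some u := by
        rw [← h]
        obtain ⟨t, ht⟩ := hp
        conv_lhs => rw [← ht]
        exact List.getElem?_append_left hj
      obtain ⟨i, h1, h2, h3⟩ := ih h2
      exact ⟨i, h1, by omega, h3⟩
    · rw [leStep_notMem hmem] at h
      by_cases hj : j < (LE s m).length
      · rw [List.getElem?_append_left hj] at h
        obtain ⟨i, h1, h2, h3⟩ := ih h
        exact ⟨i, h1, by omega, h3⟩
      · rw [List.getElem?_append_right (by omega)] at h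
        have hlen := LE_length_le s m
        have hj' : j = (LE s m).length := by
          by_contra hc
          have : 1 ≤ j - (LE s m).length := by omega
          rw [List.getElem?_eq_none (by simpa using this)] at h
          simp at h
        subst hj'
        simp only [Nat.sub_self, List.getElem?_cons_zero, Option.some.injEq] at h
        exact ⟨m + 1, by omega, le_rfl, h⟩

lemma isLoopErasure_unique {s γ γ' : ℕ → U} (h : IsLoopErasure s γ) (h' : IsLoopErasure s γ') :
    γ = γ' := by
  funext k
  obtain ⟨n, h1, h2⟩ := ((h k).and (h' k)).exists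
  rw [h1] at h2
  exact Option.some.inj h2

omit [DecidableEq U] in
lemma Transient.eventually_ne {s : ℕ → U} (hs : Transient s) (v : U) :
    ∀ᶠ n in atTop, s n ≠ v := by
  have := (hs v).bddAbove
  obtain ⟨M, hM⟩ := this
  filter_upwards [eventually_gt_atTop M] with n hn hv
  exact absurd (hM hv) (by omega)

theorem exists_isLoopErasure {s : ℕ → U} (hs : Transient s) : ∃ γ, IsLoopErasure s γ := by
  suffices h : ∀ k, ∃ v, ∀ᶠ n in atTop, (LE s n)[k]? = some v by
    choose γ hγ using h
    exact ⟨γ, hγ⟩
  intro k
  induction k using Nat.strong_induction_on with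
  | _ k ih =>
    have : Nonempty U := ⟨s 0⟩
    choose! γ hγ using ih
    have h1 : ∀ᶠ n in atTop, ∀ i < k, (LE s n)[i]? = some (γ i) := by
      have : ∀ᶠ n in atTop, ∀ i ∈ Finset.range k, (LE s n)[i]? = some (γ i) := by
        rw [Filter.eventually_all_finset]
        intro i hi
        exact hγ i (Finset.mem_range.1 hi)
      filter_upwards [this] with n hn i hi using hn i (Finset.mem_range.2 hi)
    have h2 : ∀ᶠ n in atTop, ∀ i < k, s n ≠ γ i := by
      have : ∀ᶠ n in atTop, ∀ i ∈ Finset.range k, s n ≠ γ i := by
        rw [Filter.eventually_all_finset]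
        intro i _
        exact hs.eventually_ne _
      filter_upwards [this] with n hn i hi using hn i (Finset.mem_range.2 hi)
    obtain ⟨N, hN⟩ := eventually_atTop.1 (h1.and h2)
    have hlen : ∀ n, N ≤ n → k < (LE s n).length := by
      intro n hn
      obtain ⟨ha, hb⟩ := hN n hn
      rcases k with _ | k
      · exact List.length_pos_iff.2 (LE_ne_nil s n)
      · by_contra hc
        have hk := ha k (Nat.lt_succ_self k)
        have hk' : k < (LE s n).length := by
          by_contra hcc
          rw [List.getElem?_eq_none (by omega)] at hk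
          simp at hk
        have hl : (LE s n).length = k + 1 := by omega
        have hlast := LE_getLast? s n
        rw [List.getLast?_eq_getElem?, hl, Nat.add_sub_cancel, hk] at hlast
        exact hb k (Nat.lt_succ_self k) (Option.some.inj hlast).symm
    refine ⟨(LE s N)[k]'(hlen N le_rfl), eventually_atTop.2 ⟨N, fun n hn => ?_⟩⟩
    induction n, hn using Nat.le_induction with
    | base => exact List.getElem?_eq_getElem _
    | succ n hn ih2 =>
      rw [LE_succ, leStep_getElem? (hlen n hn), ih2]
      intro i hi
      rw [(hN n hn).1 i hi]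
      intro hc
      exact (hN (n + 1) (by omega)).2 i hi (Option.some.inj hc).symm

theorem isLoopErasure_loopErase {s : ℕ → U} (hs : Transient s) :
    IsLoopErasure s (loopErase s) := by
  unfold loopErase
  rw [dif_pos (exists_isLoopErasure hs)]
  exact (exists_isLoopErasure hs).choose_spec

lemma mem_range_of_mem_LE {s : ℕ → U} {m : ℕ} {y : U} (h : y ∈ LE s m) : ∃ i ≤ m, s i = y := by
  obtain ⟨j, hj⟩ := List.mem_iff_getElem?.1 h
  obtain ⟨i, _, h2, h3⟩ := LE_getElem?_time hj
  exact ⟨i, h2, h3⟩

theorem eventually_mem_LE_iff {s : ℕ → U} (hs : Transient s) (y : U) :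
    ∀ᶠ m in atTop, (y ∈ LE s m ↔ ∃ k, loopErase s k = y) := by
  have hγ := isLoopErasure_loopErase hs
  by_cases hex : ∃ k, loopErase s k = y
  · obtain ⟨k, hk⟩ := hex
    filter_upwards [hγ k] with m hm
    rw [hk] at hm
    exact ⟨fun _ => ⟨k, hk⟩, fun _ => List.mem_iff_getElem?.2 ⟨k, hm⟩⟩
  · obtain ⟨M, hM⟩ := (hs y).bddAbove
    have h1 : ∀ᶠ n in atTop, ∀ i ∈ Finset.range (M + 1), (LE s n)[i]? = some (loopErase s i) := by
      rw [Filter.eventually_all_finset]
      intro i _
      exact hγ i
    filter_upwards [h1] with m hm
    refine ⟨fun hy => ?_, fun h => absurd h hex⟩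
    obtain ⟨j, hj⟩ := List.mem_iff_getElem?.1 hy
    obtain ⟨i, hi1, _, hi3⟩ := LE_getElem?_time hj
    have hiM : i ≤ M := hM hi3
    have := hm j (Finset.mem_range.2 (by omega))
    rw [hj] at this
    exact ⟨j, (Option.some.inj this).symm⟩

theorem inL_iff {s : ℕ → U} (hs : Transient s) (y : U) :
    InL s y ↔ ∃ k, loopErase s k = y := by
  constructor
  · intro h
    obtain ⟨m, h1, h2⟩ := (h.and (eventually_mem_LE_iff hs y)).exists
    exact h2.1 h1
  · intro h
    filter_upwards [eventually_mem_LE_iff hs y] with m hm using hm.2 h

/-- membership in `LE s m` is eventually constant -/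
theorem eventually_mem_iff_inL {s : ℕ → U} (hs : Transient s) (y : U) :
    ∀ᶠ m in atTop, (y ∈ LE s m ↔ InL s y) := by
  filter_upwards [eventually_mem_LE_iff hs y] with m hm
  rw [hm, inL_iff hs]

/-- vertices of `LE s k` that survive -/
theorem inL_of_prefix {s : ℕ → U} (k : ℕ) (j : ℕ) (hj : j < (LE s k).length)
    (h : ∀ n, k ≤ n → ∀ i (hi : i < j), (LE s k)[i]'(hi.trans hj) ≠ s n) :
    InL s ((LE s k)[j]) := by
  have key : ∀ n, k ≤ n → ∀ i ≤ j, (LE s n)[i]? = (LE s k)[i]? := by
    intro n hn
    induction n, hn using Nat.le_induction with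
    | base => intro i _; rfl
    | succ n hn ih =>
      intro i hi
      rw [LE_succ, leStep_getElem?, ih i hi]
      · have h1 := ih i hi
        rw [List.getElem?_eq_getElem (by omega : i < (LE s k).length)] at h1
        by_contra hc
        rw [List.getElem?_eq_none (by omega)] at h1
        simp at h1
      · intro i' hi'
        rw [ih i' (by omega), List.getElem?_eq_getElem (by omega : i' < (LE s k).length)]
        intro hc
        exact h (n + 1) (by omega) i' (by omega) (Option.some.inj hc)
  refine eventually_atTop.2 ⟨k, fun n hn => ?_⟩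
  refine List.mem_iff_getElem?.2 ⟨j, ?_⟩
  rw [key n hn j le_rfl]
  exact List.getElem?_eq_getElem _

/-- `s k` is in the loop erasure of `s[0..k]` -/
lemma self_mem_LE (s : ℕ → U) (k : ℕ) : s k ∈ LE s k :=
  List.mem_of_getLast? (LE_getLast? s k)

lemma LE_isChain {s : ℕ → U} {R : U → U → Prop} (hR : ∀ n, R (s n) (s (n + 1))) (n : ℕ) :
    (LE s n).IsChain R := by
  induction n with
  | zero => rw [LE_zero]; exact List.isChain_singleton _
  | succ n ih =>
    rw [LE_succ]
    by_cases hmem : s (n + 1) ∈ LE s n
    · obtain ⟨t, ht⟩ := leStep_prefix hmem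
      rw [← ht] at ih
      exact ih.left_of_append
    · rw [leStep_notMem hmem, List.isChain_append]
      refine ⟨ih, List.isChain_singleton _, ?_⟩
      intro x hx y hy
      rw [LE_getLast?] at hx
      simp only [Option.mem_def, Option.some.injEq, List.head?_cons] at hx hy
      subst hx hy
      exact hR n

theorem loopErase_adj {s : ℕ → U} (hs : Transient s) {R : U → U → Prop}
    (hR : ∀ n, R (s n) (s (n + 1))) (k : ℕ) : R (loopErase s k) (loopErase s (k + 1)) := by
  have hγ := isLoopErasure_loopErase hs
  obtain ⟨n, h1, h2⟩ := ((hγ k).and (hγ (k + 1))).exists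
  have hc := LE_isChain hR n
  rw [List.isChain_iff_getElem] at hc
  obtain ⟨hk1, hk1'⟩ := List.getElem?_eq_some_iff.1 h1
  obtain ⟨hk2, hk2'⟩ := List.getElem?_eq_some_iff.1 h2
  have := hc k hk2
  rw [hk1', hk2'] at this
  exact this

end Pool.Agent.H39.LW
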