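import Pool.Agent.H39.LW.HK
import Pool.Agent.H39.LW.InfPath

/-!
# Module TR: transience, exits, measurability

* `ae_transient`: Borel–Cantelli (`measure_setOf_frequently_eq_zero`) with
  `∑ₙ Pr (pos a ω n = v) = ∑ₙ ofReal (hk n (v - a)) < ∞`, for all `v` in the countable set `ℤ^d`.
* `ae_exit`: a transient path cannot stay in a finite set (pigeonhole).
* `measurable_LE`: the function depends on the first `n` steps only (`measurable_of_prefix`), the
  target carries the `⊤` σ-algebra.
* `measurableSet_inL`: `InL` is a countable union of countable intersections of the measurable sets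
  `{ω | y ∈ LE (pos a ω) m}` (`measurableSet_eventually_atTop` or `MeasurableSet.iUnion/iInter`).
* `inL_translate`: `pos (a + c) ω = c + pos a ω`, `LE_translate`.
* `prob_inL_le`: `InL (pos a ω) y` implies that the walk visits `y`; union bound over the times.
* `prob_hit_le`: the same union bound.
-/

open MeasureTheory ProbabilityTheory Filter
open scoped ENNReal

namespace Pool.Agent.H39.LW

variable {d : ℕ} [NeZero d]

/-- `h x`: the probability that the loop-erased walk from the origin visits `x` -/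
noncomputable def hL (x : Zd d) : ℝ≥0∞ := Pr d {ω | InL (pos 0 ω) x}

theorem ae_transient (hs : ∀ y : Zd d, Summable fun m => hk m y) (a : Zd d) :
    ∀ᵐ ω ∂Pr d, Transient (pos a ω) := by
  have key : ∀ v : Zd d, ∀ᵐ ω ∂Pr d, {n | pos a ω n = v}.Finite := by
    intro v
    have h1 : ∑' n, Pr d {ω | pos a ω n = v} ≠ ∞ := by
      simp_rw [prob_pos]
      exact ((hs (v - a)).tsum_ofReal_ne_top)
    have h2 := measure_setOf_frequently_eq_zero h1
    rw [← compl_compl {x : Om d | ∃ᶠ n in atTop, pos a x n = v}] at h2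
    filter_upwards [compl_mem_ae_iff.2 h2] with ω hω
    have h3 : ¬ ∃ᶠ n in atTop, pos a ω n = v := fun h => hω fun h' => h' h
    rw [← Nat.cofinite_eq_atTop, Filter.frequently_cofinite_iff_infinite] at h3
    exact Set.not_infinite.1 h3
  filter_upwards [ae_all_iff.2 key] with ω hω v using hω v

theorem exit_of_transient {s : ℕ → Zd d} (hs : Transient s) (Λ : Finset (Zd d)) : ∃ n, s n ∉ Λ := by
  by_contra h
  push Not at h
  have h1 : (Set.univ : Set ℕ) ⊆ ⋃ v ∈ Λ, {n | s n = v} := by
    intro n _
    simp only [Set.mem_iUnion, Set.mem_setOf_eq]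
    exact ⟨s n, h n, rfl⟩
  have h2 : (⋃ v ∈ Λ, {n | s n = v}).Finite := Set.Finite.biUnion Λ.finite_toSet fun v _ => hs v
  exact Set.infinite_univ (h2.subset h1)

theorem ae_exit (hs : ∀ y : Zd d, Summable fun m => hk m y) (a : Zd d) (Λ : Finset (Zd d)) :
    ∀ᵐ ω ∂Pr d, ∃ n, pos a ω n ∉ Λ := by
  filter_upwards [ae_transient hs a] with ω hω
  exact exit_of_transient hω Λ

/-- every set of the form `{ω | LE (pos a ω) n ∈ S}` is measurable -/
theorem measurableSet_LE (a : Zd d) (n : ℕ) (S : Set (List (Zd d))) :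
    MeasurableSet {ω : Om d | LE (pos a ω) n ∈ S} := by
  refine measurableSet_setOf.2 (measurable_of_prefix n fun ω ω' h => ?_)
  have h1 : LE (pos a ω) n = LE (pos a ω') n :=
    LE_congr fun i hi => pos_congr a fun j hj => h j (lt_of_lt_of_le hj hi)
  rw [h1]

theorem measurableSet_inL (a y : Zd d) : MeasurableSet {ω : Om d | InL (pos a ω) y} := by
  have h1 : {ω : Om d | InL (pos a ω) y} =
      ⋃ N : ℕ, ⋂ m : ℕ, ⋂ _ : N ≤ m, {ω | LE (pos a ω) m ∈ {L : List (Zd d) | y ∈ L}} := by
    ext ω
    simp only [InL, eventually_atTop, Set.mem_setOf_eq, Set.mem_iUnion, Set.mem_iInter]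
  rw [h1]
  exact MeasurableSet.iUnion fun N => MeasurableSet.iInter fun m => MeasurableSet.iInter fun _ =>
    measurableSet_LE a m _

theorem inL_translate (a c y : Zd d) (ω : Om d) : InL (pos (c + a) ω) (c + y) ↔ InL (pos a ω) y := by
  have h1 : pos (c + a) ω = fun n => c + pos a ω n := funext fun n => pos_add c a ω n
  unfold InL
  rw [h1]
  refine eventually_congr (Eventually.of_forall fun m => ?_)
  rw [LE_translate, List.mem_map]
  constructor
  · rintro ⟨v, hv, h⟩
    rwa [← add_left_cancel h]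
  · intro h
    exact ⟨y, h, rfl⟩

theorem prob_inL (a y : Zd d) : Pr d {ω | InL (pos a ω) y} = hL (y - a) := by
  unfold hL
  congr 1
  ext ω
  have h := inL_translate (0 : Zd d) a (y - a) ω
  rw [add_zero, add_sub_cancel] at h
  exact h

theorem prob_hit_le (a y : Zd d) :
    Pr d {ω | ∃ n, pos a ω n = y} ≤ ∑' n, ENNReal.ofReal (hk n (y - a)) := by
  have h1 : {ω : Om d | ∃ n, pos a ω n = y} = ⋃ n, {ω | pos a ω n = y} := by
    ext ω; simp
  rw [h1]
  refine (measure_iUnion_le _).trans (le_of_eq ?_)
  exact tsum_congr fun n => prob_pos n a y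

theorem hL_le (y : Zd d) : hL y ≤ ∑' n, ENNReal.ofReal (hk n y) := by
  have h1 := prob_hit_le (0 : Zd d) y
  rw [sub_zero] at h1
  refine le_trans (measure_mono ?_) h1
  intro ω hω
  obtain ⟨m, hm⟩ := Filter.Eventually.exists hω
  obtain ⟨i, _, hi⟩ := mem_range_of_mem_LE hm
  exact ⟨i, hi⟩

end Pool.Agent.H39.LW
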