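import Pool.Agent.H39.LW.Markov

/-!
# Module HK: the heat kernel

`hk n z` is the probability that simple random walk from `0` is at `z` at time `n`.
All statements are by induction on `n` from the definition; `prob_pos` uses `lintegral_cons` (or
`lintegral_split`): `{pos a ω (n+1) = z}`; conditionally on the first step `e` the walk is the walk
from `a + sv e`. All the functions `hk n` have finite support (`hk_support`), so the `tsum`s are
finite sums; `hk_eq_zero` : `hk n z = 0` when `∑ i |z i| > n`.
-/

open MeasureTheory ProbabilityTheory Filter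
open scoped ENNReal

namespace Pool.Agent.H39.LW

variable {d : ℕ}

/-- the heat kernel of simple random walk on `ℤ^d` -/
noncomputable def hk : ℕ → Zd d → ℝ
  | 0, z => if z = 0 then 1 else 0
  | n + 1, z => (∑ e : Step d, hk n (z - sv e)) / (2 * d)

lemma hk_nonneg (n : ℕ) (z : Zd d) : 0 ≤ hk n z := by
  induction n generalizing z with
  | zero => simp only [hk]; split_ifs <;> norm_num
  | succ n ih =>
    simp only [hk]
    exact div_nonneg (Finset.sum_nonneg fun e _ => ih _) (by positivity)

lemma sum_abs_sv (e : Step d) : ∑ i, |sv e i| = 1 := by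
  have h1 : ∀ i, |sv e i| = if i = e.1 then 1 else 0 := by
    intro i
    by_cases hi : i = e.1
    · subst hi
      simp only [sv, Pi.single_eq_same, if_true]
      split_ifs <;> simp
    · simp [sv, hi]
  simp [h1]

lemma hk_eq_zero {n : ℕ} {z : Zd d} (h : (n : ℤ) < ∑ i, |z i|) : hk n z = 0 := by
  induction n generalizing z with
  | zero =>
    simp only [hk]
    rw [if_neg]
    rintro rfl
    simp at h
  | succ n ih =>
    simp only [hk]
    rw [Finset.sum_eq_zero, zero_div]
    intro e _
    refine ih ?_
    have h1 : ∑ i, |z i| ≤ ∑ i, |(z - sv e) i| + ∑ i, |sv e i| := by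
      rw [← Finset.sum_add_distrib]
      refine Finset.sum_le_sum fun i _ => ?_
      calc |z i| = |(z - sv e) i + sv e i| := by simp
        _ ≤ _ := abs_add_le _ _
    rw [sum_abs_sv] at h1
    push_cast at h
    linarith

lemma hk_support (n : ℕ) : (Function.support (hk n : Zd d → ℝ)).Finite := by
  refine (Set.finite_Icc (fun _ : Fin d => -(n : ℤ)) (fun _ => (n : ℤ))).subset ?_
  intro z hz
  have h1 : ∑ i, |z i| ≤ n := by
    by_contra hcon
    exact hz (hk_eq_zero (not_le.1 hcon))
  have h2 : ∀ i, |z i| ≤ n := fun i =>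
    (Finset.single_le_sum (f := fun i => |z i|) (fun j _ => abs_nonneg _) (Finset.mem_univ i)).trans
      h1
  exact ⟨fun i => (abs_le.1 (h2 i)).1, fun i => (abs_le.1 (h2 i)).2⟩

/-- the opposite step -/
def opp (d : ℕ) : Step d ≃ Step d := (Equiv.refl _).prodCongr Equiv.boolNot

lemma sv_opp (e : Step d) : sv (opp d e) = -sv e := by
  rcases e with ⟨i, b⟩
  cases b <;> simp [opp, sv, ← Pi.single_neg]

lemma summable_hk_mul (m : ℕ) (a : Zd d) (g : Zd d → ℝ) :
    Summable fun z => hk m (z - a) * g z := by
  refine summable_of_hasFiniteSupport ?_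
  refine ((hk_support (d := d) m).preimage (f := fun z => z - a)
    (sub_left_injective.injOn)).subset ?_
  intro z hz
  exact left_ne_zero_of_mul hz

lemma summable_hk_mul' (m : ℕ) (g : Zd d → ℝ) : Summable fun z => hk m z * g z := by
  simpa using summable_hk_mul m 0 g

/-- one step of the walk -/
lemma tsum_hk_succ (m : ℕ) (g : Zd d → ℝ) :
    ∑' z, hk (m + 1) z * g z = (∑ e : Step d, ∑' z, hk m z * g (z + sv e)) / (2 * d) := by
  have h1 : ∀ z : Zd d, hk (m + 1) z * g z = (∑ e : Step d, hk m (z - sv e) * g z) / (2 * d) := by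
    intro z
    simp only [hk]
    rw [← Finset.sum_mul]
    ring
  simp only [h1]
  rw [tsum_div_const, Summable.tsum_finsetSum fun e _ => summable_hk_mul m (sv e) g]
  congr 1
  refine Finset.sum_congr rfl fun e _ => ?_
  rw [← Equiv.tsum_eq (Equiv.subRight (sv e)) fun z => hk m z * g (z + sv e)]
  simp

lemma hk_neg (n : ℕ) (z : Zd d) : hk n (-z) = hk n z := by
  induction n generalizing z with
  | zero => simp [hk]
  | succ n ih =>
    simp only [hk]
    congr 1
    rw [← Equiv.sum_comp (opp d)]
    refine Finset.sum_congr rfl fun e _ => ?_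
    rw [sv_opp, ← ih]
    congr 1
    abel

/-- Chapman–Kolmogorov -/
lemma hk_add (m n : ℕ) (z : Zd d) : hk (m + n) z = ∑' y, hk m y * hk n (z - y) := by
  induction m generalizing z with
  | zero =>
    rw [tsum_eq_single (0 : Zd d)]
    · simp [hk]
    · intro y hy
      simp [hk, hy]
  | succ m ih =>
    rw [tsum_hk_succ m fun y => hk n (z - y), show m + 1 + n = (m + n) + 1 by ring]
    simp only [hk]
    congr 1
    refine Finset.sum_congr rfl fun e _ => ?_
    rw [ih]
    refine tsum_congr fun y => ?_
    congr 2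
    abel

lemma hk_two_mul (m : ℕ) : hk (m + m) (0 : Zd d) = ∑' y : Zd d, hk m y ^ 2 := by
  rw [hk_add]
  refine tsum_congr fun y => ?_
  rw [zero_sub, hk_neg, sq]

/-- Cauchy–Schwarz -/
lemma hk_le (m n : ℕ) (z : Zd d) :
    hk (m + n) z ≤ Real.sqrt (hk (m + m) (0 : Zd d) * hk (n + n) (0 : Zd d)) := by
  classical
  have h1 : hk (n + n) (0 : Zd d) = ∑' y : Zd d, hk n (z - y) ^ 2 := by
    rw [hk_two_mul]
    exact ((Equiv.subLeft z).tsum_eq fun y => hk n y ^ 2).symm
  rw [hk_add, h1, hk_two_mul, Real.sqrt_mul (tsum_nonneg fun y => sq_nonneg _)]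
  have hf1 : (Function.support fun y : Zd d => hk n (z - y)).Finite :=
    (hk_support (d := d) n).preimage (f := fun y => z - y) (sub_right_injective.injOn)
  set S : Finset (Zd d) := (hk_support (d := d) m).toFinset ∪ hf1.toFinset with hS
  have k1 : ∀ y ∉ S, hk m y = 0 := by
    intro y hy
    by_contra hne
    exact hy (Finset.mem_union_left _ ((Set.Finite.mem_toFinset _).2 hne))
  have k2 : ∀ y ∉ S, hk n (z - y) = 0 := by
    intro y hy
    by_contra hne
    exact hy (Finset.mem_union_right _ ((Set.Finite.mem_toFinset _).2 hne))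
  rw [tsum_eq_sum (s := S) fun y hy => by rw [k1 y hy, zero_mul],
    tsum_eq_sum (s := S) fun y hy => by rw [k1 y hy]; norm_num,
    tsum_eq_sum (s := S) fun y hy => by rw [k2 y hy]; norm_num]
  exact Real.sum_mul_le_sqrt_mul_sqrt _ _ _

variable [NeZero d]

lemma hk_sum (n : ℕ) : ∑' z : Zd d, hk n z = 1 := by
  have hd : (d : ℝ) ≠ 0 := by exact_mod_cast NeZero.ne d
  induction n with
  | zero => simp [hk]
  | succ n ih =>
    have h1 := tsum_hk_succ (d := d) n fun _ => 1
    simp only [mul_one] at h1
    rw [h1, ih]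
    simp only [Finset.sum_const, Finset.card_univ, Fintype.card_prod, Fintype.card_fin,
      Fintype.card_bool, nsmul_eq_mul, mul_one]
    push_cast
    field_simp

theorem prob_pos (n : ℕ) (a z : Zd d) : Pr d {ω | pos a ω n = z} = ENNReal.ofReal (hk n (z - a)) := by
  have hd : (0 : ℝ) < d := by exact_mod_cast Nat.pos_of_ne_zero (NeZero.ne d)
  induction n generalizing a with
  | zero =>
    simp only [pos_zero, hk, sub_eq_zero]
    by_cases h : z = a
    · subst h
      simp
    · have h2 : {_ω : Om d | a = z} = ∅ := by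
        ext ω
        simp [Ne.symm h]
      rw [h2, if_neg h]
      simp
  | succ n ih =>
    have hm : ∀ (b : Zd d) (k : ℕ), MeasurableSet {ω : Om d | pos b ω k = z} := fun b k =>
      measurable_pos b k (measurableSet_singleton z)
    have h1 : Pr d {ω | pos a ω (n + 1) = z} =
        ∫⁻ ω, {ω | pos a ω (n + 1) = z}.indicator 1 ω ∂Pr d := by
      rw [lintegral_indicator_one (hm _ _)]
    rw [h1, lintegral_cons (measurable_one.indicator (hm _ _))]
    have h2 : ∀ e : Step d, ∫⁻ ω, {ω | pos a ω (n + 1) = z}.indicator 1 (cons e ω) ∂Pr d =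
        ENNReal.ofReal (hk n (z - a - sv e)) := by
      intro e
      have h3 : ∀ ω : Om d, {ω | pos a ω (n + 1) = z}.indicator (1 : Om d → ℝ≥0∞) (cons e ω) =
          {ω | pos (a + sv e) ω n = z}.indicator 1 ω := by
        intro ω
        simp only [Set.indicator_apply, Set.mem_ofPred_eq, pos_cons_succ]
        rfl
      simp only [h3]
      rw [lintegral_indicator_one (hm _ _), ih]
      congr 2
      abel
    simp only [h2, hk]
    rw [ENNReal.ofReal_div_of_pos (by positivity), ENNReal.ofReal_sum_of_nonneg fun e _ => hk_nonneg _ _,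
      ENNReal.ofReal_mul (by norm_num), ENNReal.ofReal_natCast, ENNReal.ofReal_ofNat]

end Pool.Agent.H39.LW
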