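import Pool.Agent.H39.LW.Lists
import Pool.Agent.H39.LW.PathSum

/-!
# Module WS: walk sums and the loop-erasure identity

`ws w ψ B n F v` is the sum over all walks `v = v₀, v₁, …, v_n` inside the finite set `B` of
`w v₀ v₁ ⋯ w v_{n-1} v_n * ψ v_n * F [v₀, …, v_n]`.
`green w B v = ∑_n` of the sum over walks of length `n` in `B` from `v` to `v`.

## `ws_decomp` (decomposition at the last visit to `v`)

Write `g m u = ws w 1_v B m 1 u`, `c 0 = ψ v * F []`,
`c (k+1) = ∑ u ∈ B.erase v, w v u * ws w ψ (B.erase v) k F u`. Show by induction on `N`, for all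
`u ∈ B` and all `H : List U → ℝ≥0∞`:

  `ws w ψ B N (fun l => if v ∈ l then F (aft v l) else H l) u
     = ∑ (m,k) ∈ antidiagonal N, g m u * c k + ws w ψ (B.erase v) N H u`

(use `aft_cons`; step `N → N + 1` for `u = v`: the functional `l ↦ K (v :: l)` is
`if v ∈ l then F (aft v l) else F l`, i.e. it is of the same form with `H := F`, which gives the sum
over `m ≥ 1` plus `c (N+1) = g 0 v * c (N+1)`; for `u ≠ v` it is of the same form with
`H := fun l => H (u :: l)`, and `g 0 u = 0`.)
For `u = v` the last term is `0` (`v ∉ B.erase v`), and `v ∈ l` for all walks from `v`. Sum over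
`N` (Cauchy product in `ℝ≥0∞`).

## `wsi`

Strong induction on `B`: with `φ B l = φ (B \ (LEl l).toFinset)` and `LEl (v :: l) = v :: LEl (aft v l)`,
`ws_decomp` gives
`Q_B(v) = green w B v * (ψ v * φ (B.erase v) + ∑ u ∈ B.erase v, w v u * Q_{B.erase v}(u))`;
multiply by `D B` and use `D B * green w B v = D (B.erase v)`, the induction hypothesis and
`R1_mem`. (Every list occurring in `ws _ _ B n F v` starts with `v`, so `F` may be replaced by
a functional of `aft v l`, see `ws_congr`.)
-/

open scoped ENNReal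

namespace Pool.Agent.H39.LW

variable {U : Type*} [DecidableEq U]

/-- sum over the walks of length `n` inside `B` started at `v` -/
noncomputable def ws (w : U → U → ℝ) (ψ : U → ℝ) (B : Finset U) :
    ℕ → (List U → ℝ≥0∞) → U → ℝ≥0∞
  | 0, F, v => if v ∈ B then ENNReal.ofReal (ψ v) * F [v] else 0
  | n + 1, F, v =>
      if v ∈ B then ∑ u ∈ B, ENNReal.ofReal (w v u) * ws w ψ B n (fun l => F (v :: l)) u else 0

/-- Green's function of the walk killed outside `B`, at `(v, v)` -/
noncomputable def green (w : U → U → ℝ) (B : Finset U) (v : U) : ℝ≥0∞ :=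
  ∑' n, ws w (fun u => if u = v then 1 else 0) B n (fun _ => 1) v

variable {w : U → U → ℝ} {ψ : U → ℝ} {B : Finset U}

lemma ws_notMem {v : U} (h : v ∉ B) (n : ℕ) (F : List U → ℝ≥0∞) : ws w ψ B n F v = 0 := by
  cases n <;> simp [ws, h]

/-- only lists starting with `v`, with entries in `B`, matter -/
lemma ws_congr {F G : List U → ℝ≥0∞} (n : ℕ) (v : U)
    (h : ∀ l : List U, (∀ x ∈ l, x ∈ B) → F (v :: l) = G (v :: l)) :
    ws w ψ B n F v = ws w ψ B n G v := by
  induction n generalizing v F G with
  | zero =>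
    simp only [ws]
    rw [h [] (by simp)]
  | succ n ih =>
    simp only [ws]
    split_ifs with hv
    · refine Finset.sum_congr rfl fun u hu => ?_
      rw [ih (F := fun l => F (v :: l)) (G := fun l => G (v :: l)) u fun l hl => ?_]
      refine h (u :: l) fun x hx => ?_
      rcases List.mem_cons.1 hx with rfl | hx
      · exact hu
      · exact hl x hx
    · rfl

/-- the coefficients of the walks after the last visit to `v` -/
noncomputable def wsTail (w : U → U → ℝ) (ψ : U → ℝ) (B : Finset U) (F : List U → ℝ≥0∞) (v : U) :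
    ℕ → ℝ≥0∞
  | 0 => ENNReal.ofReal (ψ v) * F []
  | k + 1 => ∑ u ∈ B.erase v, ENNReal.ofReal (w v u) * ws w ψ (B.erase v) k F u

lemma ws_decomp_aux {v : U} (hv : v ∈ B) (F : List U → ℝ≥0∞) (N : ℕ) :
    ∀ u ∈ B, ∀ H : List U → ℝ≥0∞,
      ws w ψ B N (fun l => if v ∈ l then F (aft v l) else H l) u
        = ∑ p ∈ Finset.HasAntidiagonal.antidiagonal N,
            ws w (fun u => if u = v then 1 else 0) B p.1 (fun _ => 1) u * wsTail w ψ B F v p.2
          + ws w ψ (B.erase v) N H u := by
  have haft : ∀ l : List U, aft v (v :: l) = if v ∈ l then aft v l else l := by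
    intro l
    rw [aft_cons]
    simp
  induction N with
  | zero =>
    intro u hu H
    by_cases huv : u = v
    · subst huv
      have h1 : aft u [u] = [] := by
        have := haft []
        simpa using this
      simp [ws, wsTail, hu, h1]
    · have h1 : v ∉ [u] := by simpa using fun h => huv h.symm
      have h2 : u ∈ B.erase v := Finset.mem_erase.2 ⟨huv, hu⟩
      simp [ws, hu, h1, h2, huv]
  | succ N ih =>
    intro u hu H
    have key : ∀ H' : List U → ℝ≥0∞,
        ∑ u' ∈ B, ENNReal.ofReal (w u u')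
            * ws w ψ B N (fun l => if v ∈ l then F (aft v l) else H' l) u'
          = ∑ p ∈ Finset.HasAntidiagonal.antidiagonal N,
              ws w (fun u => if u = v then 1 else 0) B (p.1 + 1) (fun _ => 1) u
                * wsTail w ψ B F v p.2
            + ∑ u' ∈ B.erase v, ENNReal.ofReal (w u u') * ws w ψ (B.erase v) N H' u' := by
      intro H'
      have e1 : ∑ u' ∈ B, ENNReal.ofReal (w u u')
            * ws w ψ B N (fun l => if v ∈ l then F (aft v l) else H' l) u'
          = ∑ u' ∈ B, (∑ p ∈ Finset.HasAntidiagonal.antidiagonal N, ENNReal.ofReal (w u u') *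
              ws w (fun u => if u = v then 1 else 0) B p.1 (fun _ => 1) u'
                * wsTail w ψ B F v p.2)
            + ∑ u' ∈ B, ENNReal.ofReal (w u u') * ws w ψ (B.erase v) N H' u' := by
        rw [← Finset.sum_add_distrib]
        refine Finset.sum_congr rfl fun u' hu' => ?_
        rw [ih u' hu' H', mul_add, Finset.mul_sum]
        congr 1
        refine Finset.sum_congr rfl fun p _ => ?_
        rw [mul_assoc]
      rw [e1, Finset.sum_comm]
      congr 1
      · refine Finset.sum_congr rfl fun p _ => ?_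
        rw [← Finset.sum_mul]
        congr 1
        rw [ws, if_pos hu]
      · rw [← Finset.add_sum_erase _ _ hv, ws_notMem (Finset.notMem_erase v B), mul_zero,
          zero_add]
    rw [Finset.Nat.sum_antidiagonal_succ (n := N)
      (f := fun p => ws w (fun u => if u = v then 1 else 0) B p.1 (fun _ => 1) u
        * wsTail w ψ B F v p.2)]
    by_cases huv : u = v
    · subst huv
      have h0 : ws w (fun u' => if u' = u then 1 else 0) B 0 (fun _ => 1) u = 1 := by
        simp [ws, hu]
      have h1 : ws w ψ (B.erase u) (N + 1) H u = 0 := ws_notMem (Finset.notMem_erase u B) _ _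
      rw [h1, add_zero]
      simp only [h0, one_mul]
      rw [ws, if_pos hu]
      have h2 : (fun l : List U => if u ∈ u :: l then F (aft u (u :: l)) else H (u :: l))
          = fun l => if u ∈ l then F (aft u l) else F l := by
        funext l
        rw [if_pos List.mem_cons_self, haft]
        split_ifs <;> rfl
      rw [h2, key F, add_comm]
      rfl
    · have h0 : ws w (fun u' => if u' = v then 1 else 0) B 0 (fun _ => 1) u = 0 := by
        simp [ws, huv]
      have h2 : u ∈ B.erase v := Finset.mem_erase.2 ⟨huv, hu⟩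
      simp only [h0, zero_mul, zero_add]
      rw [ws, if_pos hu, ws, if_pos h2]
      have h3 : (fun l : List U => if v ∈ u :: l then F (aft v (u :: l)) else H (u :: l))
          = fun l => if v ∈ l then F (aft v l) else H (u :: l) := by
        funext l
        have h4 : v ∈ u :: l ↔ v ∈ l := by
          simp only [List.mem_cons]
          constructor
          · rintro (h | h)
            · exact absurd h.symm huv
            · exact h
          · exact Or.inr
        by_cases hl : v ∈ l
        · rw [if_pos (h4.2 hl), if_pos hl, aft_cons, if_pos hl]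
        · rw [if_neg (fun h => hl (h4.1 h)), if_neg hl]
      rw [h3, key fun l => H (u :: l)]

theorem ws_decomp {v : U} (hv : v ∈ B) (F : List U → ℝ≥0∞) :
    ∑' n, ws w ψ B n (fun l => F (aft v l)) v
      = green w B v * (ENNReal.ofReal (ψ v) * F []
          + ∑ u ∈ B.erase v, ENNReal.ofReal (w v u) * ∑' n, ws w ψ (B.erase v) n F u) := by
  set g : ℕ → ℝ≥0∞ := fun m => ws w (fun u => if u = v then 1 else 0) B m (fun _ => 1) v with hg
  set c : ℕ → ℝ≥0∞ := wsTail w ψ B F v with hc
  have h1 : ∀ n, ws w ψ B n (fun l => F (aft v l)) v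
      = ∑ p ∈ Finset.HasAntidiagonal.antidiagonal n, g p.1 * c p.2 := by
    intro n
    have h2 := ws_decomp_aux (w := w) (ψ := ψ) hv F n v hv (fun _ => 0)
    rw [ws_notMem (Finset.notMem_erase v B), add_zero] at h2
    rw [← h2]
    refine ws_congr n v fun l _ => ?_
    rw [if_pos List.mem_cons_self]
  have h2 : ∑' n, ∑ p ∈ Finset.HasAntidiagonal.antidiagonal n, g p.1 * c p.2 = (∑' m, g m) * ∑' k, c k := by
    have e1 : ∀ n, ∑ p ∈ Finset.HasAntidiagonal.antidiagonal n, g p.1 * c p.2
        = ∑' p : Finset.HasAntidiagonal.antidiagonal n, g (p : ℕ × ℕ).1 * c (p : ℕ × ℕ).2 := by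
      intro n
      rw [tsum_fintype]
      exact (Finset.sum_coe_sort (Finset.HasAntidiagonal.antidiagonal n) fun p : ℕ × ℕ => g p.1 * c p.2).symm
    simp only [e1]
    rw [← ENNReal.tsum_sigma' (f := fun p : Σ n : ℕ, Finset.HasAntidiagonal.antidiagonal n =>
      g (p.2 : ℕ × ℕ).1 * c (p.2 : ℕ × ℕ).2)]
    rw [← Equiv.tsum_eq Finset.HasAntidiagonal.sigmaAntidiagonalEquivProd.symm
      (fun p : Σ n : ℕ, Finset.HasAntidiagonal.antidiagonal n => g (p.2 : ℕ × ℕ).1 * c (p.2 : ℕ × ℕ).2)]
    have e2 : ∀ p : ℕ × ℕ, (fun p : Σ n : ℕ, Finset.HasAntidiagonal.antidiagonal n =>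
        g (p.2 : ℕ × ℕ).1 * c (p.2 : ℕ × ℕ).2) (Finset.HasAntidiagonal.sigmaAntidiagonalEquivProd.symm p)
        = g p.1 * c p.2 := fun p => rfl
    simp only [e2]
    rw [ENNReal.tsum_prod (f := fun a b => g a * c b)]
    simp only [ENNReal.tsum_mul_left, ENNReal.tsum_mul_right]
  have h3 : ∑' k, c k = ENNReal.ofReal (ψ v) * F []
      + ∑ u ∈ B.erase v, ENNReal.ofReal (w v u) * ∑' n, ws w ψ (B.erase v) n F u := by
    rw [tsum_eq_zero_add' ENNReal.summable]
    congr 1
    have e1 : ∀ k, c (k + 1) = ∑ u ∈ B.erase v, ENNReal.ofReal (w v u) * ws w ψ (B.erase v) k F u :=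
      fun k => rfl
    simp only [e1]
    rw [Summable.tsum_finsetSum fun _ _ => ENNReal.summable]
    refine Finset.sum_congr rfl fun u _ => ?_
    rw [ENNReal.tsum_mul_left]
  simp only [h1]
  rw [h2, h3]
  rfl

/-- the loop-erasure identity -/
theorem wsi (hw : ∀ u v, 0 ≤ w u v) (hψ : ∀ u, 0 ≤ ψ u) {D : Finset U → ℝ}
    {Λ : Finset U} (hD : ∀ C ⊆ Λ, 0 ≤ D C)
    (hgreen : ∀ B ⊆ Λ, ∀ v ∈ B, ENNReal.ofReal (D B) * green w B v = ENNReal.ofReal (D (B.erase v)))
    {φ : Finset U → ℝ} (hφ : ∀ C, 0 ≤ φ C) :
    ∀ B ⊆ Λ, ∀ v ∈ B,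
      ENNReal.ofReal (D B) * ∑' n, ws w ψ B n (fun l => ENNReal.ofReal (φ (B \ (LEl l).toFinset))) v
        = ENNReal.ofReal (R1 w ψ (fun C => D C * φ C) B v) := by
  intro B
  induction B using Finset.strongInduction with
  | H B ih =>
    intro hB v hv
    have hB' : B.erase v ⊆ Λ := (Finset.erase_subset v B).trans hB
    have hR : ∀ u, 0 ≤ R1 w ψ (fun C => D C * φ C) (B.erase v) u := by
      intro u
      rw [R1_congr (g' := fun C => if C ⊆ Λ then D C * φ C else 0) (B.erase v) u]
      · refine R1_nonneg hw hψ (fun C => ?_) _ _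
        split_ifs with h
        · exact mul_nonneg (hD C h) (hφ C)
        · exact le_rfl
      · intro C hC
        rw [if_pos (hC.trans ((Finset.erase_subset _ _).trans hB'))]
    set F : List U → ℝ≥0∞ := fun m => ENNReal.ofReal (φ (B.erase v \ (LEl m).toFinset)) with hF
    have h1 : ∀ n, ws w ψ B n (fun l => ENNReal.ofReal (φ (B \ (LEl l).toFinset))) v
        = ws w ψ B n (fun l => F (aft v l)) v := by
      intro n
      refine ws_congr n v fun l _ => ?_
      have e1 : aft v (v :: l) = aft v l := by
        rw [aft_cons]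
        split_ifs with h1 h2
        · rfl
        · rw [aft_notMem h1]
        · exact absurd rfl h2
      have e2 : B \ (LEl (v :: l)).toFinset = B.erase v \ (LEl (aft v l)).toFinset := by
        rw [LEl_cons]
        ext x
        simp only [Finset.mem_sdiff, List.mem_toFinset, List.mem_cons, Finset.mem_erase]
        tauto
      simp only [hF]
      rw [e1, e2]
    simp only [h1]
    rw [ws_decomp hv F, ← mul_assoc, hgreen B hB v hv, mul_add, Finset.mul_sum]
    have hF0 : F [] = ENNReal.ofReal (φ (B.erase v)) := by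
      simp [hF, LEl_nil]
    have h2 : ∀ u ∈ B.erase v, ENNReal.ofReal (D (B.erase v)) *
        (ENNReal.ofReal (w v u) * ∑' n, ws w ψ (B.erase v) n F u)
        = ENNReal.ofReal (w v u * R1 w ψ (fun C => D C * φ C) (B.erase v) u) := by
      intro u hu
      rw [mul_left_comm, ih _ (Finset.erase_ssubset hv) hB' u hu, ENNReal.ofReal_mul (hw v u)]
    rw [Finset.sum_congr rfl h2, hF0, R1_mem hv,
      ENNReal.ofReal_add (mul_nonneg (hψ v) (mul_nonneg (hD _ hB') (hφ _)))
        (Finset.sum_nonneg fun u _ => mul_nonneg (hw v u) (hR u)),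
      ENNReal.ofReal_sum_of_nonneg (fun u _ => mul_nonneg (hw v u) (hR u)),
      ENNReal.ofReal_mul (hψ v), ENNReal.ofReal_mul (hD _ hB')]
    congr 1
    ring

end Pool.Agent.H39.LW
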