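import Pool.Agent.H39.LW.Markov
import Pool.Agent.H39.LW.InfPath
import Pool.Agent.H39.LW.WalkSum
import Pool.Agent.H39.LW.HK

/-!
# Module WP: walk sums are probabilities of simple random walk

`pk u v` is the probability to step from `u` to `v` and `kap Λ v` the probability to step from `v`
out of `Λ`.

* `ws_eq_lintegral`: induction on `n` for all `F` and `v`, with `lintegral_cons`:
  `pre (pos v (cons e ω)) (n+1) = v :: pre (pos (v + sv e) ω) n`, and
  `(∑ e, f (v + sv e)) / (2 d) = ∑ u ∈ B, ofReal (pk v u) * f u` for `f` vanishing outside `B`.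
* `ws_exit_eq` / `ws_to_eq` (terminal weight = probability of the next step): from
  `ws_eq_lintegral` and `lintegral_split` at time `n` (`pos v ω (n+1) = pos v ω n + sv (ω n)`), or
  directly by the same induction on `n` (`n = 0` is `lintegral_cons`).
* `tsum_ws_exit`: sum over `n` (`lintegral_tsum`): the events
  `{pos 0..n ∈ Λ, pos (n+1) ∉ Λ}` are disjoint, and for `a ∈ Λ` their union is the event that
  the walk leaves `Λ`; on the `n`-th one `tm Λ a ω = n`.
* `tsum_ws_to`: same with the events `{pos 0..n ∈ C, pos (n+1) = x}` (disjoint as `x ∉ C`).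
* `tsum_ws_green`: `ws … Λ n 1 u ≤ Pr (pos u n = v) = ofReal (hk n (v - u))`, summable.
-/

open MeasureTheory ProbabilityTheory Filter
open scoped ENNReal

namespace Pool.Agent.H39.LW

variable {d : ℕ}

/-- transition probabilities of simple random walk -/
noncomputable def pk (u v : Zd d) : ℝ :=
  ((Finset.univ.filter fun e : Step d => u + sv e = v).card : ℝ) / (2 * d)

/-- probability to leave `Λ` from `v` in one step -/
noncomputable def kap (Λ : Finset (Zd d)) (v : Zd d) : ℝ :=
  ((Finset.univ.filter fun e : Step d => v + sv e ∉ Λ).card : ℝ) / (2 * d)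

/-- the time just before the walk leaves `Λ` -/
noncomputable def tm (Λ : Finset (Zd d)) (a : Zd d) (ω : Om d) : ℕ := sInf {n | pos a ω (n + 1) ∉ Λ}

/-- the loop erasure of the walk up to the time just before it leaves `Λ` -/
noncomputable def LEf (Λ : Finset (Zd d)) (a : Zd d) (ω : Om d) : List (Zd d) :=
  LE (pos a ω) (tm Λ a ω)

/-- the walk from `b` leaves the set `C` by stepping from `C` to `x` (meaningful for `x ∉ C`) -/
def HitAt (C : Finset (Zd d)) (b x : Zd d) (ω : Om d) : Prop :=
  ∃ n, pos b ω (n + 1) = x ∧ ∀ i ≤ n, pos b ω i ∈ C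

lemma sv_not (e : Step d) : sv (e.1, !e.2) = -sv e := by
  obtain ⟨i, b⟩ := e
  unfold sv
  rw [← Pi.single_neg]
  cases b <;> simp

lemma sv_ne_zero (e : Step d) : sv e ≠ 0 := by
  obtain ⟨i, b⟩ := e
  intro h
  have := congrFun h i
  cases b <;> simp [sv] at this

lemma pk_symm (u v : Zd d) : pk u v = pk v u := by
  unfold pk
  congr 2
  refine Finset.card_bij' (fun e _ => (e.1, !e.2)) (fun e _ => (e.1, !e.2)) ?_ ?_ ?_ ?_
  · intro e he
    simp only [Finset.mem_filter, Finset.mem_univ, true_and] at he ⊢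
    rw [sv_not, ← he]
    abel
  · intro e he
    simp only [Finset.mem_filter, Finset.mem_univ, true_and] at he ⊢
    rw [sv_not, ← he]
    abel
  · intro e _
    simp
  · intro e _
    simp

lemma pk_nonneg (u v : Zd d) : 0 ≤ pk u v := by
  unfold pk
  positivity

lemma pk_self (u : Zd d) : pk u u = 0 := by
  unfold pk
  have h : (Finset.univ.filter fun e : Step d => u + sv e = u) = ∅ := by
    refine Finset.filter_eq_empty_iff.2 fun e _ he => sv_ne_zero e ?_
    simpa using he
  rw [h]
  simp

lemma kap_nonneg (Λ : Finset (Zd d)) (v : Zd d) : 0 ≤ kap Λ v := by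
  unfold kap
  positivity

lemma sum_card_fiber (Λ : Finset (Zd d)) (v : Zd d) :
    ∑ u ∈ Λ, (Finset.univ.filter fun e : Step d => v + sv e = u).card
      = (Finset.univ.filter fun e : Step d => v + sv e ∈ Λ).card := by
  simp only [Finset.card_filter]
  rw [Finset.sum_comm]
  refine Finset.sum_congr rfl fun e _ => ?_
  rw [Finset.sum_ite_eq]

variable [NeZero d]

lemma two_d_ne_zero : (2 * d : ℝ) ≠ 0 := by
  have : (d : ℝ) ≠ 0 := Nat.cast_ne_zero.2 (NeZero.ne d)
  positivity

lemma kap_eq (Λ : Finset (Zd d)) (v : Zd d) : kap Λ v = 1 - ∑ u ∈ Λ, pk v u := by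
  unfold kap pk
  rw [← Finset.sum_div, ← Nat.cast_sum, sum_card_fiber]
  have h := Finset.card_filter_add_card_filter_not (s := (Finset.univ : Finset (Step d)))
    (fun e : Step d => v + sv e ∈ Λ)
  have h2 : (Finset.univ : Finset (Step d)).card = d * 2 := by simp
  rw [h2] at h
  have h3 : ((Finset.univ.filter fun e : Step d => v + sv e ∈ Λ).card : ℝ)
      + ((Finset.univ.filter fun e : Step d => v + sv e ∉ Λ).card : ℝ) = d * 2 := by
    exact_mod_cast h
  have h4 := two_d_ne_zero (d := d)
  rw [eq_sub_iff_add_eq, ← add_div, div_eq_one_iff_eq h4]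
  linarith

lemma ofReal_card_div (c : ℕ) :
    ENNReal.ofReal ((c : ℝ) / (2 * d)) = (c : ℝ≥0∞) / (2 * d) := by
  have hd : (0 : ℝ) < 2 * d := by
    have : (0 : ℝ) < d := Nat.cast_pos.2 (NeZero.pos d)
    positivity
  rw [ENNReal.ofReal_div_of_pos hd, ENNReal.ofReal_natCast, ENNReal.ofReal_mul (by norm_num),
    ENNReal.ofReal_natCast]
  norm_num

/-- sum over the neighbours of `v` -/
lemma sum_pk_mul (B : Finset (Zd d)) (v : Zd d) (g : Zd d → ℝ≥0∞) (hg : ∀ u, u ∉ B → g u = 0) :
    ∑ u ∈ B, ENNReal.ofReal (pk v u) * g u = (∑ e : Step d, g (v + sv e)) / (2 * d) := by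
  have h1 : ∀ u, ENNReal.ofReal (pk v u) * g u
      = (∑ e : Step d, if v + sv e = u then g u else 0) / (2 * d) := by
    intro u
    unfold pk
    rw [ofReal_card_div, ← Finset.sum_filter, Finset.sum_const, nsmul_eq_mul,
      ENNReal.div_eq_inv_mul, ENNReal.div_eq_inv_mul, mul_assoc]
  simp only [h1, ENNReal.div_eq_inv_mul]
  rw [← Finset.mul_sum, Finset.sum_comm]
  congr 1
  refine Finset.sum_congr rfl fun e _ => ?_
  rw [Finset.sum_ite_eq]
  split_ifs with h
  · rfl
  · exact (hg _ h).symm

/-- first step: average of a function of the position at time `1` -/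
lemma lintegral_first (z : Zd d) (q : Zd d → ℝ≥0∞) :
    ∫⁻ ω, q (z + sv (ω 0)) ∂Pr d = (∑ e : Step d, q (z + sv e)) / (2 * d) := by
  rw [lintegral_cons (f := fun ω : Om d => q (z + sv (ω 0)))
    (measurable_of_prefix 1 fun ω ω' h => by rw [h 0 (by norm_num)])]
  simp

omit [NeZero d] in
lemma pre_cons (v : Zd d) (e : Step d) (ω : Om d) (n : ℕ) :
    pre (pos v (cons e ω)) (n + 1) = v :: pre (pos (v + sv e) ω) n := by
  unfold pre
  rw [List.range_succ_eq_map, List.map_cons, List.map_map, pos_zero]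
  congr 1
  refine List.map_congr_left fun i _ => ?_
  exact pos_cons_succ v e ω i

theorem ws_eq_lintegral (ψ : Zd d → ℝ) (B : Finset (Zd d)) (n : ℕ) :
    ∀ (F : List (Zd d) → ℝ≥0∞) (v : Zd d), ws pk ψ B n F v
      = ∫⁻ ω, (if ∀ i ≤ n, pos v ω i ∈ B then
          ENNReal.ofReal (ψ (pos v ω n)) * F (pre (pos v ω) n) else 0) ∂Pr d := by
  induction n with
  | zero =>
    intro F v
    have h : ∀ ω : Om d, (if ∀ i ≤ 0, pos v ω i ∈ B then
          ENNReal.ofReal (ψ (pos v ω 0)) * F (pre (pos v ω) 0) else 0)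
        = if v ∈ B then ENNReal.ofReal (ψ v) * F [v] else 0 := by
      intro ω
      have h1 : (∀ i ≤ 0, pos v ω i ∈ B) ↔ v ∈ B := by simp
      have h2 : pre (pos v ω) 0 = [v] := by simp [pre]
      simp only [h1, h2, pos_zero]
    simp only [h, lintegral_const, measure_univ, mul_one]
    rfl
  | succ n ih =>
    intro F v
    rw [lintegral_cons (f := fun ω : Om d => if ∀ i ≤ n + 1, pos v ω i ∈ B then
          ENNReal.ofReal (ψ (pos v ω (n + 1))) * F (pre (pos v ω) (n + 1)) else 0)
        (measurable_of_prefix (n + 1) fun ω ω' h => ?_)]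
    · by_cases hv : v ∈ B
      · have h1 : ∀ (e : Step d) (ω : Om d),
            (if ∀ i ≤ n + 1, pos v (cons e ω) i ∈ B then
              ENNReal.ofReal (ψ (pos v (cons e ω) (n + 1)))
                * F (pre (pos v (cons e ω)) (n + 1)) else 0)
            = if ∀ i ≤ n, pos (v + sv e) ω i ∈ B then
              ENNReal.ofReal (ψ (pos (v + sv e) ω n))
                * (fun l => F (v :: l)) (pre (pos (v + sv e) ω) n) else 0 := by
          intro e ω
          have h2 : (∀ i ≤ n + 1, pos v (cons e ω) i ∈ B)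
              ↔ ∀ i ≤ n, pos (v + sv e) ω i ∈ B := by
            constructor
            · intro h i hi
              rw [← pos_cons_succ]
              exact h (i + 1) (by omega)
            · intro h i hi
              cases i with
              | zero => simpa using hv
              | succ i => rw [pos_cons_succ]; exact h i (by omega)
          rw [pos_cons_succ, pre_cons]
          simp only [h2]
        simp only [h1]
        simp only [← ih (fun l => F (v :: l))]
        rw [← sum_pk_mul B v (fun u => ws pk ψ B n (fun l => F (v :: l)) u)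
          (fun u hu => ws_notMem hu n _)]
        simp [ws, hv]
      · have h1 : ∀ (e : Step d) (ω : Om d),
            (if ∀ i ≤ n + 1, pos v (cons e ω) i ∈ B then
              ENNReal.ofReal (ψ (pos v (cons e ω) (n + 1)))
                * F (pre (pos v (cons e ω)) (n + 1)) else 0) = 0 := by
          intro e ω
          rw [if_neg]
          intro h
          exact hv (by simpa using h 0 (by omega))
        simp only [h1]
        simp [ws, hv]
    · have h1 : ∀ i ≤ n + 1, pos v ω i = pos v ω' i := fun i hi =>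
        pos_congr v fun j hj => h j (by omega)
      have h2 : pre (pos v ω) (n + 1) = pre (pos v ω') (n + 1) := by
        unfold pre
        exact List.map_congr_left fun i hi => h1 i (by
          have := List.mem_range.1 hi
          omega)
      have h3 : (∀ i ≤ n + 1, pos v ω i ∈ B) ↔ (∀ i ≤ n + 1, pos v ω' i ∈ B) :=
        forall₂_congr fun i hi => by rw [h1 i hi]
      simp only [h1 (n + 1) le_rfl, h2, h3]

omit [NeZero d] in
lemma pre_congr {s s' : ℕ → Zd d} {n : ℕ} (h : ∀ i ≤ n, s i = s' i) : pre s n = pre s' n := by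
  unfold pre
  exact List.map_congr_left fun i hi => h i (by
    have := List.mem_range.1 hi
    omega)

/-- walk sums whose terminal weight is the mean of a function `q` of the next position -/
theorem ws_eq_next (ψ : Zd d → ℝ) (q : Zd d → ℝ≥0∞)
    (hq : ∀ z, ENNReal.ofReal (ψ z) = (∑ e : Step d, q (z + sv e)) / (2 * d))
    (B : Finset (Zd d)) (n : ℕ) (F : List (Zd d) → ℝ≥0∞) (v : Zd d) :
    ws pk ψ B n F v
      = ∫⁻ ω, (if ∀ i ≤ n, pos v ω i ∈ B then
          q (pos v ω (n + 1)) * F (pre (pos v ω) n) else 0) ∂Pr d := by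
  rw [ws_eq_lintegral]
  have key := lintegral_split n (d := d) (Φ := fun ω ω₂ => if ∀ i ≤ n, pos v ω i ∈ B then
          q (pos v ω n + sv (ω₂ 0)) * F (pre (pos v ω) n) else 0) ?_ ?_
  · have h1 : ∀ ω : Om d, (if ∀ i ≤ n, pos v ω i ∈ B then
          q (pos v ω (n + 1)) * F (pre (pos v ω) n) else 0)
        = if ∀ i ≤ n, pos v ω i ∈ B then
          q (pos v ω n + sv ((shift n ω) 0)) * F (pre (pos v ω) n) else 0 := by
      intro ω
      rw [pos_succ]
      simp [shift]
    simp only [h1]
    rw [key]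
    refine lintegral_congr fun ω => ?_
    split_ifs with h
    · rw [lintegral_mul_const]
      · rw [lintegral_first, hq]
      · exact measurable_of_prefix 1 fun ω ω' h => by rw [h 0 (by norm_num)]
    · simp
  · intro ω ω' ω₂ h
    have h1 : ∀ i ≤ n, pos v ω i = pos v ω' i := fun i hi =>
        pos_congr v fun j hj => h j (by omega)
    have h3 : (∀ i ≤ n, pos v ω i ∈ B) ↔ (∀ i ≤ n, pos v ω' i ∈ B) :=
        forall₂_congr fun i hi => by rw [h1 i hi]
    simp only [h1 n le_rfl, pre_congr h1, h3]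
  · intro ω
    exact measurable_of_prefix 1 fun ω ω' h => by rw [h 0 (by norm_num)]

omit [NeZero d] in
lemma measurable_next (q : Zd d → ℝ≥0∞) (B : Finset (Zd d)) (n : ℕ) (F : List (Zd d) → ℝ≥0∞)
    (v : Zd d) :
    Measurable fun ω : Om d => if ∀ i ≤ n, pos v ω i ∈ B then
          q (pos v ω (n + 1)) * F (pre (pos v ω) n) else 0 := by
  refine measurable_of_prefix (n + 1) fun ω ω' h => ?_
  have h1 : ∀ i ≤ n + 1, pos v ω i = pos v ω' i := fun i hi =>
      pos_congr v fun j hj => h j (by omega)
  have h3 : (∀ i ≤ n, pos v ω i ∈ B) ↔ (∀ i ≤ n, pos v ω' i ∈ B) :=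
      forall₂_congr fun i hi => by rw [h1 i (by omega)]
  have h4 : pre (pos v ω) n = pre (pos v ω') n := pre_congr fun i hi => h1 i (by omega)
  simp only [h1 (n + 1) le_rfl, h4, h3]

theorem tsum_ws_exit {Λ : Finset (Zd d)} {a : Zd d} (ha : a ∈ Λ)
    (hex : ∀ᵐ ω ∂Pr d, ∃ n, pos a ω n ∉ Λ) (F : List (Zd d) → ℝ≥0∞) :
    ∑' n, ws pk (kap Λ) Λ n F a = ∫⁻ ω, F (pre (pos a ω) (tm Λ a ω)) ∂Pr d := by
  have hq : ∀ z : Zd d, ENNReal.ofReal (kap Λ z)
      = (∑ e : Step d, (fun y => if y ∉ Λ then (1 : ℝ≥0∞) else 0) (z + sv e)) / (2 * d) := by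
    intro z
    unfold kap
    rw [ofReal_card_div]
    simp only [Finset.sum_boole]
  simp only [ws_eq_next (kap Λ) (fun y => if y ∉ Λ then (1 : ℝ≥0∞) else 0) hq]
  rw [← lintegral_tsum fun n =>
    (measurable_next (fun y => if y ∉ Λ then (1 : ℝ≥0∞) else 0) Λ n F a).aemeasurable]
  refine lintegral_congr_ae ?_
  filter_upwards [hex] with ω hω
  have hne : {n | pos a ω (n + 1) ∉ Λ}.Nonempty := by
    obtain ⟨n, hn⟩ := hω
    cases n with
    | zero => exact absurd (by simpa using ha) hn
    | succ n => exact ⟨n, hn⟩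
  have hmem : pos a ω (tm Λ a ω + 1) ∉ Λ := Nat.sInf_mem hne
  have hlt : ∀ i ≤ tm Λ a ω, pos a ω i ∈ Λ := by
    intro i hi
    cases i with
    | zero => simpa using ha
    | succ i =>
      by_contra h
      have := Nat.sInf_le (s := {n | pos a ω (n + 1) ∉ Λ}) h
      unfold tm at hi
      omega
  rw [tsum_eq_single (tm Λ a ω)]
  · rw [if_pos hlt, if_pos hmem, one_mul]
  · intro n hn
    by_cases h : ∀ i ≤ n, pos a ω i ∈ Λ
    · rw [if_pos h]
      have h2 : n < tm Λ a ω := by
        by_contra h3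
        have h4 : tm Λ a ω < n := by omega
        exact hmem (h _ (by omega))
      have h3 : pos a ω (n + 1) ∈ Λ := hlt _ (by omega)
      simp [h3]
    · rw [if_neg h]

theorem tsum_ws_to {C : Finset (Zd d)} {b x : Zd d} (hx : x ∉ C) :
    ∑' n, ws pk (fun v => pk v x) C n (fun _ => 1) b = Pr d {ω | HitAt C b x ω} := by
  have hq : ∀ z : Zd d, ENNReal.ofReal ((fun v => pk v x) z)
      = (∑ e : Step d, (fun y => if y = x then (1 : ℝ≥0∞) else 0) (z + sv e)) / (2 * d) := by
    intro z
    simp only [pk]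
    rw [ofReal_card_div]
    simp only [Finset.sum_boole]
  simp only [ws_eq_next (fun v => pk v x) (fun y => if y = x then (1 : ℝ≥0∞) else 0) hq]
  rw [← lintegral_tsum fun n =>
    (measurable_next (fun y => if y = x then (1 : ℝ≥0∞) else 0) C n (fun _ => 1) b).aemeasurable]
  have hms : MeasurableSet {ω : Om d | HitAt C b x ω} := by
    have h1 : {ω : Om d | HitAt C b x ω}
        = ⋃ n, {ω : Om d | pos b ω (n + 1) = x ∧ ∀ i ≤ n, pos b ω i ∈ C} := by
      ext ω
      simp [HitAt]
    rw [h1]
    refine MeasurableSet.iUnion fun n => ?_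
    have h2 : Measurable fun ω : Om d => (pos b ω (n + 1) = x ∧ ∀ i ≤ n, pos b ω i ∈ C : Prop) := by
      refine measurable_of_prefix (n + 1) fun ω ω' h => ?_
      have h1 : ∀ i ≤ n + 1, pos b ω i = pos b ω' i := fun i hi =>
        pos_congr b fun j hj => h j (by omega)
      have h3 : (∀ i ≤ n, pos b ω i ∈ C) ↔ (∀ i ≤ n, pos b ω' i ∈ C) :=
        forall₂_congr fun i hi => by rw [h1 i (by omega)]
      simp only [h1 (n + 1) le_rfl, h3]
    exact measurableSet_setOfPred.2 h2
  rw [← lintegral_indicator_one hms]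
  refine lintegral_congr fun ω => ?_
  by_cases hω : HitAt C b x ω
  · rw [Set.indicator_of_mem (by exact hω)]
    obtain ⟨m, hm, hm2⟩ := hω
    rw [tsum_eq_single m]
    · rw [if_pos hm2, if_pos hm]
      simp
    · intro n hn
      by_cases h : ∀ i ≤ n, pos b ω i ∈ C
      · rw [if_pos h]
        by_cases h2 : pos b ω (n + 1) = x
        · exfalso
          rcases lt_or_gt_of_ne hn with h3 | h3
          · exact hx (h2 ▸ hm2 (n + 1) (by omega))
          · exact hx (hm ▸ h (m + 1) (by omega))
        · rw [if_neg h2, zero_mul]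
      · rw [if_neg h]
  · rw [Set.indicator_of_notMem (by exact hω)]
    rw [ENNReal.tsum_eq_zero]
    intro n
    by_cases h : ∀ i ≤ n, pos b ω i ∈ C
    · rw [if_pos h]
      by_cases h2 : pos b ω (n + 1) = x
      · exact absurd ⟨n, h2, h⟩ hω
      · rw [if_neg h2, zero_mul]
    · rw [if_neg h]

lemma summable_of_even_odd {f g : ℕ → ℝ} (hf : ∀ n, 0 ≤ f n) (hg : Summable g)
    (h0 : ∀ m, f (m + m) ≤ g (m + m))
    (h1 : ∀ m, f (m + (m + 1)) ≤ g (m + m) + g ((m + 1) + (m + 1))) : Summable f := by
  have hs0 : Summable fun m => g (m + m) :=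
    hg.comp_injective (i := fun m => m + m) fun a b h => by
      have : a + a = b + b := h
      omega
  have hs1 : Summable fun m => g ((m + 1) + (m + 1)) :=
    hg.comp_injective (i := fun m => (m + 1) + (m + 1)) fun a b h => by
      have : (a + 1) + (a + 1) = (b + 1) + (b + 1) := h
      omega
  have he : Summable fun m => f (2 * m) := by
    refine Summable.of_nonneg_of_le (fun m => hf _) (fun m => ?_) hs0
    rw [two_mul]
    exact h0 m
  have ho : Summable fun m => f (2 * m + 1) := by
    refine Summable.of_nonneg_of_le (fun m => hf _) (fun m => ?_) (hs0.add hs1)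
    have h2 : 2 * m + 1 = m + (m + 1) := by ring
    rw [h2]
    exact h1 m
  exact (HasSum.even_add_odd (f := f) he.hasSum ho.hasSum).summable

omit [NeZero d] in
lemma hk_le_even (m : ℕ) (z : Zd d) : hk (m + m) z ≤ hk (m + m) (0 : Zd d) := by
  have h := hk_le m m z
  rwa [Real.sqrt_mul_self (hk_nonneg _ _)] at h

omit [NeZero d] in
lemma hk_le_odd (m : ℕ) (z : Zd d) : hk (m + (m + 1)) z
    ≤ hk (m + m) (0 : Zd d) + hk ((m + 1) + (m + 1)) (0 : Zd d) := by
  refine (hk_le m (m + 1) z).trans ?_
  have ha := hk_nonneg (m + m) (0 : Zd d)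
  have hb := hk_nonneg ((m + 1) + (m + 1)) (0 : Zd d)
  generalize hk (m + m) (0 : Zd d) = x at *
  generalize hk ((m + 1) + (m + 1)) (0 : Zd d) = y at *
  rw [Real.sqrt_le_left (by positivity)]
  nlinarith

omit [NeZero d] in
lemma summable_hk_of (hs : Summable fun m => hk m (0 : Zd d)) (z : Zd d) :
    Summable fun m => hk m z :=
  summable_of_even_odd (g := fun m => hk m (0 : Zd d)) (fun m => hk_nonneg m z) hs
    (fun m => hk_le_even m z) (fun m => hk_le_odd m z)

theorem tsum_ws_green (hs : Summable fun m => hk m (0 : Zd d)) (Λ : Finset (Zd d)) (u v : Zd d) :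
    ∑' n, ws pk (fun z => if z = v then 1 else 0) Λ n (fun _ => 1) u ≠ ⊤ := by
  refine ne_top_of_le_ne_top (summable_hk_of hs (v - u)).tsum_ofReal_ne_top
    (ENNReal.tsum_le_tsum fun n => ?_)
  rw [ws_eq_lintegral, ← prob_pos]
  have hms : MeasurableSet {ω : Om d | pos u ω n = v} :=
    (measurable_pos u n) (measurableSet_singleton v)
  rw [← lintegral_indicator_one hms]
  refine lintegral_mono fun ω => ?_
  by_cases h : pos u ω n = v
  · rw [Set.indicator_of_mem (by exact h)]
    split_ifs <;> simp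
  · simp [h]

end Pool.Agent.H39.LW
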