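import Pool.Agent.H39.LW.PathAlg
import Pool.Agent.H39.LW.WalkProb
import Pool.Agent.H39.LW.Trans
import Pool.Agent.H39.LW.HKDiff

/-!
# Module FV: the correlation inequality in a finite box

`finite_volume` : apply `walk_ineq` with `w = pk`, `κ = kap Λ` and translate the walk sums with
`tsum_ws_exit`, `tsum_ws_to`, `tsum_ws_green`. Here `LEf Λ a ω = LE (pos a ω) (tm Λ a ω)`, which is
`LEl (pre (pos a ω) (tm Λ a ω))` by definition. `kap Λ x = 0` because all neighbours of `x` are in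
`Λ`. If `x ∈ LEl l` then `x ∉ Λ \ (LEl l).toFinset`, so `tsum_ws_to` applies.
For `hexit`: `tsum_ws_exit` with `F = 1` and `Pr` a probability measure.
-/

open MeasureTheory ProbabilityTheory Filter
open scoped ENNReal

namespace Pool.Agent.H39.LW

variable {d : ℕ} [NeZero d]

open Classical in
theorem finite_volume (hs : Summable fun m => hk m (0 : Zd d)) {Λ : Finset (Zd d)} {a b x : Zd d}
    (ha : a ∈ Λ) (hb : b ∈ Λ) (hx : x ∈ Λ) (hxn : ∀ e : Step d, x + sv e ∈ Λ)
    (hab : a ≠ b) (hax : a ≠ x) (hbx : b ≠ x) :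
    ∫⁻ ω, (if x ∈ LEf Λ a ω then
        Pr d {ω' | HitAt (Λ \ (LEf Λ a ω).toFinset) b x ω'} else 0) ∂Pr d
      ≤ Pr d {ω | x ∈ LEf Λ a ω} * Pr d {ω | x ∈ LEf Λ b ω} := by
  have hsy := fun y : Zd d => summable_hk hs y
  have hexa := ae_exit hsy a Λ
  have hexb := ae_exit hsy b Λ
  have hκx : kap Λ x = 0 := by
    have h0 : (Finset.univ.filter fun e : Step d => x + sv e ∉ Λ) = ∅ := by
      rw [Finset.filter_eq_empty_iff]
      intro e _
      exact not_not.2 (hxn e)
    rw [kap, h0]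
    simp
  have hexit : ∑' n, ws pk (kap Λ) Λ n (fun _ => 1) x = 1 := by
    rw [tsum_ws_exit hx (ae_exit hsy x Λ)]
    simp
  have key := walk_ineq (w := pk) pk_symm pk_nonneg pk_self (Λ := Λ) (κ := kap Λ)
    (fun v _ => kap_eq Λ v) (kap_nonneg Λ) (fun v _ u _ => tsum_ws_green hs Λ u v)
    ha hb hx hab hax hbx hκx hexit
  rw [tsum_ws_exit ha hexa, tsum_ws_exit ha hexa, tsum_ws_exit hb hexb] at key
  have hone : ∀ c : Zd d, ∫⁻ ω, (if x ∈ LEl (pre (pos c ω) (tm Λ c ω)) then (1 : ℝ≥0∞) else 0)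
      ∂Pr d ≤ Pr d {ω | x ∈ LEf Λ c ω} := by
    intro c
    refine le_trans (le_of_eq ?_) (lintegral_indicator_one_le _)
    refine lintegral_congr fun ω => ?_
    by_cases h : x ∈ LEf Λ c ω
    · rw [Set.indicator_of_mem (show ω ∈ {ω | x ∈ LEf Λ c ω} from h)]
      exact if_pos h
    · rw [Set.indicator_of_notMem (show ω ∉ {ω | x ∈ LEf Λ c ω} from h)]
      exact if_neg h
  refine le_trans (le_of_eq ?_) (key.trans (mul_le_mul' (hone a) (hone b)))
  refine lintegral_congr fun ω => ?_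
  by_cases h : x ∈ LEf Λ a ω
  · have h' : x ∈ LEl (pre (pos a ω) (tm Λ a ω)) := h
    have hx' : x ∉ Λ \ (LEl (pre (pos a ω) (tm Λ a ω))).toFinset := by
      rw [Finset.mem_sdiff, List.mem_toFinset]
      exact fun h2 => h2.2 h'
    rw [if_pos h, if_pos h', tsum_ws_to hx']
    rfl
  · have h' : x ∉ LEl (pre (pos a ω) (tm Λ a ω)) := h
    rw [if_neg h, if_neg h']

end Pool.Agent.H39.LW
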