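import Pool.Agent.H39.LW.FinVol

/-!
# Module LIM: the correlation inequality in infinite volume

Let `Λ_k` be the box `{z | ∀ i, |z i| ≤ k}` (`Fintype.piFinset`/`Finset.Icc`). Let `ω` be such that
`s = pos a ω` is transient.

(1) `tm Λ_k a ω → ∞` as `k → ∞`: each step changes the coordinates by at most `1`, so
`tm Λ_k a ω ≥ k - max |a i| ` (the set in the definition of `tm` is nonempty by `exit_of_transient`;
for `n + 1 ≤ k - max |a i|`, `pos a ω (n+1) ∈ Λ_k`).
(2) Hence by `eventually_mem_iff_inL`, for every `y`, for all large `k`,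
`y ∈ LEf Λ_k a ω ↔ InL s y`.
(3) Therefore the indicator of `{x ∈ LEf Λ_k a ω}` converges a.e. to that of `{InL (pos a ω) x}` and
`Pr {x ∈ LEf Λ_k a ω} → Pr {InL (pos a ω) x}` (dominated convergence,
`tendsto_measure_of_ae_tendsto_indicator`, or `tendsto_lintegral_of_dominated_convergence`).
The set `{ω | x ∈ LEf Λ a ω}` is measurable: it is the union over `n` of
`{tm Λ a ω = n} ∩ {x ∈ LE (pos a ω) n}`.
(4) If `(ω, ω')` is in the event on the left of `corr_ineq` (for which `s` is transient) then for all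
large `k`: `x ∈ LEf Λ_k a ω` and `HitAt (Λ_k \ LEf Λ_k a ω) b x ω'`: let `n ≥ 1` be as in the event
(`n ≥ 1` because `b ≠ x`); the finitely many points `pos b ω' i`, `i < n`, are in `Λ_k` for large `k`
and, by (2), not in `LEf Λ_k a ω` for large `k`.
(5) Fatou (`lintegral_liminf_le`) and `finite_volume` give the claim: the function
`ω ↦ if x ∈ LEf Λ_k a ω then Pr {HitAt …} else 0` is measurable since it is a function of the
measurable list-valued `LEf Λ_k a ω`.
For fixed `ω` one can apply Fatou for the inner measure as well: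
`Pr {ω' | E(ω, ω')} ≤ liminf_k Pr {ω' | HitAt (Λ_k \ LEf Λ_k a ω) b x ω'}`.
-/

open MeasureTheory ProbabilityTheory Filter
open scoped ENNReal

namespace Pool.Agent.H39.LW

variable {d : ℕ} [NeZero d]

namespace LM

/-- the boxes -/
noncomputable def bx (d k : ℕ) : Finset (Zd d) := Fintype.piFinset fun _ => Finset.Icc (-(k : ℤ)) k

omit [NeZero d] in
lemma ev_bx (v : Zd d) : ∀ᶠ k in atTop, v ∈ bx d k := by
  have h1 : ∀ i : Fin d, ∀ᶠ k : ℕ in atTop, v i ∈ Finset.Icc (-(k : ℤ)) k := by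
    intro i
    filter_upwards [eventually_ge_atTop (v i).natAbs] with k hk
    rw [Finset.mem_Icc]
    omega
  filter_upwards [eventually_all.2 h1] with k hk
  unfold bx
  rw [Fintype.mem_piFinset]
  exact hk

omit [NeZero d] in
lemma ev_bx_le (s : ℕ → Zd d) (m : ℕ) : ∀ᶠ k in atTop, ∀ i ≤ m, s i ∈ bx d k := by
  have h1 : ∀ᶠ k in atTop, ∀ i ∈ Finset.range (m + 1), s i ∈ bx d k :=
    (Finset.range (m + 1)).eventually_all.2 fun i _ => ev_bx (s i)
  filter_upwards [h1] with k hk i hi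
  exact hk i (Finset.mem_range.2 (by omega))

lemma tm_tendsto {a : Zd d} {ω : Om d} (hω : Transient (pos a ω)) :
    Tendsto (fun k => tm (bx d k) a ω) atTop atTop := by
  refine tendsto_atTop.2 fun m => ?_
  filter_upwards [ev_bx_le (pos a ω) m] with k hk
  unfold tm
  refine le_csInf ?_ ?_
  · obtain ⟨n, hn⟩ := exit_of_transient hω (insert a (bx d k))
    cases n with
    | zero =>
      exact absurd (by rw [pos_zero]; exact Finset.mem_insert_self _ _) hn
    | succ n => exact ⟨n, fun h => hn (Finset.mem_insert_of_mem h)⟩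
  · intro n hn
    by_contra hlt
    push Not at hlt
    exact hn (hk (n + 1) (by omega))

lemma ev_LEf {a : Zd d} {ω : Om d} (hω : Transient (pos a ω)) (y : Zd d) :
    ∀ᶠ k in atTop, (y ∈ LEf (bx d k) a ω ↔ InL (pos a ω) y) :=
  (tm_tendsto hω).eventually (eventually_mem_iff_inL hω y)

omit [NeZero d] in
lemma tm_eq_iff (Λ : Finset (Zd d)) (a : Zd d) (ω : Om d) (n : ℕ) :
    tm Λ a ω = n ↔ (pos a ω (n + 1) ∉ Λ ∧ ∀ m < n, pos a ω (m + 1) ∈ Λ) ∨
      (n = 0 ∧ ∀ m, pos a ω (m + 1) ∈ Λ) := by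
  unfold tm
  constructor
  · rintro rfl
    by_cases hne : {n | pos a ω (n + 1) ∉ Λ}.Nonempty
    · left
      refine ⟨Nat.sInf_mem hne, fun m hm => ?_⟩
      by_contra hcon
      exact absurd (Nat.sInf_le (s := {n | pos a ω (n + 1) ∉ Λ}) hcon) (by omega)
    · right
      rw [Set.not_nonempty_iff_eq_empty] at hne
      refine ⟨by rw [hne]; exact Nat.sInf_empty, fun m => ?_⟩
      by_contra hcon
      have : m ∈ {n | pos a ω (n + 1) ∉ Λ} := hcon
      rw [hne] at this
      exact this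
  · rintro (⟨h1, h2⟩ | ⟨rfl, h⟩)
    · refine le_antisymm (Nat.sInf_le h1) (le_csInf ⟨n, h1⟩ fun m hm => ?_)
      by_contra hlt
      push Not at hlt
      exact hm (h2 m hlt)
    · have : {n | pos a ω (n + 1) ∉ Λ} = ∅ := by
        ext m
        simp only [Set.mem_ofPred_eq, Set.mem_empty_iff_false, iff_false, not_not]
        exact h m
      rw [this]
      exact Nat.sInf_empty

omit [NeZero d] in
lemma measurableSet_mem (Λ : Finset (Zd d)) (a : Zd d) (n : ℕ) :
    MeasurableSet {ω : Om d | pos a ω n ∈ Λ} :=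
  measurable_pos a n (Finset.measurableSet Λ)

omit [NeZero d] in
lemma measurableSet_tm (Λ : Finset (Zd d)) (a : Zd d) (n : ℕ) :
    MeasurableSet {ω : Om d | tm Λ a ω = n} := by
  have h : {ω : Om d | tm Λ a ω = n} =
      ({ω | pos a ω (n + 1) ∈ Λ}ᶜ ∩ ⋂ m, ⋂ (_ : m < n), {ω | pos a ω (m + 1) ∈ Λ}) ∪
        ({_ω : Om d | n = 0} ∩ ⋂ m, {ω | pos a ω (m + 1) ∈ Λ}) := by
    ext ω
    simp only [Set.mem_ofPred_eq, tm_eq_iff, Set.mem_union, Set.mem_inter_iff, Set.mem_compl_iff,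
      Set.mem_iInter]
  rw [h]
  refine MeasurableSet.union ?_ ?_
  · exact (measurableSet_mem Λ a (n + 1)).compl.inter
      (MeasurableSet.iInter fun m => MeasurableSet.iInter fun _ => measurableSet_mem Λ a (m + 1))
  · exact (MeasurableSet.const _).inter (MeasurableSet.iInter fun m => measurableSet_mem Λ a (m + 1))

lemma measurableSet_LEf (Λ : Finset (Zd d)) (a : Zd d) (S : Set (List (Zd d))) :
    MeasurableSet {ω : Om d | LEf Λ a ω ∈ S} := by
  have h : {ω : Om d | LEf Λ a ω ∈ S} =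
      ⋃ n, ({ω : Om d | tm Λ a ω = n} ∩ {ω | LE (pos a ω) n ∈ S}) := by
    ext ω
    simp only [Set.mem_iUnion, Set.mem_inter_iff, Set.mem_ofPred_eq, LEf]
    constructor
    · exact fun h => ⟨_, rfl, h⟩
    · rintro ⟨n, hn, h⟩
      rw [hn]
      exact h
  rw [h]
  exact MeasurableSet.iUnion fun n => (measurableSet_tm Λ a n).inter (measurableSet_LE a n S)

lemma measurable_comp_LEf (Λ : Finset (Zd d)) (a : Zd d) (F : List (Zd d) → ℝ≥0∞) :
    Measurable fun ω : Om d => F (LEf Λ a ω) :=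
  fun S _ => measurableSet_LEf Λ a (F ⁻¹' S)

open Classical in
/-- the integrand in the box -/
noncomputable def Fi (k : ℕ) (b x : Zd d) (L : List (Zd d)) : ℝ≥0∞ :=
  if x ∈ L then Pr d {ω' | HitAt (bx d k \ L.toFinset) b x ω'} else 0

lemma Fi_of_mem {k : ℕ} {b x : Zd d} {L : List (Zd d)} (h : x ∈ L) : Fi k b x L =
    Pr d {ω' | HitAt (bx d k \ L.toFinset) b x ω'} := by
  classical
  unfold Fi
  rw [if_pos h]

open Classical in
lemma fv (hs : Summable fun m => hk m (0 : Zd d)) {a b x : Zd d}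
    (hab : a ≠ b) (hax : a ≠ x) (hbx : b ≠ x) :
    ∀ᶠ k in atTop, ∫⁻ ω, Fi k b x (LEf (bx d k) a ω) ∂Pr d ≤
      Pr d {ω | x ∈ LEf (bx d k) a ω} * Pr d {ω | x ∈ LEf (bx d k) b ω} := by
  have h1 : ∀ᶠ k in atTop, ∀ e : Step d, x + sv e ∈ bx d k :=
    eventually_all.2 fun e => ev_bx _
  filter_upwards [ev_bx a, ev_bx b, ev_bx x, h1] with k ha hb hx he
  exact finite_volume hs ha hb hx he hab hax hbx

/-- Fatou for sets -/
lemma measure_le_liminf_of {α : Type*} [MeasurableSpace α] (μ : Measure α) {S : Set α}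
    {T : ℕ → Set α} (h : ∀ x ∈ S, ∀ᶠ k in atTop, x ∈ T k) :
    μ S ≤ liminf (fun k => μ (T k)) atTop := by
  have h1 : S ⊆ ⋃ n, ⋂ k, ⋂ (_ : n ≤ k), T k := by
    intro x hx
    obtain ⟨n, hn⟩ := eventually_atTop.1 (h x hx)
    exact Set.mem_iUnion.2 ⟨n, Set.mem_iInter₂.2 fun k hk => hn k hk⟩
  have hmono : Monotone fun n => ⋂ k, ⋂ (_ : n ≤ k), T k := by
    intro m n hmn x hx
    exact Set.mem_iInter₂.2 fun k hk => Set.mem_iInter₂.1 hx k (hmn.trans hk)
  refine (measure_mono h1).trans ?_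
  rw [hmono.measure_iUnion, liminf_eq_iSup_iInf_of_nat]
  refine iSup_mono fun n => ?_
  exact le_iInf₂ fun k hk => measure_mono (Set.iInter₂_subset k hk)

lemma le_liminf {a b x : Zd d} (hbx : b ≠ x) {ω : Om d} (hω : Transient (pos a ω)) :
    Pr d {ω' | InL (pos a ω) x ∧ ∃ n, pos b ω' n = x ∧ ∀ i < n, ¬ InL (pos a ω) (pos b ω' i)} ≤
      liminf (fun k => Fi k b x (LEf (bx d k) a ω)) atTop := by
  by_cases hx : InL (pos a ω) x
  · have h1 : ∀ᶠ k in atTop, Pr d {ω' | HitAt (bx d k \ (LEf (bx d k) a ω).toFinset) b x ω'} =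
        Fi k b x (LEf (bx d k) a ω) := by
      filter_upwards [ev_LEf hω x] with k hk
      exact (Fi_of_mem (hk.2 hx)).symm
    rw [← liminf_congr h1]
    refine measure_le_liminf_of _ ?_
    rintro ω' ⟨_, n, hn, hi⟩
    cases n with
    | zero =>
      rw [pos_zero] at hn
      exact absurd hn hbx
    | succ n =>
      have h2 : ∀ᶠ k in atTop, ∀ i ∈ Finset.range (n + 1),
          (pos b ω' i ∈ LEf (bx d k) a ω ↔ InL (pos a ω) (pos b ω' i)) :=
        (Finset.range (n + 1)).eventually_all.2 fun i _ => ev_LEf hω _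
      filter_upwards [h2, ev_bx_le (pos b ω') n] with k hk hk'
      refine ⟨n, hn, fun i hin => ?_⟩
      rw [Finset.mem_sdiff, List.mem_toFinset]
      refine ⟨hk' i hin, fun h => ?_⟩
      exact hi i (by omega) ((hk i (Finset.mem_range.2 (by omega))).1 h)
  · have : {ω' : Om d | InL (pos a ω) x ∧
        ∃ n, pos b ω' n = x ∧ ∀ i < n, ¬ InL (pos a ω) (pos b ω' i)} = ∅ := by
      ext ω'
      simp [hx]
    rw [this, measure_empty]
    exact zero_le

lemma tendsto_prob (hs : Summable fun m => hk m (0 : Zd d)) (a x : Zd d) :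
    Tendsto (fun k => Pr d {ω | x ∈ LEf (bx d k) a ω}) atTop (nhds (hL (x - a))) := by
  rw [← prob_inL]
  refine tendsto_measure_of_ae_tendsto_indicator_of_isFiniteMeasure atTop
    (measurableSet_inL a x) (fun k => measurableSet_LEf (bx d k) a {L | x ∈ L}) ?_
  filter_upwards [ae_transient (fun y => summable_hk hs y) a] with ω hω
  exact ev_LEf hω x

end LM

open LM

theorem corr_ineq (hs : Summable fun m => hk m (0 : Zd d)) {a b x : Zd d}
    (hab : a ≠ b) (hax : a ≠ x) (hbx : b ≠ x) :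
    ∫⁻ ω, Pr d {ω' | InL (pos a ω) x ∧ ∃ n, pos b ω' n = x ∧ ∀ i < n, ¬ InL (pos a ω) (pos b ω' i)}
        ∂Pr d
      ≤ hL (x - a) * hL (x - b) := by
  have hfin : ∀ y : Zd d, hL y ≠ ⊤ := fun y => measure_ne_top _ _
  calc ∫⁻ ω, Pr d {ω' | InL (pos a ω) x ∧
        ∃ n, pos b ω' n = x ∧ ∀ i < n, ¬ InL (pos a ω) (pos b ω' i)} ∂Pr d
      ≤ ∫⁻ ω, liminf (fun k => Fi k b x (LEf (bx d k) a ω)) atTop ∂Pr d := by
        refine lintegral_mono_ae ?_
        filter_upwards [ae_transient (fun y => summable_hk hs y) a] with ω hω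
        exact le_liminf hbx hω
    _ ≤ liminf (fun k => ∫⁻ ω, Fi k b x (LEf (bx d k) a ω) ∂Pr d) atTop :=
        lintegral_liminf_le fun k => measurable_comp_LEf (bx d k) a (Fi k b x)
    _ ≤ liminf (fun k => Pr d {ω | x ∈ LEf (bx d k) a ω} *
          Pr d {ω | x ∈ LEf (bx d k) b ω}) atTop :=
        liminf_le_liminf (fv hs hab hax hbx)
    _ = hL (x - a) * hL (x - b) := by
        refine Tendsto.liminf_eq ?_
        exact ENNReal.Tendsto.mul (tendsto_prob hs a x) (Or.inr (hfin _))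
          (tendsto_prob hs b x) (Or.inr (hfin _))

end Pool.Agent.H39.LW
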