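import Pool.Agent.H39.LW.Basic

/-!
# Module LL: loop erasure of lists

`aft v l` is the part of the list `l` after the last occurrence of `v` (all of `l` if `v ∉ l`).

* `LEl_concat`: by definition of `List.foldl`.
* `LEl_cons`: reverse induction on `l`. For `l = l' ++ [v]` both sides are `[v]`
  (`takeWhile (· ≠ v)` of a list starting with `v` is empty, `aft v (l' ++ [v]) = []`).
  For `l = l' ++ [u]`, `u ≠ v`: `LEl (v :: l' ++ [u]) = leStep (v :: LEl (aft v l')) u
  = v :: leStep (LEl (aft v l')) u = v :: LEl (aft v l' ++ [u])` and
  `aft v (l' ++ [u]) = aft v l' ++ [u]` (`List.rtakeWhile_concat`).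
* `aft_cons`: reverse induction on `l` as well.
* the other facts: induction with `LEl_concat`.
-/

namespace Pool.Agent.H39.LW

variable {U : Type*} [DecidableEq U]

/-- the part of `l` after the last `v` -/
def aft (v : U) (l : List U) : List U := l.rtakeWhile (fun u => decide (u ≠ v))

lemma LEl_nil : LEl ([] : List U) = [] := rfl

lemma LEl_concat (l : List U) (v : U) : LEl (l ++ [v]) = leStep (LEl l) v := by
  simp [LEl]

lemma aft_notMem {v : U} {l : List U} (h : v ∉ l) : aft v l = l := by
  unfold aft
  rw [List.rtakeWhile_eq_self_iff]
  intro x hx
  simp only [ne_eq, decide_not, Bool.not_eq_eq_eq_not, Bool.not_true, decide_eq_false_iff_not]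
  rintro rfl
  exact h hx

lemma aft_concat (v u : U) (l : List U) :
    aft v (l ++ [u]) = if u = v then [] else aft v l ++ [u] := by
  unfold aft
  rw [List.rtakeWhile_concat]
  by_cases h : u = v <;> simp [h]

lemma aft_cons (v u : U) (l : List U) :
    aft v (u :: l) = if v ∈ l then aft v l else if u = v then l else u :: l := by
  induction l using List.reverseRecOn with
  | nil =>
    have := aft_concat v u []
    simp only [List.nil_append] at this
    rw [this]
    by_cases h : u = v
    · simp [h]
    · simp [h, aft]
  | append_singleton l w ih =>
    rw [← List.cons_append, aft_concat, aft_concat, ih]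
    by_cases hw : w = v
    · simp [hw]
    · have hvw : ¬ v = w := fun h => hw h.symm
      by_cases hv : v ∈ l
      · simp [hw, hvw, hv]
      · by_cases hu : u = v
        · simp [hw, hvw, hv, hu]
        · simp [hw, hvw, hv, hu]

lemma leStep_cons_self (v : U) (l : List U) : leStep (v :: l) v = [v] := by
  simp [leStep]

lemma leStep_cons_ne {v u : U} (h : v ≠ u) (l : List U) :
    leStep (v :: l) u = v :: leStep l u := by
  simp [leStep, h]

theorem LEl_cons (v : U) (l : List U) : LEl (v :: l) = v :: LEl (aft v l) := by
  induction l using List.reverseRecOn with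
  | nil => rfl
  | append_singleton l w ih =>
    rw [← List.cons_append, LEl_concat, ih, aft_concat]
    by_cases hw : w = v
    · subst hw
      simp [leStep_cons_self, LEl_nil]
    · rw [if_neg hw, leStep_cons_ne (fun h => hw h.symm), LEl_concat]

lemma LEl_nodup (l : List U) : (LEl l).Nodup := by
  induction l using List.reverseRecOn with
  | nil => exact List.nodup_nil
  | append_singleton l w ih =>
    rw [LEl_concat, leStep]
    rw [List.nodup_append]
    refine ⟨ih.sublist (List.takeWhile_sublist _), List.nodup_singleton _, ?_⟩
    intro a ha b hb
    rw [List.mem_singleton] at hb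
    subst hb
    have := List.mem_takeWhile_imp ha
    simpa using this

lemma LEl_subset {l : List U} {x : U} (h : x ∈ LEl l) : x ∈ l := by
  induction l using List.reverseRecOn with
  | nil => exact h
  | append_singleton l w ih =>
    rw [LEl_concat, leStep, List.mem_append] at h
    rw [List.mem_append]
    rcases h with h | h
    · exact Or.inl (ih ((List.takeWhile_sublist _).subset h))
    · exact Or.inr h

end Pool.Agent.H39.LW
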