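import Pool.Agent.H39.LW.Basic

/-!
# Module MK: the Markov property of the step sequence

* `measurable_of_prefix`: a function of the first `n` steps is measurable (factor through
  `fun ω (i : Fin n) => ω i`, whose target is a finite type with measurable singletons;
  e.g. `f = (fun η => f (extend η)) ∘ restriction`).
* `lintegral_cons`: first-step decomposition. The image of `stepLaw d × Pr d` under
  `(e, ω) ↦ cons e ω` is `Pr d`, by `Measure.eq_infinitePi` (compute on boxes
  `Set.pi s t` with `s : Finset ℕ`: the preimage is a product of `t 0` (or `univ`) and a box);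
  then integrate over the uniform finite measure.
* `lintegral_split`: Markov property at time `k`, by induction on `k` from `lintegral_cons`.
-/

open MeasureTheory ProbabilityTheory Filter
open scoped ENNReal

namespace Pool.Agent.H39.LW

variable {d : ℕ}

/-- put the step `e` in front of the sequence `ω` -/
def cons (e : Step d) (ω : Om d) : Om d
  | 0 => e
  | n + 1 => ω n

/-- forget the first `k` steps -/
def shift (k : ℕ) (ω : Om d) : Om d := fun n => ω (n + k)

@[simp] lemma cons_zero (e : Step d) (ω : Om d) : cons e ω 0 = e := rfl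
@[simp] lemma cons_succ (e : Step d) (ω : Om d) (n : ℕ) : cons e ω (n + 1) = ω n := rfl

@[simp] lemma pos_zero (a : Zd d) (ω : Om d) : pos a ω 0 = a := by simp [pos]

lemma pos_succ (a : Zd d) (ω : Om d) (n : ℕ) : pos a ω (n + 1) = pos a ω n + sv (ω n) := by
  simp [pos, Finset.sum_range_succ, add_assoc]

lemma pos_cons_succ (a : Zd d) (e : Step d) (ω : Om d) (n : ℕ) :
    pos a (cons e ω) (n + 1) = pos (a + sv e) ω n := by
  simp [pos, Finset.sum_range_succ', add_assoc, add_comm, add_left_comm]

lemma pos_shift (a : Zd d) (ω : Om d) (k n : ℕ) :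
    pos (pos a ω k) (shift k ω) n = pos a ω (k + n) := by
  simp only [pos, shift, Finset.sum_range_add, add_assoc]
  congr 2
  refine Finset.sum_congr rfl fun i _ => ?_
  rw [add_comm]

lemma pos_add (a b : Zd d) (ω : Om d) (n : ℕ) : pos (a + b) ω n = a + pos b ω n := by
  simp [pos, add_assoc]

lemma pos_congr (a : Zd d) {ω ω' : Om d} {n : ℕ} (h : ∀ i < n, ω i = ω' i) :
    pos a ω n = pos a ω' n := by
  simp only [pos]
  congr 1
  exact Finset.sum_congr rfl fun i hi => by rw [h i (Finset.mem_range.1 hi)]

lemma measurable_of_prefix {β : Type*} [MeasurableSpace β] (n : ℕ) {f : Om d → β}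
    (hf : ∀ ω ω', (∀ i < n, ω i = ω' i) → f ω = f ω') : Measurable f := by
  rcases isEmpty_or_nonempty (Om d) with h | ⟨⟨ω₀⟩⟩
  · exact measurable_of_empty f
  · have h1 : f = (fun η : Fin n → Step d => f fun i => if h : i < n then η ⟨i, h⟩ else ω₀ i) ∘
        fun (ω : Om d) (i : Fin n) => ω i := by
      funext ω
      refine hf _ _ fun i hi => ?_
      simp [hi]
    rw [h1]
    exact (measurable_of_countable _).comp
      (measurable_pi_iff.2 fun i => measurable_pi_apply (i : ℕ))

/-- measurability for a function of the first `n` steps and all later steps -/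
lemma measurable_of_prefix_shift {β : Type*} [MeasurableSpace β] (n : ℕ) {Φ : Om d → Om d → β}
    (h1 : ∀ ω ω' ω₂, (∀ i < n, ω i = ω' i) → Φ ω ω₂ = Φ ω' ω₂) (h2 : ∀ ω, Measurable (Φ ω)) :
    Measurable fun ω => Φ ω (shift n ω) := by
  rcases isEmpty_or_nonempty (Om d) with h | ⟨⟨ω₀⟩⟩
  · exact measurable_of_empty _
  · have h3 : (fun ω => Φ ω (shift n ω)) =
        (fun q : (Fin n → Step d) × Om d =>
          Φ (fun i => if h : i < n then q.1 ⟨i, h⟩ else ω₀ i) q.2) ∘
        fun (ω : Om d) => ((fun i : Fin n => ω i), shift n ω) := by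
      funext ω
      refine h1 _ _ _ fun i hi => ?_
      simp [hi]
    rw [h3]
    have h4 : Measurable (fun q : (Fin n → Step d) × Om d =>
        Φ (fun i => if h : i < n then q.1 ⟨i, h⟩ else ω₀ i) q.2) :=
      measurable_from_prod_countable_right fun η => h2 fun i => if h : i < n then η ⟨i, h⟩ else ω₀ i
    refine h4.comp ?_
    have h5 : Measurable fun (ω : Om d) (i : Fin n) => ω i :=
      measurable_pi_iff.2 fun i => measurable_pi_apply (i : ℕ)
    have h6 : Measurable (shift n : Om d → Om d) :=
      measurable_pi_iff.2 fun m => measurable_pi_apply (m + n)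
    exact h5.prodMk h6

lemma measurable_pos (a : Zd d) (n : ℕ) : Measurable fun ω => pos a ω n :=
  measurable_of_prefix n fun _ _ h => pos_congr a h

lemma measurable_shift (k : ℕ) : Measurable (shift k : Om d → Om d) :=
  measurable_pi_iff.2 fun n => measurable_pi_apply (n + k)

lemma measurable_cons (e : Step d) : Measurable (cons e : Om d → Om d) := by
  refine measurable_pi_iff.2 fun n => ?_
  cases n with
  | zero => exact measurable_const
  | succ n => exact measurable_pi_apply n

variable [NeZero d]

omit [NeZero d] in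
lemma measurable_cons₂ : Measurable fun p : Step d × Om d => cons p.1 p.2 := by
  refine measurable_pi_iff.2 fun n => ?_
  cases n with
  | zero => exact measurable_fst
  | succ n => exact (measurable_pi_apply n).comp measurable_snd

/-- a uniform step followed by i.i.d. steps is a sequence of i.i.d. steps -/
theorem map_cons₂ :
    Measure.map (fun p : Step d × Om d => cons p.1 p.2) ((stepLaw d).prod (Pr d)) = Pr d := by
  classical
  refine Measure.eq_infinitePi _ fun s t ht => ?_
  obtain ⟨N, hN⟩ : ∃ N, ∀ i ∈ s, i < N + 1 :=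
    ⟨s.sup id, fun i hi => Nat.lt_succ_of_le (Finset.le_sup (f := id) hi)⟩
  set t' : ℕ → Set (Step d) := fun i => if i ∈ s then t i else Set.univ with ht'
  have hsub : s ⊆ Finset.range (N + 1) := fun i hi => Finset.mem_range.2 (hN i hi)
  have e1 : (s : Set ℕ).pi t = ((Finset.range (N + 1) : Finset ℕ) : Set ℕ).pi t' := by
    ext ω
    simp only [Set.mem_pi, Finset.mem_coe, ht']
    constructor
    · intro h i _
      by_cases hi : i ∈ s
      · rw [if_pos hi]
        exact h i hi
      · rw [if_neg hi]
        exact Set.mem_univ _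
    · intro h i hi
      have := h i (hsub hi)
      rwa [if_pos hi] at this
  have e2 : ∏ i ∈ s, stepLaw d (t i) = ∏ i ∈ Finset.range (N + 1), stepLaw d (t' i) := by
    rw [← Finset.prod_subset hsub]
    · refine Finset.prod_congr rfl fun i hi => ?_
      simp only [ht', if_pos hi]
    · intro i _ hi
      simp only [ht', if_neg hi, measure_univ]
  have hm' : ∀ i, MeasurableSet (t' i) := fun i => MeasurableSet.of_discrete
  rw [e1, e2, Measure.map_apply measurable_cons₂
    (MeasurableSet.pi (Finset.countable_toSet _) fun i _ => hm' i)]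
  have e3 : (fun p : Step d × Om d => cons p.1 p.2) ⁻¹'
      ((Finset.range (N + 1) : Finset ℕ) : Set ℕ).pi t' =
      t' 0 ×ˢ ((Finset.range N : Finset ℕ) : Set ℕ).pi (fun i => t' (i + 1)) := by
    ext ⟨e, ω⟩
    simp only [Set.mem_preimage, Set.mem_pi, Finset.coe_range, Set.mem_Iio, Set.mem_prod]
    constructor
    · intro h
      exact ⟨h 0 (Nat.succ_pos _), fun i hi => h (i + 1) (by omega)⟩
    · rintro ⟨h, h'⟩ i hi
      cases i with
      | zero => exact h
      | succ i => exact h' i (by omega)
  rw [e3, Measure.prod_prod, Pr, Measure.infinitePi_pi _ fun i _ => hm' (i + 1),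
    Finset.prod_range_succ', mul_comm]

omit [NeZero d] in
lemma stepLaw_singleton (e : Step d) : stepLaw d {e} = 1 / (2 * d) := by
  rw [stepLaw, uniformOn_univ, Measure.count_singleton]
  congr 1
  simp [mul_comm]

/-- first-step decomposition -/
theorem lintegral_cons {f : Om d → ℝ≥0∞} (hf : Measurable f) :
    ∫⁻ ω, f ω ∂Pr d = (∑ e : Step d, ∫⁻ ω, f (cons e ω) ∂Pr d) / (2 * d) := by
  conv_lhs => rw [← map_cons₂]
  rw [lintegral_map hf measurable_cons₂, lintegral_prod (fun p : Step d × Om d => f (cons p.1 p.2))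
      (hf.comp measurable_cons₂).aemeasurable,
    lintegral_fintype, ENNReal.div_eq_inv_mul, Finset.mul_sum]
  refine Finset.sum_congr rfl fun e _ => ?_
  rw [stepLaw_singleton, one_div, mul_comm]

/-- Markov property: the steps after time `k` are independent of the first `k` steps and have the
same law as all steps -/
theorem lintegral_split (k : ℕ) {Φ : Om d → Om d → ℝ≥0∞}
    (h1 : ∀ ω ω' ω₂, (∀ i < k, ω i = ω' i) → Φ ω ω₂ = Φ ω' ω₂) (h2 : ∀ ω, Measurable (Φ ω)) :
    ∫⁻ ω, Φ ω (shift k ω) ∂Pr d = ∫⁻ ω, ∫⁻ ω₂, Φ ω ω₂ ∂Pr d ∂Pr d := by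
  induction k generalizing Φ with
  | zero =>
    have e : ∀ ω ω', Φ ω = Φ ω' := fun ω ω' => by
      funext ω₂
      exact h1 ω ω' ω₂ fun i hi => absurd hi (Nat.not_lt_zero _)
    have hne : Nonempty (Om d) := inferInstance
    obtain ⟨ω₀⟩ := hne
    have h3 : ∀ ω, Φ ω (shift 0 ω) = Φ ω₀ ω := by
      intro ω
      rw [e ω ω₀]
      rfl
    have h4 : ∀ ω, ∫⁻ ω₂, Φ ω ω₂ ∂Pr d = ∫⁻ ω₂, Φ ω₀ ω₂ ∂Pr d := by
      intro ω
      rw [e ω ω₀]
    simp only [h3, h4, lintegral_const, measure_univ, mul_one]
  | succ k ih =>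
    rw [lintegral_cons (measurable_of_prefix_shift (k + 1) h1 h2),
      lintegral_cons (f := fun ω => ∫⁻ ω₂, Φ ω ω₂ ∂Pr d) (measurable_of_prefix (k + 1)
        fun ω ω' h => by
          refine lintegral_congr fun ω₂ => h1 ω ω' ω₂ h)]
    congr 1
    refine Finset.sum_congr rfl fun e _ => ?_
    refine ih (Φ := fun ω ω₂ => Φ (cons e ω) ω₂) ?_ fun ω => h2 _
    intro ω ω' ω₂ h
    refine h1 _ _ _ fun i hi => ?_
    cases i with
    | zero => rfl
    | succ i => exact h i (by omega)

end Pool.Agent.H39.LW
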