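import Pool.Agent.H39.LW.Core

/-!
# Module PA: rewriting the four path sums

All walks below live in `Λ`, `x ∈ Λ` and `κ x = 0`; write `V₀ = Λ.erase x`, `wx v = w v x`.

`R1_through` : for `a ≠ x`, `a ∈ Λ` and any `g`,
`∑ v ∈ V₀, κ v * R1 w wx (fun C => R1 w wx g C v) V₀ a
   = R1 w κ (fun C => if x ∈ C then 0 else g C) Λ a`.
Proof. `Λ = insert x V₀`; by `R1_split` (applied with `B = V₀` and
`g' C = if x ∈ C then 0 else g C`) the right side is
`R1 w wx (fun C => R1 w κ g' (insert x C) x) V₀ a`; for `C ⊆ V₀` by `R1_insert_self` and `κ x = 0`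
`R1 w κ g' (insert x C) x = ∑ u ∈ C, w x u * R1 w κ g' C u = ∑ u ∈ C, w x u * R1 w κ g C u`
(`R1_congr`: subsets of `C` do not contain `x`), and by `R1_reverse` (with `w x u = w u x`) this is
`∑ v ∈ C, κ v * R1 w wx g C v = ∑ v ∈ V₀, κ v * R1 w wx g C v` (`R1_notMem` for `v ∉ C`).
Use `R1_congr`, then `R1_sum` and `R1_smul` to take the sum over `v` out.

`R1_at` : `∑ v ∈ V₀, κ v * R1 w wx g V₀ v = R1 w κ (fun C => if x ∈ C then 0 else g C) Λ x`
(same computation, from `R1_reverse`, `R1_insert_self` and `κ x = 0`).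
-/

open scoped ENNReal

namespace Pool.Agent.H39.LW

variable {U : Type*} [DecidableEq U]

/-- the computation common to `R1_through` and `R1_at` -/
lemma R1_star {w : U → U → ℝ} (hsymm : ∀ u v, w u v = w v u) {κ : U → ℝ}
    {x : U} (hκx : κ x = 0) (g : Finset U → ℝ) {C V : Finset U} (hCV : C ⊆ V) (hxV : x ∉ V) :
    R1 w κ (fun C => if x ∈ C then 0 else g C) (insert x C) x
      = ∑ v ∈ V, κ v * R1 w (fun v => w v x) g C v := by
  have hxC : x ∉ C := fun h => hxV (hCV h)
  rw [R1_insert_self hxC, hκx, zero_mul, zero_add]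
  have h1 : ∀ u ∈ C, w x u * R1 w κ (fun C => if x ∈ C then 0 else g C) C u
      = w u x * R1 w κ g C u := by
    intro u _
    rw [hsymm x u]
    congr 1
    refine R1_congr C u fun C' hC' => ?_
    have : x ∉ C' := fun h => hxC (Finset.mem_of_mem_erase (hC' h))
    simp [this]
  rw [Finset.sum_congr rfl h1]
  have h2 := R1_reverse (w := w) (φ := fun u => w u x) (ψ := κ) (g := g) hsymm C
  rw [h2]
  refine Finset.sum_subset hCV fun v _ hv => ?_
  rw [R1_notMem hv, mul_zero]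

theorem R1_through {w : U → U → ℝ} (hsymm : ∀ u v, w u v = w v u) {Λ : Finset U} {κ : U → ℝ}
    {a x : U} (hx : x ∈ Λ) (hκx : κ x = 0) (hax : a ≠ x) (g : Finset U → ℝ) :
    ∑ v ∈ Λ.erase x, κ v * R1 w (fun v => w v x) (fun C => R1 w (fun v => w v x) g C v)
        (Λ.erase x) a
      = R1 w κ (fun C => if x ∈ C then 0 else g C) Λ a := by
  have hxV : x ∉ Λ.erase x := Finset.notMem_erase x Λ
  conv_rhs => rw [← Finset.insert_erase hx]
  rw [R1_split (w := w) (ψ := κ) (g := fun C => if x ∈ C then 0 else g C)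
    (fun C hC => by simp [hC]) (Λ.erase x) hxV a hax]
  rw [R1_congr (w := w) (ψ := fun v => w v x)
    (g := fun C => R1 w κ (fun C => if x ∈ C then 0 else g C) (insert x C) x)
    (g' := fun C => ∑ v ∈ Λ.erase x, κ v * R1 w (fun v => w v x) g C v) (Λ.erase x) a]
  · rw [R1_sum]
    refine Finset.sum_congr rfl fun v _ => ?_
    rw [R1_smul]
  · intro C hC
    exact R1_star hsymm hκx g (hC.trans (Finset.erase_subset _ _)) hxV

theorem R1_at {w : U → U → ℝ} (hsymm : ∀ u v, w u v = w v u) {Λ : Finset U} {κ : U → ℝ}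
    {x : U} (hx : x ∈ Λ) (hκx : κ x = 0) (g : Finset U → ℝ) :
    ∑ v ∈ Λ.erase x, κ v * R1 w (fun v => w v x) g (Λ.erase x) v
      = R1 w κ (fun C => if x ∈ C then 0 else g C) Λ x := by
  conv_rhs => rw [← Finset.insert_erase hx]
  rw [R1_star hsymm hκx g (Finset.Subset.refl _) (Finset.notMem_erase x Λ)]

lemma R1_nonneg' {w : U → U → ℝ} {ψ : U → ℝ} {g : Finset U → ℝ} (hw : ∀ u v, 0 ≤ w u v)
    (hψ : ∀ u, 0 ≤ ψ u) (B : Finset U) (v : U) (hg : ∀ C ⊆ B.erase v, 0 ≤ g C) :
    0 ≤ R1 w ψ g B v := by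
  rw [R1_congr (g' := fun C => if C ⊆ B.erase v then g C else 0) B v
    (fun C hC => by simp [hC])]
  refine R1_nonneg hw hψ (fun C => ?_) B v
  split_ifs with h
  · exact hg C h
  · exact le_rfl

/-- The correlation inequality in terms of walk sums. `φ₂ C` is the weight of the walks from `b`
inside `C` that then step to `x`. -/
theorem walk_ineq {w : U → U → ℝ} (hsymm : ∀ u v, w u v = w v u) (hw : ∀ u v, 0 ≤ w u v)
    (hdiag : ∀ u, w u u = 0) {Λ : Finset U} {κ : U → ℝ}
    (hκ : ∀ v ∈ Λ, κ v = 1 - ∑ u ∈ Λ, w v u) (hκ0 : ∀ v, 0 ≤ κ v)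
    (hfin : ∀ v ∈ Λ, ∀ u ∈ Λ,
      ∑' n, ws w (fun u => if u = v then 1 else 0) Λ n (fun _ => 1) u ≠ ⊤)
    {a b x : U} (ha : a ∈ Λ) (hb : b ∈ Λ) (hx : x ∈ Λ) (hab : a ≠ b) (hax : a ≠ x) (hbx : b ≠ x)
    (hκx : κ x = 0) (hexit : ∑' n, ws w κ Λ n (fun _ => 1) x = 1) :
    ∑' n, ws w κ Λ n (fun l => if x ∈ LEl l then
        ∑' m, ws w (fun v => w v x) (Λ \ (LEl l).toFinset) m (fun _ => 1) b else 0) a
      ≤ (∑' n, ws w κ Λ n (fun l => if x ∈ LEl l then 1 else 0) a)
        * (∑' n, ws w κ Λ n (fun l => if x ∈ LEl l then 1 else 0) b) := by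
  obtain ⟨hpos, hgreen⟩ := Dt_green hw hfin
  have hnn : ∀ C ⊆ Λ, 0 ≤ Dt w C := fun C hC => (hpos C hC).le
  have hwx : ∀ u, 0 ≤ (fun v => w v x) u := fun u => hw u x
  -- the weight of walks going through `x`
  have hP : ∀ c ∈ Λ, c ≠ x → ENNReal.ofReal (Dt w Λ)
      * ∑' n, ws w κ Λ n (fun l => if x ∈ LEl l then 1 else 0) c
      = ENNReal.ofReal (∑ v ∈ Λ.erase x, κ v * R1 w (fun v => w v x)
          (fun C => R1 w (fun v => w v x) (Dt w) C v) (Λ.erase x) c) := by
    intro c hc hcx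
    rw [R1_through hsymm hx hκx hcx (Dt w)]
    have h := wsi (w := w) (ψ := κ) hw hκ0 (D := Dt w) (Λ := Λ) hnn hgreen
      (φ := fun C => if x ∈ C then 0 else 1) (fun C => by split_ifs <;> norm_num)
      Λ (Finset.Subset.refl _) c hc
    have e1 : (fun l : List U => ENNReal.ofReal
        ((fun C : Finset U => if x ∈ C then (0 : ℝ) else 1) (Λ \ (LEl l).toFinset)))
        = fun l => if x ∈ LEl l then 1 else 0 := by
      funext l
      by_cases hl : x ∈ LEl l <;> simp [hl, hx]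
    rw [e1] at h
    rw [h]
    congr 1
    refine R1_congr _ _ fun C _ => ?_
    by_cases hC : x ∈ C <;> simp [hC]
  -- the exit
  have hZ : Dt w Λ = ∑ v ∈ Λ.erase x, κ v * R1 w (fun v => w v x) (Dt w) (Λ.erase x) v := by
    rw [R1_at hsymm hx hκx (Dt w)]
    have h := wsi (w := w) (ψ := κ) hw hκ0 (D := Dt w) (Λ := Λ) hnn hgreen
      (φ := fun _ => 1) (fun C => zero_le_one) Λ (Finset.Subset.refl _) x hx
    simp only [ENNReal.ofReal_one, mul_one] at h
    rw [hexit, mul_one] at h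
    have h0 : 0 < R1 w κ (fun C => Dt w C) Λ x := by
      rw [← ENNReal.ofReal_pos, ← h]
      exact ENNReal.ofReal_pos.2 (hpos Λ (Finset.Subset.refl _))
    rw [ENNReal.ofReal_eq_ofReal_iff (hnn Λ (Finset.Subset.refl _)) h0.le] at h
    rw [h]
    refine R1_congr _ _ fun C hC => ?_
    have : x ∉ C := fun h => Finset.notMem_erase x Λ (hC h)
    simp [this]
  -- the joint weight
  have hin : ∀ C ⊆ Λ, ENNReal.ofReal (Dt w C) * ∑' m, ws w (fun v => w v x) C m (fun _ => 1) b
      = ENNReal.ofReal (R1 w (fun v => w v x) (Dt w) C b) := by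
    intro C hC
    by_cases hbC : b ∈ C
    · have h := wsi (w := w) (ψ := fun v => w v x) hw hwx (D := Dt w) (Λ := Λ) hnn hgreen
        (φ := fun _ => 1) (fun C => zero_le_one) C hC b hbC
      simp only [ENNReal.ofReal_one, mul_one] at h
      exact h
    · rw [R1_notMem hbC]
      simp [ws_notMem hbC]
  have hfinC : ∀ C ⊆ Λ, ∑' m, ws w (fun v => w v x) C m (fun _ => 1) b ≠ ⊤ := by
    intro C hC htop
    have h := hin C hC
    rw [htop, ENNReal.mul_top (by
      rw [Ne, ENNReal.ofReal_eq_zero, not_le]; exact hpos C hC)] at h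
    exact ENNReal.ofReal_ne_top h.symm
  have hJ : ENNReal.ofReal (Dt w Λ)
      * ∑' n, ws w κ Λ n (fun l => if x ∈ LEl l then
        ∑' m, ws w (fun v => w v x) (Λ \ (LEl l).toFinset) m (fun _ => 1) b else 0) a
      = ENNReal.ofReal (∑ v ∈ Λ.erase x, κ v * R1 w (fun v => w v x)
          (fun C => R1 w (fun v => w v x) (fun C' => R1 w (fun v => w v x) (Dt w) C' b) C v)
          (Λ.erase x) a) := by
    rw [R1_through hsymm hx hκx hax (fun C' => R1 w (fun v => w v x) (Dt w) C' b)]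
    have h := wsi (w := w) (ψ := κ) hw hκ0 (D := Dt w) (Λ := Λ) hnn hgreen
      (φ := fun C => if x ∈ C then 0 else
        (∑' m, ws w (fun v => w v x) C m (fun _ => 1) b).toReal)
      (fun C => by split_ifs; · exact le_rfl
                   · exact ENNReal.toReal_nonneg)
      Λ (Finset.Subset.refl _) a ha
    have e1 : (fun l : List U => ENNReal.ofReal
        ((fun C : Finset U => if x ∈ C then (0 : ℝ) else
          (∑' m, ws w (fun v => w v x) C m (fun _ => 1) b).toReal) (Λ \ (LEl l).toFinset)))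
        = fun l => if x ∈ LEl l then
        ∑' m, ws w (fun v => w v x) (Λ \ (LEl l).toFinset) m (fun _ => 1) b else 0 := by
      funext l
      by_cases hl : x ∈ LEl l
      · have hnm : x ∉ Λ \ (LEl l).toFinset := by simp [hl]
        simp only [hnm, hl, if_true, if_false]
        exact ENNReal.ofReal_toReal (hfinC _ Finset.sdiff_subset)
      · have hm : x ∈ Λ \ (LEl l).toFinset := by simp [hl, hx]
        simp only [hm, hl, if_true, if_false, ENNReal.ofReal_zero]
    rw [e1] at h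
    rw [h]
    congr 1
    refine R1_congr _ _ fun C hC => ?_
    have hCΛ : C ⊆ Λ := hC.trans (Finset.erase_subset _ _)
    by_cases hxC : x ∈ C
    · simp [hxC]
    · simp only [hxC, if_false]
      have h1 := congrArg ENNReal.toReal (hin C hCΛ)
      rw [ENNReal.toReal_mul, ENNReal.toReal_ofReal (hnn C hCΛ), ENNReal.toReal_ofReal] at h1
      · exact h1
      · exact R1_nonneg' hw hwx C b fun C' hC' =>
          hnn C' (hC'.trans ((Finset.erase_subset _ _).trans hCΛ))
  have hcore := core_ineq hsymm hw hdiag hκ (fun v _ => hκ0 v) ha hb hx hab hax hbx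
  rw [← hZ] at hcore
  have hTnn : ∀ c ∈ Λ, c ≠ x → 0 ≤ ∑ v ∈ Λ.erase x, κ v * R1 w (fun v => w v x)
          (fun C => R1 w (fun v => w v x) (Dt w) C v) (Λ.erase x) c := by
    intro c hc hcx
    rw [R1_through hsymm hx hκx hcx (Dt w)]
    refine R1_nonneg' hw hκ0 Λ c fun C hC => ?_
    split_ifs
    · exact le_rfl
    · exact hnn C (hC.trans (Finset.erase_subset _ _))
  have h2 := ENNReal.ofReal_le_ofReal hcore
  rw [ENNReal.ofReal_mul (hnn Λ (Finset.Subset.refl _)), ENNReal.ofReal_mul (hTnn a ha hax),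
    ← hJ, ← hP a ha hax, ← hP b hb hbx] at h2
  have hD0 : ENNReal.ofReal (Dt w Λ) ≠ 0 := by
    rw [Ne, ENNReal.ofReal_eq_zero, not_le]; exact hpos Λ (Finset.Subset.refl _)
  have hDt : ENNReal.ofReal (Dt w Λ) ≠ ⊤ := ENNReal.ofReal_ne_top
  generalize ENNReal.ofReal (Dt w Λ) = D at h2 hD0 hDt
  rw [show ∀ p q : ℝ≥0∞, D * p * (D * q) = D * (D * (p * q)) from fun p q => by ring] at h2
  rwa [ENNReal.mul_le_mul_iff_right hD0 hDt, ENNReal.mul_le_mul_iff_right hD0 hDt] at h2

end Pool.Agent.H39.LW
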