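import Pool.Agent.H39.LW.Trans
import Pool.Agent.H39.LW.HKDiff

/-!
# Module SMa: surviving intersections

`X = pos a ω`, `Y = pos b ω'` are independent walks (the product measure is written as an iterated
integral). For a list `L` and a path `s`, `firstIdx L s` is the smallest index of an entry of `L`
visited by `s` (`L.length` if there is none). For times `k, l`, `evA a b k l ω ω'` is the event that
`X_k = Y_l` and
`firstIdx (LE X k) (Y after time l) ≤ firstIdx (LE X k) (X after time k)`.

`hit_of_evA`: there is `n` with `InL X (Y_n)`. The index `j = firstIdx (LE X k) (Y after l)` is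
`< (LE X k).length` because `Y_l = X_k` is an element of `LE X k` (`self_mem_LE`); apply
`inL_of_prefix` with this `j`: the entries before `j ≤ firstIdx (LE X k) (X after k)` are not visited
by `X` from time `k` on. The entry `j` is visited by `Y`.

`half_le`: apply `lintegral_split k` to `ω` and `lintegral_split l` to `ω'`
(`pos a ω (k + n) = pos (pos a ω k) (shift k ω) n` is `pos_shift`): the past of `X` gives the list `L`
and the point `z = X_k = Y_l`; the futures are walks `S = pos z ω₂`, `S' = pos z ω₂'` with the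
same law, and `1 ≤ 1{firstIdx L S' ≤ firstIdx L S} + 1{firstIdx L S ≤ firstIdx L S'}` integrated over
`(ω₂, ω₂')` shows (`lintegral_lintegral_swap`) that
`1/2 ≤ ∫⁻ ω₂, Pr d {ω₂' | firstIdx L (pos z ω₂') ≤ firstIdx L (pos z ω₂)} ∂Pr d`.
Measurability: `firstIdx L (pos z ω)` is a measurable function of `ω` (its level sets are finite
boolean combinations of the sets `{ω | ∃ n, pos z ω n = y}`).
Finally `∫⁻ ω, Pr d {ω' | pos a ω k = pos b ω' l} = ∑' z, ofReal (hk k (z-a)) * ofReal (hk l (z-b))
= ofReal (hk (k+l) (b-a))` by `prob_pos`, `hk_add`, `hk_neg` (this is `prob_meet`).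
-/

open MeasureTheory ProbabilityTheory Filter
open scoped ENNReal

namespace Pool.Agent.H39.LW

variable {d : ℕ} [NeZero d]

/-- smallest index of an entry of `L` visited by `s` (`L.length` if there is none) -/
noncomputable def firstIdx (L : List (Zd d)) (s : ℕ → Zd d) : ℕ :=
  sInf {i | i = L.length ∨ ∃ n, L[i]? = some (s n)}

/-- the event `A k l` -/
def evA (a b : Zd d) (k l : ℕ) (ω ω' : Om d) : Prop :=
  pos a ω k = pos b ω' l ∧
    firstIdx (LE (pos a ω) k) (fun n => pos b ω' (l + n))
      ≤ firstIdx (LE (pos a ω) k) (fun n => pos a ω (k + n))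

lemma firstIdx_mem (L : List (Zd d)) (s : ℕ → Zd d) :
    firstIdx L s = L.length ∨ ∃ n, L[firstIdx L s]? = some (s n) :=
  Nat.sInf_mem (s := {i | i = L.length ∨ ∃ n, L[i]? = some (s n)}) ⟨L.length, Or.inl rfl⟩

lemma firstIdx_le {L : List (Zd d)} {s : ℕ → Zd d} {i : ℕ}
    (h : i = L.length ∨ ∃ n, L[i]? = some (s n)) : firstIdx L s ≤ i :=
  Nat.sInf_le (s := {i | i = L.length ∨ ∃ n, L[i]? = some (s n)}) h

theorem hit_of_evA {a b : Zd d} {k l : ℕ} {ω ω' : Om d} (h : evA a b k l ω ω') :
    ∃ n, InL (pos a ω) (pos b ω' n) := by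
  obtain ⟨h1, h2⟩ := h
  obtain ⟨i0, hi0, hi0'⟩ := List.mem_iff_getElem.1 (self_mem_LE (pos a ω) k)
  have h3 : firstIdx (LE (pos a ω) k) (fun n => pos b ω' (l + n)) ≤ i0 := by
    apply firstIdx_le
    right
    refine ⟨0, ?_⟩
    rw [List.getElem?_eq_getElem hi0, hi0', h1, add_zero]
  have hj : firstIdx (LE (pos a ω) k) (fun n => pos b ω' (l + n)) < (LE (pos a ω) k).length :=
    lt_of_le_of_lt h3 hi0
  rcases firstIdx_mem (LE (pos a ω) k) (fun n => pos b ω' (l + n)) with h4 | ⟨n, hn⟩
  · omega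
  · have h5 := inL_of_prefix (s := pos a ω) k _ hj (by
      intro n hkn i hi heq
      have h6 : firstIdx (LE (pos a ω) k) (fun n => pos a ω (k + n)) ≤ i := by
        apply firstIdx_le
        right
        refine ⟨n - k, ?_⟩
        rw [List.getElem?_eq_getElem (hi.trans hj), heq, Nat.add_sub_cancel' hkn]
      omega)
    rw [List.getElem?_eq_getElem hj] at hn
    have h7 := Option.some.inj hn
    rw [h7] at h5
    exact ⟨l + n, h5⟩

/-- general measurability of `firstIdx` -/
lemma measurable_firstIdx' {Ω : Type*} [MeasurableSpace Ω] (L : List (Zd d)) {s : Ω → ℕ → Zd d}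
    (hs : ∀ n, Measurable fun ω => s ω n) : Measurable fun ω => firstIdx L (s ω) := by
  apply measurable_of_Iic
  intro i
  have h1 : (fun ω => firstIdx L (s ω)) ⁻¹' Set.Iic i =
      ⋃ i' ∈ Set.Iic i, ({ω | i' = L.length} ∪ ⋃ n, {ω | L[i']? = some (s ω n)}) := by
    ext ω
    simp only [Set.mem_preimage, Set.mem_Iic, Set.mem_iUnion, Set.mem_union, Set.mem_ofPred_eq]
    constructor
    · intro h
      exact ⟨firstIdx L (s ω), h, firstIdx_mem L (s ω)⟩
    · rintro ⟨i', hi', h⟩
      exact (firstIdx_le h).trans hi'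
  rw [h1]
  refine MeasurableSet.biUnion (Set.to_countable _) fun i' _ => ?_
  refine MeasurableSet.union (MeasurableSet.const _) (MeasurableSet.iUnion fun n => ?_)
  have h2 : {ω | L[i']? = some (s ω n)} = (fun ω => s ω n) ⁻¹' {y | L[i']? = some y} := rfl
  rw [h2]
  exact hs n (Set.to_countable _).measurableSet

lemma measurable_firstIdx (L : List (Zd d)) (z : Zd d) :
    Measurable fun ω : Om d => firstIdx L (pos z ω) :=
  measurable_firstIdx' L fun n => measurable_pos z n

theorem measurableSet_pos_eq (b z : Zd d) (l : ℕ) : MeasurableSet {ω' : Om d | z = pos b ω' l} := by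
  have h2 : {ω' : Om d | z = pos b ω' l} = (fun ω => pos b ω l) ⁻¹' {y | z = y} := rfl
  rw [h2]
  exact measurable_pos b l (Set.to_countable _).measurableSet

theorem prob_meet (a b : Zd d) (k l : ℕ) :
    ∫⁻ ω, Pr d {ω' | pos a ω k = pos b ω' l} ∂Pr d = ENNReal.ofReal (hk (k + l) (b - a)) := by
  have h1 : ∀ ω : Om d, Pr d {ω' | pos a ω k = pos b ω' l}
      = ENNReal.ofReal (hk l (pos a ω k - b)) := by
    intro ω
    rw [← prob_pos]
    congr 1
    ext ω'
    exact eq_comm
  simp only [h1]
  have h2 : ∫⁻ ω : Om d, ENNReal.ofReal (hk l (pos a ω k - b)) ∂Pr d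
      = ∫⁻ z, ENNReal.ofReal (hk l (z - b)) ∂((Pr d).map fun ω => pos a ω k) := by
    rw [lintegral_map (Measurable.of_discrete) (measurable_pos a k)]
  rw [h2, lintegral_countable']
  have h3 : ∀ z : Zd d, ((Pr d).map fun ω => pos a ω k) {z} = ENNReal.ofReal (hk k (z - a)) := by
    intro z
    rw [Measure.map_apply (measurable_pos a k) (measurableSet_singleton z), ← prob_pos]
    rfl
  simp only [h3]
  rw [hk_add]
  have hsum : Summable fun y : Zd d => hk k y * hk l (b - a - y) := by
    refine summable_of_finite_support ?_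
    refine (hk_support k).subset ?_
    intro y hy
    rw [Function.mem_support] at hy ⊢
    exact fun h => hy (by rw [h, zero_mul])
  rw [ENNReal.ofReal_tsum_of_nonneg (fun y => mul_nonneg (hk_nonneg _ _) (hk_nonneg _ _)) hsum]
  rw [← (Equiv.addRight a).tsum_eq]
  congr 1
  funext y
  rw [ENNReal.ofReal_mul (hk_nonneg _ _), mul_comm]
  congr 1
  · congr 2
    simp
  · rw [← hk_neg]
    congr 2
    simp
    abel

/-- the event is measurable in the product space -/
theorem measurableSet_evA (a b : Zd d) (k l : ℕ) :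
    MeasurableSet {p : Om d × Om d | evA a b k l p.1 p.2} := by
  have h1 : {p : Om d × Om d | evA a b k l p.1 p.2} =
      ⋃ z : Zd d, ⋃ L : List (Zd d), (({p : Om d × Om d | z = pos a p.1 k} ∩
        {p : Om d × Om d | z = pos b p.2 l}) ∩
        {p : Om d × Om d | LE (pos a p.1) k ∈ ({L} : Set (List (Zd d)))}) ∩
        {p : Om d × Om d | firstIdx L (fun n => pos b p.2 (l + n))
          ≤ firstIdx L (fun n => pos a p.1 (k + n))} := by
    ext p
    simp only [Set.mem_iUnion, Set.mem_inter_iff, Set.mem_ofPred_eq, Set.mem_singleton_iff, evA]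
    constructor
    · rintro ⟨h2, h3⟩
      exact ⟨_, _, ⟨⟨rfl, h2⟩, rfl⟩, h3⟩
    · rintro ⟨z, L, ⟨⟨h2, h3⟩, h4⟩, h5⟩
      subst h4
      exact ⟨h2.symm.trans h3, h5⟩
  rw [h1]
  refine MeasurableSet.iUnion fun z => MeasurableSet.iUnion fun L => ?_
  refine MeasurableSet.inter (MeasurableSet.inter (MeasurableSet.inter ?_ ?_) ?_) ?_
  · exact measurable_fst (measurableSet_pos_eq a z k)
  · exact measurable_snd (measurableSet_pos_eq b z l)
  · exact measurable_fst (measurableSet_LE a k {L})
  · refine measurableSet_le ?_ ?_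
    · exact measurable_firstIdx' L fun n => (measurable_pos b (l + n)).comp measurable_snd
    · exact measurable_firstIdx' L fun n => (measurable_pos a (k + n)).comp measurable_fst

theorem half_aux {f : Om d → ℕ} (hf : Measurable f) :
    1 / 2 ≤ ∫⁻ ω, Pr d {ω' | f ω' ≤ f ω} ∂Pr d := by
  have hA : MeasurableSet {p : Om d × Om d | f p.2 ≤ f p.1} :=
    measurableSet_le (hf.comp measurable_snd) (hf.comp measurable_fst)
  have hI : (Pr d).prod (Pr d) {p : Om d × Om d | f p.2 ≤ f p.1}
      = ∫⁻ ω, Pr d {ω' | f ω' ≤ f ω} ∂Pr d := Measure.prod_apply hA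
  have hB : (Pr d).prod (Pr d) {p : Om d × Om d | f p.1 ≤ f p.2}
      = (Pr d).prod (Pr d) {p : Om d × Om d | f p.2 ≤ f p.1} :=
    (Measure.measurePreserving_swap (μ := Pr d) (ν := Pr d)).measure_preimage
      hA.nullMeasurableSet
  have h1 : 1 ≤ (Pr d).prod (Pr d) {p : Om d × Om d | f p.1 ≤ f p.2}
      + (Pr d).prod (Pr d) {p : Om d × Om d | f p.2 ≤ f p.1} := by
    calc 1 = (Pr d).prod (Pr d) Set.univ := measure_univ.symm
      _ ≤ (Pr d).prod (Pr d) ({p : Om d × Om d | f p.1 ≤ f p.2} ∪
          {p : Om d × Om d | f p.2 ≤ f p.1}) := measure_mono fun p _ => le_total (f p.1) (f p.2)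
      _ ≤ _ := measure_union_le _ _
  rw [hB, hI, ← two_mul] at h1
  exact ENNReal.div_le_of_le_mul' h1

/-- the past of the second walk -/
theorem evA_split (a b : Zd d) (k l : ℕ) (ω : Om d) :
    Pr d {ω' | evA a b k l ω ω'} = Pr d {ω' | pos a ω k = pos b ω' l} *
      Pr d {ω' | firstIdx (LE (pos a ω) k) (pos (pos a ω k) ω')
        ≤ firstIdx (LE (pos a ω) k) (pos (pos a ω k) (shift k ω))} := by
  obtain ⟨z, hz⟩ : ∃ z, z = pos a ω k := ⟨_, rfl⟩
  obtain ⟨L, hL⟩ : ∃ L, L = LE (pos a ω) k := ⟨_, rfl⟩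
  obtain ⟨m, hm⟩ : ∃ m, m = firstIdx L (fun n => pos a ω (k + n)) := ⟨_, rfl⟩
  have hm2 : firstIdx L (pos z (shift k ω)) = m := by
    rw [hm, hz]
    congr 1
    funext n
    exact pos_shift a ω k n
  rw [← hz, ← hL, hm2]
  have hS1 : MeasurableSet {ω' : Om d | evA a b k l ω ω'} := by
    have h1 : Measurable (fun ω' : Om d => (ω, ω')) := measurable_prodMk_left
    exact h1 (measurableSet_evA a b k l)
  have hS2 : MeasurableSet {ω' : Om d | z = pos b ω' l} := measurableSet_pos_eq b z l
  have hS3 : MeasurableSet {ω' : Om d | firstIdx L (pos z ω') ≤ m} :=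
    measurableSet_le (measurable_firstIdx L z) measurable_const
  have h1 : ∀ ω' : Om d, {ω' | evA a b k l ω ω'}.indicator (1 : Om d → ℝ≥0∞) ω' =
      {ω' : Om d | z = pos b ω' l}.indicator (1 : Om d → ℝ≥0∞) ω' *
      {ω' : Om d | firstIdx L (pos z ω') ≤ m}.indicator (1 : Om d → ℝ≥0∞) (shift l ω') := by
    intro ω'
    by_cases h2 : z = pos b ω' l
    · have h3 : firstIdx L (fun n => pos b ω' (l + n)) = firstIdx L (pos z (shift l ω')) := by
        congr 1
        funext n
        rw [h2, pos_shift]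
      have h4 : evA a b k l ω ω' ↔ firstIdx L (pos z (shift l ω')) ≤ m := by
        unfold evA
        rw [← hz, ← hL, h3, ← hm]
        exact ⟨fun h => h.2, fun h => ⟨h2, h⟩⟩
      by_cases h5 : firstIdx L (pos z (shift l ω')) ≤ m
      · rw [Set.indicator_of_mem (show ω' ∈ {ω' | evA a b k l ω ω'} from h4.2 h5),
          Set.indicator_of_mem (show ω' ∈ {ω' : Om d | z = pos b ω' l} from h2),
          Set.indicator_of_mem (show shift l ω' ∈ {ω' : Om d | firstIdx L (pos z ω') ≤ m} from h5)]
        simp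
      · rw [Set.indicator_of_notMem (show ω' ∉ {ω' | evA a b k l ω ω'} from fun h => h5 (h4.1 h)),
          Set.indicator_of_notMem
            (show shift l ω' ∉ {ω' : Om d | firstIdx L (pos z ω') ≤ m} from h5)]
        simp
    · rw [Set.indicator_of_notMem (show ω' ∉ {ω' | evA a b k l ω ω'} from fun h => h2 (hz.trans h.1)),
        Set.indicator_of_notMem (show ω' ∉ {ω' : Om d | z = pos b ω' l} from h2)]
      simp
  calc Pr d {ω' | evA a b k l ω ω'}
      = ∫⁻ ω', {ω' | evA a b k l ω ω'}.indicator (1 : Om d → ℝ≥0∞) ω' ∂Pr d :=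
        (lintegral_indicator_one hS1).symm
    _ = ∫⁻ ω', {ω' : Om d | z = pos b ω' l}.indicator (1 : Om d → ℝ≥0∞) ω' *
      {ω' : Om d | firstIdx L (pos z ω') ≤ m}.indicator (1 : Om d → ℝ≥0∞) (shift l ω') ∂Pr d :=
        lintegral_congr h1
    _ = ∫⁻ ω', ∫⁻ ω₂, {ω' : Om d | z = pos b ω' l}.indicator (1 : Om d → ℝ≥0∞) ω' *
      {ω' : Om d | firstIdx L (pos z ω') ≤ m}.indicator (1 : Om d → ℝ≥0∞) ω₂ ∂Pr d ∂Pr d := by
        refine lintegral_split l (Φ := fun ω' ω₂ =>
          {ω' : Om d | z = pos b ω' l}.indicator (1 : Om d → ℝ≥0∞) ω' *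
          {ω' : Om d | firstIdx L (pos z ω') ≤ m}.indicator (1 : Om d → ℝ≥0∞) ω₂) ?_ ?_
        · intro ω₁ ω₂ ω₃ h
          have h2 : pos b ω₁ l = pos b ω₂ l := pos_congr b h
          have h3 : {ω' : Om d | z = pos b ω' l}.indicator (1 : Om d → ℝ≥0∞) ω₁ =
              {ω' : Om d | z = pos b ω' l}.indicator (1 : Om d → ℝ≥0∞) ω₂ := by
            by_cases h4 : z = pos b ω₁ l
            · rw [Set.indicator_of_mem (show ω₁ ∈ {ω' : Om d | z = pos b ω' l} from h4),
                Set.indicator_of_mem (show ω₂ ∈ {ω' : Om d | z = pos b ω' l} from h4.trans h2)]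
              rfl
            · rw [Set.indicator_of_notMem (show ω₁ ∉ {ω' : Om d | z = pos b ω' l} from h4),
                Set.indicator_of_notMem (show ω₂ ∉ {ω' : Om d | z = pos b ω' l} from
                  fun h => h4 (h.trans h2.symm))]
          simp only [h3]
        · intro ω'
          exact (measurable_one.indicator hS3).const_mul _
    _ = ∫⁻ ω', {ω' : Om d | z = pos b ω' l}.indicator (1 : Om d → ℝ≥0∞) ω' *
        Pr d {ω' | firstIdx L (pos z ω') ≤ m} ∂Pr d := by
        apply lintegral_congr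
        intro ω'
        rw [lintegral_const_mul _ (measurable_one.indicator hS3), lintegral_indicator_one hS3]
    _ = Pr d {ω' | z = pos b ω' l} * Pr d {ω' | firstIdx L (pos z ω') ≤ m} := by
        rw [lintegral_mul_const _ (measurable_one.indicator hS2), lintegral_indicator_one hS2]

theorem half_le (a b : Zd d) (k l : ℕ) :
    ENNReal.ofReal (hk (k + l) (b - a)) / 2 ≤ ∫⁻ ω, Pr d {ω' | evA a b k l ω ω'} ∂Pr d := by
  simp only [evA_split]
  have hsp := lintegral_split k (Φ := fun ω ω₂ => Pr d {ω' | pos a ω k = pos b ω' l} *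
      Pr d {ω' | firstIdx (LE (pos a ω) k) (pos (pos a ω k) ω')
        ≤ firstIdx (LE (pos a ω) k) (pos (pos a ω k) ω₂)}) (by
      intro ω₁ ω₂ ω₃ h
      have h2 : pos a ω₁ k = pos a ω₂ k := pos_congr a h
      have h3 : LE (pos a ω₁) k = LE (pos a ω₂) k :=
        LE_congr fun i hi => pos_congr a fun j hj => h j (lt_of_lt_of_le hj hi)
      simp only [h2, h3]) (by
      intro ω
      refine Measurable.const_mul ?_ _
      have hf := measurable_firstIdx (LE (pos a ω) k) (pos a ω k)
      exact (Measurable.of_discrete (f := fun m : ℕ => Pr d {ω' |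
        firstIdx (LE (pos a ω) k) (pos (pos a ω k) ω') ≤ m})).comp hf)
  rw [hsp, ← prob_meet, ENNReal.div_eq_inv_mul, mul_comm,
    ← lintegral_mul_const' _ _ (by simp)]
  apply lintegral_mono
  intro ω
  have hf := measurable_firstIdx (LE (pos a ω) k) (pos a ω k)
  have hH : Measurable fun ω₂ : Om d => Pr d {ω' | firstIdx (LE (pos a ω) k) (pos (pos a ω k) ω')
        ≤ firstIdx (LE (pos a ω) k) (pos (pos a ω k) ω₂)} :=
    (Measurable.of_discrete (f := fun m : ℕ => Pr d {ω' |
        firstIdx (LE (pos a ω) k) (pos (pos a ω k) ω') ≤ m})).comp hf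
  simp only
  rw [lintegral_const_mul _ hH]
  gcongr
  have := half_aux hf
  rwa [one_div] at this

end Pool.Agent.H39.LW
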