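import Pool.Agent.H39.LW.Trans
import Pool.Agent.H39.LW.HKDiff

/-!
# Module SMb: second moment of the number of meetings

`X = pos a ω`, `Y = pos b ω'`, `G = ∑_{k ≤ n} hk k` (a function of finite support). The left side is
`∑_{z,z'} A(z,z') B(z,z')` with `A(z,z') = ∑_{k,k' ≤ n} P(X_k = z, X_k' = z')` and
`B(z,z') = ∑_{l,l' ≤ n} P(Y_l = z, Y_l' = z')`. By the Markov property (`prob_pair`),
`A(z,z') ≤ G(z-a) G(z'-z) + G(z'-a) G(z-z')` (pairs `k ≤ k'` and pairs `k' ≤ k`), and similarly for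
`B` with `b`. With `hk_neg`:
`∑ A B ≤ ∑_{z,z'} G(z'-z)² (G(z-a) + G(z'-a)) (G(z-b) + G(z'-b))
 = 2 ∑ G(z-a) G(z-b) G(z'-z)² + 2 ∑ G(z-a) G(z'-b) G(z'-z)²
 = 2 un n (b-a) * un n 0 + 2 ∑_w G(w)² un n (b - a - w) ≤ 4 (un n 0)²`,
by `un_eq : un n y = ∑' z, G z * G (z - y)`, `un_le` and `∑ G² = un n 0`.
-/

open MeasureTheory ProbabilityTheory Filter
open scoped ENNReal

namespace Pool.Agent.H39.LW

variable {d : ℕ} [NeZero d]

lemma prob_pair (a z z' : Zd d) {k k' : ℕ} (h : k ≤ k') :
    Pr d {ω | pos a ω k = z ∧ pos a ω k' = z'}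
      = ENNReal.ofReal (hk k (z - a)) * ENNReal.ofReal (hk (k' - k) (z' - z)) := by
  obtain ⟨m, rfl⟩ := Nat.exists_eq_add_of_le h
  rw [Nat.add_sub_cancel_left, ← prob_pos, ← prob_pos]
  set A : Set (Om d) := {ω | pos a ω k = z} with hA
  set B : Set (Om d) := {ω | pos z ω m = z'} with hB
  have hAm : MeasurableSet A := measurable_pos a k (measurableSet_singleton z)
  have hBm : MeasurableSet B := measurable_pos z m (measurableSet_singleton z')
  have hset : {ω : Om d | pos a ω k = z ∧ pos a ω (k + m) = z'} = A ∩ shift k ⁻¹' B := by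
    ext ω
    simp only [hA, hB, Set.mem_inter_iff, Set.mem_preimage, Set.mem_setOf_eq]
    constructor
    · rintro ⟨h1, h2⟩
      refine ⟨h1, ?_⟩
      rw [← h1, pos_shift, h2]
    · rintro ⟨h1, h2⟩
      refine ⟨h1, ?_⟩
      rw [← h1, pos_shift] at h2
      exact h2
  have hsplit := lintegral_split (d := d) k
    (Φ := fun ω ω₂ => A.indicator 1 ω * B.indicator 1 ω₂) (by
      intro ω ω' ω₂ hω
      have h1 : pos a ω k = pos a ω' k := pos_congr a hω
      have h2 : A.indicator (1 : Om d → ℝ≥0∞) ω = A.indicator 1 ω' := by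
        by_cases hc : ω ∈ A
        · have hc' : ω' ∈ A := by
            show pos a ω' k = z
            rw [← h1]
            exact hc
          rw [Set.indicator_of_mem hc, Set.indicator_of_mem hc']
          rfl
        · have hc' : ω' ∉ A := by
            intro hx
            apply hc
            show pos a ω k = z
            rw [h1]
            exact hx
          rw [Set.indicator_of_notMem hc, Set.indicator_of_notMem hc']
      show A.indicator 1 ω * B.indicator 1 ω₂ = A.indicator 1 ω' * B.indicator 1 ω₂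
      rw [h2])
    (by
      intro ω
      exact measurable_const.mul (measurable_one.indicator hBm))
  have hleft : ∫⁻ ω, A.indicator 1 ω * B.indicator 1 (shift k ω) ∂Pr d =
      Pr d (A ∩ shift k ⁻¹' B) := by
    rw [← lintegral_indicator_one (hAm.inter ((measurable_shift k) hBm))]
    refine lintegral_congr fun ω => ?_
    by_cases h1 : ω ∈ A
    · by_cases h2 : shift k ω ∈ B
      · rw [Set.indicator_of_mem h1, Set.indicator_of_mem h2,
          Set.indicator_of_mem (show ω ∈ A ∩ shift k ⁻¹' B from ⟨h1, h2⟩)]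
        simp
      · have h3 : ω ∉ A ∩ shift k ⁻¹' B := fun hx => h2 hx.2
        rw [Set.indicator_of_notMem h2, Set.indicator_of_notMem h3, mul_zero]
    · have h3 : ω ∉ A ∩ shift k ⁻¹' B := fun hx => h1 hx.1
      rw [Set.indicator_of_notMem h1, Set.indicator_of_notMem h3, zero_mul]
  rw [hset, ← hleft, hsplit]
  have h3 : ∀ ω : Om d, ∫⁻ ω₂, A.indicator 1 ω * B.indicator 1 ω₂ ∂Pr d =
      A.indicator 1 ω * Pr d B := by
    intro ω
    rw [lintegral_const_mul _ (measurable_one.indicator hBm), lintegral_indicator_one hBm]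
  simp only [h3]
  rw [lintegral_mul_const _ (measurable_one.indicator hAm), lintegral_indicator_one hAm]

namespace SMb

open Finset

/-- the truncated Green function with values in `ℝ≥0∞` -/
noncomputable def ge (n : ℕ) (z : Zd d) : ℝ≥0∞ := ENNReal.ofReal (HD.gf n z)

omit [NeZero d] in
lemma gf_nonneg (n : ℕ) (z : Zd d) : 0 ≤ HD.gf n z := sum_nonneg fun k _ => hk_nonneg k z

omit [NeZero d] in
lemma ge_eq (n : ℕ) (z : Zd d) :
    ge n z = ∑ k ∈ range (n + 1), ENNReal.ofReal (hk k z) := by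
  unfold ge HD.gf
  rw [ENNReal.ofReal_sum_of_nonneg (fun k _ => hk_nonneg k z)]

omit [NeZero d] in
lemma ge_neg (n : ℕ) (z : Zd d) : ge n (-z) = ge n z := by
  rw [ge_eq, ge_eq]
  exact sum_congr rfl fun k _ => by rw [hk_neg]

omit [NeZero d] in
lemma tsum_ge (n : ℕ) (y : Zd d) :
    ∑' z, ge n z * ge n (z - y) = ENNReal.ofReal (un n y) := by
  rw [HD.un_eq, ENNReal.ofReal_tsum_of_nonneg]
  · refine tsum_congr fun z => ?_
    unfold ge
    rw [ENNReal.ofReal_mul (gf_nonneg n z)]
  · intro z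
    exact mul_nonneg (gf_nonneg n z) (gf_nonneg n _)
  · exact HD.summable_fin (HD.gf_support n) fun z hz => by rw [hz, zero_mul]

omit [NeZero d] in
lemma tsum_ge_sq (n : ℕ) : ∑' z : Zd d, ge n z ^ 2 = ENNReal.ofReal (un n (0 : Zd d)) := by
  rw [← tsum_ge]
  refine tsum_congr fun z => ?_
  rw [sub_zero, sq]

lemma tsum_ge_le (n : ℕ) (a b : Zd d) :
    ∑' z, ge n (z - a) * ge n (z - b) ≤ ENNReal.ofReal (un n (0 : Zd d)) := by
  have h1 : ∑' z, ge n (z - a) * ge n (z - b) = ∑' z, ge n z * ge n (z - (b - a)) := by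
    rw [← (Equiv.addRight a).tsum_eq (fun z => ge n (z - a) * ge n (z - b))]
    refine tsum_congr fun z => ?_
    simp only [Equiv.coe_addRight, add_sub_cancel_right]
    congr 2
    abel
  rw [h1, tsum_ge]
  exact ENNReal.ofReal_le_ofReal (un_le n _)

lemma sum_shift_le (n k : ℕ) (hk : k ∈ range (n + 1)) (f : ℕ → ℝ≥0∞) :
    ∑ k' ∈ range (n + 1), (if k ≤ k' then f (k' - k) else 0) ≤ ∑ m ∈ range (n + 1), f m := by
  rw [← sum_filter]
  have h1 : (range (n + 1)).filter (fun k' => k ≤ k') = Ico k (n + 1) := by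
    ext x
    simp only [mem_filter, mem_range, mem_Ico]
    omega
  rw [h1, sum_Ico_eq_sum_range]
  have h2 : ∀ x ∈ range (n + 1 - k), f (k + x - k) = f x := by
    intro x _
    rw [Nat.add_sub_cancel_left]
  rw [sum_congr rfl h2]
  exact sum_le_sum_of_subset (range_mono (Nat.sub_le _ _))

/-- the pair probabilities -/
lemma pair_le (a z z' : Zd d) (n : ℕ) :
    ∑ k ∈ range (n + 1), ∑ k' ∈ range (n + 1), Pr d {ω | pos a ω k = z ∧ pos a ω k' = z'}
      ≤ ge n (z' - z) * (ge n (z - a) + ge n (z' - a)) := by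
  have h1 : ∀ k k' : ℕ, Pr d {ω | pos a ω k = z ∧ pos a ω k' = z'} ≤
      (if k ≤ k' then ENNReal.ofReal (hk k (z - a)) * ENNReal.ofReal (hk (k' - k) (z' - z)) else 0) +
      (if k' ≤ k then ENNReal.ofReal (hk k' (z' - a)) * ENNReal.ofReal (hk (k - k') (z - z'))
        else 0) := by
    intro k k'
    rcases le_total k k' with h | h
    · rw [if_pos h, prob_pair a z z' h]
      exact le_self_add
    · rw [if_pos h]
      have h2 : {ω : Om d | pos a ω k = z ∧ pos a ω k' = z'} =
          {ω | pos a ω k' = z' ∧ pos a ω k = z} := by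
        ext ω
        exact and_comm
      rw [h2, prob_pair a z' z h]
      exact le_add_self
  have h2 : ∀ (n : ℕ) (x : Zd d), ∀ k ∈ range (n + 1), ∀ c : ℝ≥0∞,
      ∑ k' ∈ range (n + 1), (if k ≤ k' then c * ENNReal.ofReal (hk (k' - k) x) else 0) ≤
        c * ge n x := by
    intro n x k hk' c
    refine (sum_shift_le n k hk' (fun m => c * ENNReal.ofReal (hk m x))).trans ?_
    rw [← mul_sum, ge_eq]
  calc ∑ k ∈ range (n + 1), ∑ k' ∈ range (n + 1), Pr d {ω | pos a ω k = z ∧ pos a ω k' = z'}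
      ≤ ∑ k ∈ range (n + 1), ∑ k' ∈ range (n + 1),
        ((if k ≤ k' then ENNReal.ofReal (hk k (z - a)) * ENNReal.ofReal (hk (k' - k) (z' - z))
          else 0) +
        (if k' ≤ k then ENNReal.ofReal (hk k' (z' - a)) * ENNReal.ofReal (hk (k - k') (z - z'))
          else 0)) := sum_le_sum fun k _ => sum_le_sum fun k' _ => h1 k k'
    _ = ∑ k ∈ range (n + 1), ∑ k' ∈ range (n + 1),
          (if k ≤ k' then ENNReal.ofReal (hk k (z - a)) * ENNReal.ofReal (hk (k' - k) (z' - z))
            else 0) +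
        ∑ k' ∈ range (n + 1), ∑ k ∈ range (n + 1),
          (if k' ≤ k then ENNReal.ofReal (hk k' (z' - a)) * ENNReal.ofReal (hk (k - k') (z - z'))
            else 0) := by
        simp only [sum_add_distrib]
        congr 1
        exact sum_comm
    _ ≤ ∑ k ∈ range (n + 1), ENNReal.ofReal (hk k (z - a)) * ge n (z' - z) +
        ∑ k' ∈ range (n + 1), ENNReal.ofReal (hk k' (z' - a)) * ge n (z - z') := by
        gcongr with k hk1 k hk1
        · exact h2 n _ k hk1 _
        · exact h2 n _ k hk1 _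
    _ = ge n (z' - z) * (ge n (z - a) + ge n (z' - a)) := by
        rw [← sum_mul, ← sum_mul, ← ge_eq, ← ge_eq, ← neg_sub z' z, ge_neg]
        ring

/-- the joint law of the meetings -/
lemma meet_eq (a b : Zd d) (k l k' l' : ℕ) :
    ∫⁻ ω, Pr d {ω' | pos a ω k = pos b ω' l ∧ pos a ω k' = pos b ω' l'} ∂Pr d =
      ∑' p : Zd d × Zd d, Pr d {ω | pos a ω k = p.1 ∧ pos a ω k' = p.2} *
        Pr d {ω' | pos b ω' l = p.1 ∧ pos b ω' l' = p.2} := by
  have hm : ∀ p : Zd d × Zd d, MeasurableSet {ω : Om d | pos a ω k = p.1 ∧ pos a ω k' = p.2} :=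
    fun p => (measurable_pos a k (measurableSet_singleton p.1)).inter
      (measurable_pos a k' (measurableSet_singleton p.2))
  have h1 : ∀ ω : Om d, Pr d {ω' | pos a ω k = pos b ω' l ∧ pos a ω k' = pos b ω' l'} =
      ∑' p : Zd d × Zd d, {ω : Om d | pos a ω k = p.1 ∧ pos a ω k' = p.2}.indicator 1 ω *
        Pr d {ω' | pos b ω' l = p.1 ∧ pos b ω' l' = p.2} := by
    intro ω
    rw [tsum_eq_single (pos a ω k, pos a ω k')]
    · rw [Set.indicator_of_mem (show ω ∈ {ω : Om d | pos a ω k = _ ∧ pos a ω k' = _} from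
        ⟨rfl, rfl⟩)]
      simp only [Pi.one_apply, one_mul]
      congr 1
      ext ω'
      simp only [Set.mem_setOf_eq]
      constructor
      · rintro ⟨h1, h2⟩
        exact ⟨h1.symm, h2.symm⟩
      · rintro ⟨h1, h2⟩
        exact ⟨h1.symm, h2.symm⟩
    · intro p hp
      rw [Set.indicator_of_notMem, zero_mul]
      rintro ⟨h1, h2⟩
      apply hp
      rw [h1, h2]
  simp only [h1]
  rw [lintegral_tsum]
  · refine tsum_congr fun p => ?_
    rw [lintegral_mul_const _ (measurable_one.indicator (hm p)), lintegral_indicator_one (hm p)]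
  · intro p
    exact ((measurable_one.indicator (hm p)).mul_const _).aemeasurable

end SMb

open SMb in
/-- second moment of the number of meetings -/
theorem second_moment_le (a b : Zd d) (n : ℕ) :
    ∑ k ∈ Finset.range (n + 1), ∑ l ∈ Finset.range (n + 1), ∑ k' ∈ Finset.range (n + 1),
      ∑ l' ∈ Finset.range (n + 1),
        ∫⁻ ω, Pr d {ω' | pos a ω k = pos b ω' l ∧ pos a ω k' = pos b ω' l'} ∂Pr d
      ≤ ENNReal.ofReal (4 * un n (0 : Zd d) ^ 2) := by
  set R := Finset.range (n + 1) with hR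
  set p : ℕ → ℕ → Zd d × Zd d → ℝ≥0∞ := fun k k' z => Pr d {ω | pos a ω k = z.1 ∧ pos a ω k' = z.2}
    with hp
  set q : ℕ → ℕ → Zd d × Zd d → ℝ≥0∞ := fun l l' z => Pr d {ω | pos b ω l = z.1 ∧ pos b ω l' = z.2}
    with hq
  set U := ENNReal.ofReal (un n (0 : Zd d)) with hU
  have h1 : ∑ k ∈ R, ∑ l ∈ R, ∑ k' ∈ R, ∑ l' ∈ R,
        ∫⁻ ω, Pr d {ω' | pos a ω k = pos b ω' l ∧ pos a ω k' = pos b ω' l'} ∂Pr d =
      ∑' z : Zd d × Zd d, (∑ k ∈ R, ∑ k' ∈ R, p k k' z) * (∑ l ∈ R, ∑ l' ∈ R, q l l' z) := by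
    have h2 : ∀ z : Zd d × Zd d, (∑ k ∈ R, ∑ k' ∈ R, p k k' z) * (∑ l ∈ R, ∑ l' ∈ R, q l l' z) =
        ∑ k ∈ R, ∑ l ∈ R, ∑ k' ∈ R, ∑ l' ∈ R, p k k' z * q l l' z := by
      intro z
      rw [Finset.sum_mul_sum]
      refine Finset.sum_congr rfl fun k _ => Finset.sum_congr rfl fun l _ => ?_
      rw [Finset.sum_mul_sum]
    simp only [h2]
    rw [Summable.tsum_finsetSum fun _ _ => ENNReal.summable]
    refine Finset.sum_congr rfl fun k _ => ?_
    rw [Summable.tsum_finsetSum fun _ _ => ENNReal.summable]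
    refine Finset.sum_congr rfl fun l _ => ?_
    rw [Summable.tsum_finsetSum fun _ _ => ENNReal.summable]
    refine Finset.sum_congr rfl fun k' _ => ?_
    rw [Summable.tsum_finsetSum fun _ _ => ENNReal.summable]
    refine Finset.sum_congr rfl fun l' _ => ?_
    exact meet_eq a b k l k' l'
  rw [h1]
  calc ∑' z : Zd d × Zd d, (∑ k ∈ R, ∑ k' ∈ R, p k k' z) * (∑ l ∈ R, ∑ l' ∈ R, q l l' z)
      ≤ ∑' z : Zd d × Zd d, (ge n (z.2 - z.1) * (ge n (z.1 - a) + ge n (z.2 - a))) *
          (ge n (z.2 - z.1) * (ge n (z.1 - b) + ge n (z.2 - b))) :=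
        ENNReal.tsum_le_tsum fun z => mul_le_mul' (pair_le a z.1 z.2 n) (pair_le b z.1 z.2 n)
    _ = ∑' x : Zd d, ∑' y : Zd d, (ge n (y - x) * (ge n (x - a) + ge n (y - a))) *
          (ge n (y - x) * (ge n (x - b) + ge n (y - b))) := ENNReal.tsum_prod'
    _ = ∑' x : Zd d, ∑' w : Zd d, ge n w ^ 2 *
          ((ge n (x - a) + ge n (x - (a - w))) * (ge n (x - b) + ge n (x - (b - w)))) := by
        refine tsum_congr fun x => ?_
        rw [← (Equiv.addLeft x).tsum_eq]
        refine tsum_congr fun w => ?_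
        simp only [Equiv.coe_addLeft, add_sub_cancel_left]
        have e1 : x + w - a = x - (a - w) := by abel
        have e2 : x + w - b = x - (b - w) := by abel
        rw [e1, e2]
        ring
    _ = ∑' w : Zd d, ∑' x : Zd d, ge n w ^ 2 *
          ((ge n (x - a) + ge n (x - (a - w))) * (ge n (x - b) + ge n (x - (b - w)))) :=
        ENNReal.tsum_comm
    _ ≤ ∑' w : Zd d, ge n w ^ 2 * (4 * U) := by
        refine ENNReal.tsum_le_tsum fun w => ?_
        rw [ENNReal.tsum_mul_left]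
        refine mul_le_mul' le_rfl ?_
        have e : ∀ x : Zd d, (ge n (x - a) + ge n (x - (a - w))) *
            (ge n (x - b) + ge n (x - (b - w))) =
            (ge n (x - a) * ge n (x - b) + ge n (x - a) * ge n (x - (b - w))) +
            (ge n (x - (a - w)) * ge n (x - b) + ge n (x - (a - w)) * ge n (x - (b - w))) := by
          intro x
          ring
        simp only [e]
        rw [ENNReal.tsum_add, ENNReal.tsum_add, ENNReal.tsum_add]
        have e4 : 4 * U = (U + U) + (U + U) := by ring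
        rw [e4]
        exact add_le_add (add_le_add (tsum_ge_le n _ _) (tsum_ge_le n _ _))
          (add_le_add (tsum_ge_le n _ _) (tsum_ge_le n _ _))
    _ = ENNReal.ofReal (4 * un n (0 : Zd d) ^ 2) := by
        rw [ENNReal.tsum_mul_right, tsum_ge_sq, ENNReal.ofReal_mul (by norm_num),
          ENNReal.ofReal_pow]
        · rw [hU]
          have : ENNReal.ofReal 4 = 4 := by norm_num
          rw [this]
          ring
        · exact Finset.sum_nonneg fun k _ => Finset.sum_nonneg fun l _ => hk_nonneg _ _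

end Pool.Agent.H39.LW
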