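import Pool.Agent.H39.LW.SMa
import Pool.Agent.H39.LW.SMb

/-!
# Module SMc: simple random walk hits an independent loop-erased walk with probability ≥ 1/16

`hit_ge`: on the product space let `I' = ∑_{k,l ≤ n} 1_{evA k l}` and `I = ∑_{k,l ≤ n} 1{X_k = Y_l}`, so
`I' ≤ I`. By `half_le`, `E I' ≥ un n (b-a) / 2`; by `hit_of_evA`, `I' ≠ 0` implies
`∃ m, InL X (Y_m)`; by Cauchy–Schwarz (`ENNReal.lintegral_mul_le_Lp_mul_Lq` with exponents 2, 2,
applied to `I'` and the indicator of the hitting event)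
`(E I')² ≤ Pr×Pr(∃ m, InL X (Y_m)) * E I'^2` and `E I'^2 ≤ E I^2 ≤ 4 (un n 0)²` (`second_moment_le`).

`hit_ge_sixteenth`: with `p` the hitting probability, `(un n (b-a))² ≤ 16 p (un n 0)²` for all `n`;
by `un_diff` `un n (b-a) ≥ un n 0 - C`; divide by `(un n 0)² → ∞`.
-/

open MeasureTheory ProbabilityTheory Filter
open scoped ENNReal

namespace Pool.Agent.H39.LW

variable {d : ℕ} [NeZero d]

omit [NeZero d] in
/-- the meeting set at two given times -/
lemma measurableSet_meet (a b : Zd d) (k l : ℕ) :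
    MeasurableSet {p : Om d × Om d | pos a p.1 k = pos b p.2 l} := by
  have h : Measurable fun p : Om d × Om d => (pos a p.1 k, pos b p.2 l) :=
    ((measurable_pos a k).comp measurable_fst).prodMk ((measurable_pos b l).comp measurable_snd)
  exact h (Set.to_countable {q : Zd d × Zd d | q.1 = q.2}).measurableSet

theorem hit_ge (n : ℕ) (a b : Zd d) :
    ENNReal.ofReal ((un n (b - a) / 2) ^ 2)
      ≤ (∫⁻ ω, Pr d {ω' | ∃ m, InL (pos a ω) (pos b ω' m)} ∂Pr d)
        * ENNReal.ofReal (4 * un n (0 : Zd d) ^ 2) := by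
  set R := Finset.range (n + 1) with hR
  set A : ℕ → ℕ → Set (Om d × Om d) := fun k l => {p | evA a b k l p.1 p.2} with hA
  set M : ℕ → ℕ → Set (Om d × Om d) := fun k l => {p | pos a p.1 k = pos b p.2 l} with hM
  have hAm : ∀ k l, MeasurableSet (A k l) := fun k l => measurableSet_evA a b k l
  have hMm : ∀ k l, MeasurableSet (M k l) := fun k l => measurableSet_meet a b k l
  set I' : Om d × Om d → ℝ≥0∞ := fun p =>
    ∑ k ∈ R, ∑ l ∈ R, (A k l).indicator (fun _ => (1 : ℝ≥0∞)) p with hI'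
  set I : Om d × Om d → ℝ≥0∞ := fun p =>
    ∑ k ∈ R, ∑ l ∈ R, (M k l).indicator (fun _ => (1 : ℝ≥0∞)) p with hI
  set H : Set (Om d × Om d) := ⋃ k ∈ R, ⋃ l ∈ R, A k l with hH
  have hHm : MeasurableSet H :=
    MeasurableSet.biUnion (Finset.countable_toSet R) fun k _ =>
      MeasurableSet.biUnion (Finset.countable_toSet R) fun l _ => hAm k l
  have hI'm : Measurable I' := Finset.measurable_sum _ fun k _ => Finset.measurable_sum _
    fun l _ => measurable_const.indicator (hAm k l)
  -- the first moment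
  have h1 : ENNReal.ofReal (un n (b - a) / 2) ≤ ∫⁻ p, I' p ∂((Pr d).prod (Pr d)) := by
    have e1 : ∫⁻ p, I' p ∂((Pr d).prod (Pr d))
        = ∑ k ∈ R, ∑ l ∈ R, ∫⁻ ω, Pr d {ω' | evA a b k l ω ω'} ∂Pr d := by
      rw [hI', lintegral_finsetSum]
      · refine Finset.sum_congr rfl fun k _ => ?_
        rw [lintegral_finsetSum]
        · refine Finset.sum_congr rfl fun l _ => ?_
          rw [lintegral_indicator (hAm k l), setLIntegral_const, one_mul,
            Measure.prod_apply (hAm k l)]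
          rfl
        · exact fun l _ => measurable_const.indicator (hAm k l)
      · exact fun k _ => Finset.measurable_sum _ fun l _ => measurable_const.indicator (hAm k l)
    have e2 : ENNReal.ofReal (un n (b - a) / 2)
        = ∑ k ∈ R, ∑ l ∈ R, ENNReal.ofReal (hk (k + l) (b - a)) / 2 := by
      rw [un, Finset.sum_div, ENNReal.ofReal_sum_of_nonneg]
      · refine Finset.sum_congr rfl fun k _ => ?_
        rw [Finset.sum_div, ENNReal.ofReal_sum_of_nonneg]
        · refine Finset.sum_congr rfl fun l _ => ?_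
          rw [ENNReal.ofReal_div_of_pos (by norm_num)]
          norm_num
        · exact fun l _ => div_nonneg (hk_nonneg _ _) (by norm_num)
      · exact fun k _ => div_nonneg (Finset.sum_nonneg fun l _ => hk_nonneg _ _) (by norm_num)
    rw [e1, e2]
    exact Finset.sum_le_sum fun k _ => Finset.sum_le_sum fun l _ => half_le a b k l
  -- the second moment
  have h2 : ∫⁻ p, I' p ^ (2 : ℝ) ∂((Pr d).prod (Pr d)) ≤ ENNReal.ofReal (4 * un n (0 : Zd d) ^ 2) := by
    refine le_trans ?_ (second_moment_le a b n)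
    have e1 : ∀ p, I' p ^ (2 : ℝ) ≤ ∑ k ∈ R, ∑ l ∈ R, ∑ k' ∈ R, ∑ l' ∈ R,
        (M k l ∩ M k' l').indicator (fun _ => (1 : ℝ≥0∞)) p := by
      intro p
      have e2 : I' p ≤ I p := by
        refine Finset.sum_le_sum fun k _ => Finset.sum_le_sum fun l _ => ?_
        refine Set.indicator_le_indicator_of_subset ?_ (fun _ => bot_le) p
        intro q hq
        exact hq.1
      rw [ENNReal.rpow_two]
      refine (pow_le_pow_left' e2 2).trans (le_of_eq ?_)
      rw [hI, sq, Finset.sum_mul]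
      refine Finset.sum_congr rfl fun k _ => ?_
      rw [Finset.sum_mul]
      refine Finset.sum_congr rfl fun l _ => ?_
      rw [Finset.mul_sum]
      refine Finset.sum_congr rfl fun k' _ => ?_
      rw [Finset.mul_sum]
      refine Finset.sum_congr rfl fun l' _ => ?_
      by_cases h3 : p ∈ M k l
      · by_cases h4 : p ∈ M k' l'
        · have h5 : p ∈ M k l ∩ M k' l' := ⟨h3, h4⟩
          rw [Set.indicator_of_mem h3, Set.indicator_of_mem h4, Set.indicator_of_mem h5, one_mul]
        · have h5 : p ∉ M k l ∩ M k' l' := fun h => h4 (Set.mem_of_mem_inter_right h)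
          rw [Set.indicator_of_notMem h4, Set.indicator_of_notMem h5, mul_zero]
      · have h5 : p ∉ M k l ∩ M k' l' := fun h => h3 (Set.mem_of_mem_inter_left h)
        rw [Set.indicator_of_notMem h3, Set.indicator_of_notMem h5, zero_mul]
    refine (lintegral_mono e1).trans (le_of_eq ?_)
    have hm4 : ∀ k l k' l', Measurable fun p =>
        (M k l ∩ M k' l').indicator (fun _ => (1 : ℝ≥0∞)) p := fun k l k' l' =>
      measurable_const.indicator ((hMm k l).inter (hMm k' l'))
    rw [lintegral_finsetSum _ fun k _ => Finset.measurable_sum _ fun l _ =>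
      Finset.measurable_sum _ fun k' _ => Finset.measurable_sum _ fun l' _ => hm4 k l k' l']
    refine Finset.sum_congr rfl fun k _ => ?_
    rw [lintegral_finsetSum _ fun l _ =>
      Finset.measurable_sum _ fun k' _ => Finset.measurable_sum _ fun l' _ => hm4 k l k' l']
    refine Finset.sum_congr rfl fun l _ => ?_
    rw [lintegral_finsetSum _ fun k' _ => Finset.measurable_sum _ fun l' _ => hm4 k l k' l']
    refine Finset.sum_congr rfl fun k' _ => ?_
    rw [lintegral_finsetSum _ fun l' _ => hm4 k l k' l']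
    refine Finset.sum_congr rfl fun l' _ => ?_
    rw [lintegral_indicator ((hMm k l).inter (hMm k' l')), setLIntegral_const, one_mul,
      Measure.prod_apply ((hMm k l).inter (hMm k' l'))]
    rfl
  -- the hitting event
  have h3 : ((Pr d).prod (Pr d)) H ≤ ∫⁻ ω, Pr d {ω' | ∃ m, InL (pos a ω) (pos b ω' m)} ∂Pr d := by
    rw [Measure.prod_apply hHm]
    refine lintegral_mono fun ω => measure_mono fun ω' hω' => ?_
    simp only [hH, Set.mem_preimage, Set.mem_iUnion] at hω'
    obtain ⟨k, -, l, -, h⟩ := hω'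
    exact hit_of_evA h
  -- Cauchy–Schwarz
  have h4 : (∫⁻ p, I' p ∂((Pr d).prod (Pr d))) ^ 2 ≤
      (∫⁻ p, I' p ^ (2 : ℝ) ∂((Pr d).prod (Pr d))) * ((Pr d).prod (Pr d)) H := by
    have e1 : ∫⁻ p, I' p ∂((Pr d).prod (Pr d))
        = ∫⁻ p, (I' * H.indicator fun _ => (1 : ℝ≥0∞)) p ∂((Pr d).prod (Pr d)) := by
      refine lintegral_congr fun p => ?_
      rw [Pi.mul_apply]
      by_cases hp : p ∈ H
      · rw [Set.indicator_of_mem hp, mul_one]
      · rw [Set.indicator_of_notMem hp, mul_zero]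
        refine Finset.sum_eq_zero fun k hk' => Finset.sum_eq_zero fun l hl' => ?_
        refine Set.indicator_of_notMem (fun h => hp ?_) _
        exact Set.mem_biUnion hk' (Set.mem_biUnion hl' h)
    have e2 := ENNReal.lintegral_mul_le_Lp_mul_Lq ((Pr d).prod (Pr d))
      (Real.HolderConjugate.two_two) hI'm.aemeasurable
      ((measurable_const (a := (1 : ℝ≥0∞))).indicator hHm).aemeasurable
    rw [← e1] at e2
    have e3 : ∫⁻ p, (H.indicator (fun _ => (1 : ℝ≥0∞)) p) ^ (2 : ℝ) ∂((Pr d).prod (Pr d))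
        = ((Pr d).prod (Pr d)) H := by
      have : ∀ p, (H.indicator (fun _ => (1 : ℝ≥0∞)) p) ^ (2 : ℝ)
          = H.indicator (fun _ => (1 : ℝ≥0∞)) p := by
        intro p
        by_cases hp : p ∈ H
        · rw [Set.indicator_of_mem hp, ENNReal.one_rpow]
        · rw [Set.indicator_of_notMem hp, ENNReal.zero_rpow_of_pos (by norm_num)]
      simp only [this]
      rw [lintegral_indicator hHm, setLIntegral_const, one_mul]
    rw [e3] at e2
    refine (pow_le_pow_left' e2 2).trans (le_of_eq ?_)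
    rw [mul_pow, ← ENNReal.rpow_natCast, ← ENNReal.rpow_natCast, ← ENNReal.rpow_mul,
      ← ENNReal.rpow_mul]
    norm_num
  have hun : 0 ≤ un n (b - a) / 2 :=
    div_nonneg (Finset.sum_nonneg fun k _ => Finset.sum_nonneg fun l _ => hk_nonneg _ _)
      (by norm_num)
  calc ENNReal.ofReal ((un n (b - a) / 2) ^ 2)
      = ENNReal.ofReal (un n (b - a) / 2) ^ 2 := ENNReal.ofReal_pow hun 2
    _ ≤ (∫⁻ p, I' p ∂((Pr d).prod (Pr d))) ^ 2 := pow_le_pow_left' h1 2
    _ ≤ (∫⁻ p, I' p ^ (2 : ℝ) ∂((Pr d).prod (Pr d))) * ((Pr d).prod (Pr d)) H := h4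
    _ ≤ ENNReal.ofReal (4 * un n (0 : Zd d) ^ 2)
        * (∫⁻ ω, Pr d {ω' | ∃ m, InL (pos a ω) (pos b ω' m)} ∂Pr d) := mul_le_mul' h2 h3
    _ = _ := mul_comm _ _

theorem hit_ge_sixteenth (hs : Summable fun m => hk m (0 : Zd d))
    (hdiv : Tendsto (fun n => un n (0 : Zd d)) atTop atTop) (a b : Zd d) :
    (1 / 16 : ℝ≥0∞) ≤ ∫⁻ ω, Pr d {ω' | ∃ m, InL (pos a ω) (pos b ω' m)} ∂Pr d := by
  set P := ∫⁻ ω, Pr d {ω' | ∃ m, InL (pos a ω) (pos b ω' m)} ∂Pr d with hP
  have hP1 : P ≤ 1 := by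
    calc P ≤ ∫⁻ _ω, 1 ∂Pr d := lintegral_mono fun ω => prob_le_one
      _ = 1 := by simp
  have hPt : P ≠ ⊤ := ne_top_of_le_ne_top ENNReal.one_ne_top hP1
  obtain ⟨C, hC⟩ := un_diff hs (b - a)
  set r := P.toReal with hr
  have hr0 : 0 ≤ r := ENNReal.toReal_nonneg
  have hPr : P = ENNReal.ofReal r := (ENNReal.ofReal_toReal hPt).symm
  have key : ∀ n, un n (b - a) ^ 2 ≤ 16 * r * un n (0 : Zd d) ^ 2 := by
    intro n
    have h1 := hit_ge n a b
    rw [← hP, hPr, ← ENNReal.ofReal_mul hr0, ENNReal.ofReal_le_ofReal_iff (by positivity)] at h1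
    nlinarith
  have h2 : 1 / 16 ≤ r := by
    by_contra hlt
    push Not at hlt
    set ρ := √(16 * r) with hρ
    have hρ1 : ρ < 1 := by
      rw [hρ, Real.sqrt_lt' (by norm_num)]
      linarith
    have hρ0 : 0 ≤ ρ := Real.sqrt_nonneg _
    have hb : ∀ n, 0 ≤ un n (0 : Zd d) → (1 - ρ) * un n (0 : Zd d) ≤ C := by
      intro n hn
      have h3 : un n (b - a) ≤ ρ * un n (0 : Zd d) := by
        refine le_of_sq_le_sq ?_ (mul_nonneg hρ0 hn)
        rw [mul_pow, hρ, Real.sq_sqrt (by positivity)]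
        exact key n
      have h4 := hC n
      linarith
    obtain ⟨n, hn⟩ := (hdiv.eventually_gt_atTop (max 0 (C / (1 - ρ)))).exists
    have h5 := hb n ((le_max_left _ _).trans hn.le)
    have h6 : C / (1 - ρ) < un n (0 : Zd d) := (le_max_right _ _).trans_lt hn
    rw [div_lt_iff₀ (by linarith)] at h6
    linarith
  rw [hPr]
  calc (1 / 16 : ℝ≥0∞) = ENNReal.ofReal (1 / 16) := by
        rw [ENNReal.ofReal_div_of_pos (by norm_num)]
        norm_num
    _ ≤ ENNReal.ofReal r := ENNReal.ofReal_le_ofReal h2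

end Pool.Agent.H39.LW
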