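import Pool.Agent.H39.LW.Limit
import Pool.Agent.H39.LW.SMc
import Pool.Agent.H39.LW.Conv

/-!
# Module ASb: the sum of the squares diverges

`first_hit_bound`, `y ≠ 0`: decompose `{∃ m, InL X (Y_m)}`, `X = pos 0 ω`, `Y = pos y ω'`,
according to the first point `x` of the loop erasure hit by `Y` (take the smallest `m`): for `x = 0`
the probability is at most `Pr (Y visits 0) ≤ ∑ₙ hk n (-y)` (`prob_hit_le`), for `x = y` at most
`hL y ≤ ∑ₙ hk n y` (`hL_le`), for the other `x` at most `hL x * hL (x - y)` (`corr_ineq` with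
`a = 0`, `b = y`).
`tsum_hL_sq`: suppose the sum is finite. By `hit_ge_sixteenth`,
`1/16 ≤ 2 * G(y) + ∑' x, hL x * hL (x - y)` for `y ≠ 0`; both terms tend to `0` along `cofinite`
(`green_tendsto`, `conv_tendsto`), a contradiction as `cofinite` on the infinite type
`Zd d` is not `⊥`.
-/

open MeasureTheory ProbabilityTheory Filter
open scoped ENNReal

namespace Pool.Agent.H39.LW

variable {d : ℕ} [NeZero d]

/-- joint measurability of the event that a point of the second walk is on the loop erasure of the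
first one -/
lemma measurableSet_inL_pos (a b : Zd d) (i : ℕ) :
    MeasurableSet {p : Om d × Om d | InL (pos a p.1) (pos b p.2 i)} := by
  have h1 : {p : Om d × Om d | InL (pos a p.1) (pos b p.2 i)} =
      ⋃ z : Zd d, {ω : Om d | InL (pos a ω) z} ×ˢ {ω' : Om d | pos b ω' i = z} := by
    ext p
    simp only [Set.mem_setOf_eq, Set.mem_iUnion, Set.mem_prod]
    constructor
    · intro h
      exact ⟨_, h, rfl⟩
    · rintro ⟨z, h, h'⟩
      rw [h']
      exact h
  rw [h1]
  refine MeasurableSet.iUnion fun z => (measurableSet_inL a z).prod ?_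
  exact measurable_pos b i (measurableSet_singleton z)

/-- the event in `corr_ineq` is measurable -/
lemma measurableSet_first (a b x : Zd d) :
    MeasurableSet {p : Om d × Om d | InL (pos a p.1) x ∧ ∃ n, pos b p.2 n = x ∧
      ∀ i < n, ¬ InL (pos a p.1) (pos b p.2 i)} := by
  have h1 : {p : Om d × Om d | InL (pos a p.1) x ∧ ∃ n, pos b p.2 n = x ∧
      ∀ i < n, ¬ InL (pos a p.1) (pos b p.2 i)} =
      (Prod.fst ⁻¹' {ω : Om d | InL (pos a ω) x}) ∩ ⋃ n : ℕ,
        ((Prod.snd ⁻¹' {ω' : Om d | pos b ω' n = x}) ∩ ⋂ i : ℕ, ⋂ _ : i < n,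
          {p : Om d × Om d | InL (pos a p.1) (pos b p.2 i)}ᶜ) := by
    ext p
    simp only [Set.mem_setOf_eq, Set.mem_iUnion, Set.mem_inter_iff, Set.mem_preimage,
      Set.mem_iInter, Set.mem_compl_iff]
  rw [h1]
  refine (measurable_fst (measurableSet_inL a x)).inter (MeasurableSet.iUnion fun n => ?_)
  refine (measurable_snd (measurable_pos b n (measurableSet_singleton x))).inter ?_
  exact MeasurableSet.iInter fun i => MeasurableSet.iInter fun _ =>
    (measurableSet_inL_pos a b i).compl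

lemma measurable_first (a b x : Zd d) :
    Measurable fun ω : Om d => Pr d {ω' | InL (pos a ω) x ∧ ∃ n, pos b ω' n = x ∧
      ∀ i < n, ¬ InL (pos a ω) (pos b ω' i)} :=
  measurable_measure_prodMk_left (measurableSet_first a b x)

theorem first_hit_bound (hs : Summable fun m => hk m (0 : Zd d)) {y : Zd d} (hy : y ≠ 0) :
    ∫⁻ ω, Pr d {ω' | ∃ m, InL (pos 0 ω) (pos y ω' m)} ∂Pr d
      ≤ 2 * (∑' n, ENNReal.ofReal (hk n y)) + ∑' x, hL x * hL (x - y) := by
  classical
  set g : Zd d → Om d → ℝ≥0∞ := fun x ω =>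
    if x = 0 ∨ x = y then 0 else Pr d {ω' | InL (pos 0 ω) x ∧ ∃ n, pos y ω' n = x ∧
      ∀ i < n, ¬ InL (pos 0 ω) (pos y ω' i)} with hg
  have hgm : ∀ x, Measurable (g x) := by
    intro x
    by_cases hx : x = 0 ∨ x = y
    · have : g x = fun _ => 0 := by
        funext ω
        simp [hg, hx]
      rw [this]
      exact measurable_const
    · have : g x = fun ω => Pr d {ω' | InL (pos 0 ω) x ∧ ∃ n, pos y ω' n = x ∧
          ∀ i < n, ¬ InL (pos 0 ω) (pos y ω' i)} := by
        funext ω
        simp [hg, hx]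
      rw [this]
      exact measurable_first 0 y x
  have hgle : ∀ x, ∫⁻ ω, g x ω ∂Pr d ≤ hL x * hL (x - y) := by
    intro x
    by_cases hx : x = 0 ∨ x = y
    · have : g x = fun _ => 0 := by
        funext ω
        simp [hg, hx]
      rw [this]
      simp
    · have : g x = fun ω => Pr d {ω' | InL (pos 0 ω) x ∧ ∃ n, pos y ω' n = x ∧
          ∀ i < n, ¬ InL (pos 0 ω) (pos y ω' i)} := by
        funext ω
        simp [hg, hx]
      rw [this]
      push Not at hx
      have h1 := corr_ineq hs (a := 0) (b := y) (x := x) (Ne.symm hy) (Ne.symm hx.1)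
        (Ne.symm hx.2)
      rwa [sub_zero] at h1
  have hpt : ∀ ω, Pr d {ω' | ∃ m, InL (pos 0 ω) (pos y ω' m)} ≤
      Pr d {ω' | ∃ n, pos y ω' n = 0} +
        ({ω : Om d | InL (pos 0 ω) y}.indicator (fun _ => (1 : ℝ≥0∞)) ω + ∑' x, g x ω) := by
    intro ω
    have hsub : {ω' : Om d | ∃ m, InL (pos 0 ω) (pos y ω' m)} ⊆
        {ω' | ∃ n, pos y ω' n = 0} ∪ ({ω' : Om d | InL (pos 0 ω) y} ∪
          ⋃ x : Zd d, {ω' : Om d | (x ≠ 0 ∧ x ≠ y) ∧ InL (pos 0 ω) x ∧ ∃ n, pos y ω' n = x ∧
            ∀ i < n, ¬ InL (pos 0 ω) (pos y ω' i)}) := by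
      intro ω' hω'
      have hex : ∃ m, InL (pos 0 ω) (pos y ω' m) := hω'
      have hmin := Nat.find_spec hex
      have hlt : ∀ i < Nat.find hex, ¬ InL (pos 0 ω) (pos y ω' i) := fun i hi => Nat.find_min hex hi
      by_cases h0 : pos y ω' (Nat.find hex) = 0
      · exact Or.inl ⟨_, h0⟩
      by_cases h1 : pos y ω' (Nat.find hex) = y
      · refine Or.inr (Or.inl ?_)
        rw [h1] at hmin
        exact hmin
      · refine Or.inr (Or.inr ?_)
        simp only [Set.mem_iUnion, Set.mem_setOf_eq]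
        exact ⟨pos y ω' (Nat.find hex), ⟨h0, h1⟩, hmin, Nat.find hex, rfl, hlt⟩
    refine (measure_mono hsub).trans ?_
    refine (measure_union_le _ _).trans (add_le_add le_rfl ?_)
    refine (measure_union_le _ _).trans (add_le_add ?_ ?_)
    · by_cases h : InL (pos 0 ω) y
      · rw [Set.indicator_of_mem (show ω ∈ {ω : Om d | InL (pos 0 ω) y} from h)]
        exact prob_le_one
      · have : {ω' : Om d | InL (pos 0 ω) y} = ∅ := by
          ext ω'
          simp [h]
        rw [this]
        simp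
    · refine (measure_iUnion_le _).trans (ENNReal.tsum_le_tsum fun x => ?_)
      by_cases hx : x = 0 ∨ x = y
      · have h2 : ¬ (x ≠ 0 ∧ x ≠ y) := by tauto
        have : {ω' : Om d | (x ≠ 0 ∧ x ≠ y) ∧ InL (pos 0 ω) x ∧ ∃ n, pos y ω' n = x ∧
            ∀ i < n, ¬ InL (pos 0 ω) (pos y ω' i)} = ∅ := by
          ext ω'
          simp only [Set.mem_setOf_eq, Set.mem_empty_iff_false, iff_false]
          exact fun h => h2 h.1
        rw [this]
        simp
      · simp only [hg, hx, if_false]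
        exact measure_mono fun ω' h => h.2
  calc ∫⁻ ω, Pr d {ω' | ∃ m, InL (pos 0 ω) (pos y ω' m)} ∂Pr d
      ≤ ∫⁻ ω, (Pr d {ω' | ∃ n, pos y ω' n = 0} +
        ({ω : Om d | InL (pos 0 ω) y}.indicator (fun _ => (1 : ℝ≥0∞)) ω + ∑' x, g x ω)) ∂Pr d :=
        lintegral_mono hpt
    _ = Pr d {ω' | ∃ n, pos y ω' n = 0} + (hL y + ∑' x, ∫⁻ ω, g x ω ∂Pr d) := by
        rw [lintegral_add_left measurable_const,
          lintegral_add_left (measurable_const.indicator (measurableSet_inL 0 y)),
          lintegral_tsum fun x => (hgm x).aemeasurable,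
          lintegral_indicator (measurableSet_inL 0 y)]
        simp [hL]
    _ ≤ (∑' n, ENNReal.ofReal (hk n y)) + ((∑' n, ENNReal.ofReal (hk n y)) +
          ∑' x, hL x * hL (x - y)) := by
        refine add_le_add ?_ (add_le_add (hL_le y) (ENNReal.tsum_le_tsum hgle))
        refine (prob_hit_le y 0).trans (le_of_eq (tsum_congr fun n => ?_))
        rw [zero_sub, hk_neg]
    _ = 2 * (∑' n, ENNReal.ofReal (hk n y)) + ∑' x, hL x * hL (x - y) := by
        rw [two_mul, add_assoc]

theorem tsum_hL_sq (hs : Summable fun m => hk m (0 : Zd d))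
    (hdiv : Tendsto (fun n => un n (0 : Zd d)) atTop atTop) : ∑' x : Zd d, hL x ^ 2 = ⊤ := by
  by_contra hfin
  have h1 : Tendsto (fun y : Zd d => ∑' x, hL x * hL (x - y)) cofinite (nhds 0) :=
    conv_tendsto hfin
  have h2 : Tendsto (fun y : Zd d => ∑' n, ENNReal.ofReal (hk n y)) cofinite (nhds 0) := by
    have h3 := ENNReal.tendsto_ofReal (green_tendsto hs)
    rw [ENNReal.ofReal_zero] at h3
    refine h3.congr fun y => ?_
    exact ENNReal.ofReal_tsum_of_nonneg (fun n => hk_nonneg n y) (summable_hk hs y)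
  have h4 : Tendsto (fun y : Zd d => 2 * (∑' n, ENNReal.ofReal (hk n y)) +
      ∑' x, hL x * hL (x - y)) cofinite (nhds 0) := by
    have h5 := (ENNReal.Tendsto.const_mul (a := (2 : ℝ≥0∞)) h2
      (Or.inr ENNReal.ofNat_ne_top)).add h1
    simpa using h5
  have h6 : ∀ᶠ y : Zd d in cofinite, 2 * (∑' n, ENNReal.ofReal (hk n y)) +
      ∑' x, hL x * hL (x - y) < 1 / 16 := by
    refine h4.eventually_lt_const ?_
    rw [one_div]
    exact ENNReal.inv_pos.2 (by norm_num)
  have h7 : ∀ᶠ y : Zd d in cofinite, y ≠ 0 := by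
    have := (Set.finite_singleton (0 : Zd d)).eventually_cofinite_notMem
    filter_upwards [this] with y hy
    simpa using hy
  obtain ⟨y, hy, hy0⟩ := (h6.and h7).exists
  have h8 := hit_ge_sixteenth hs hdiv (0 : Zd d) y
  exact absurd (h8.trans (first_hit_bound hs hy0)) (not_le.2 hy)

end Pool.Agent.H39.LW
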